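import Mathlib

set_option autoImplicit false
set_option linter.all false

/-!
Online matching on the line, definitions for the proof (chain model). Nodes `0, ..., N`, the edge
`k` (`1 ≤ k ≤ N`) joins the nodes `k - 1` and `k` and has the length `w k ≥ 0`. A flow is
`f : ℕ → ℤ`, `f k` = (number of used sites at nodes `< k`) - (number of requests at nodes `< k`).
-/

namespace Pool.Agent.MP_a4c1f4_lc.LM

open Finset

/-- Feasible flows: increments at the node `k ≤ N` bounded by `z k`. Decreasing more than forced is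
allowed. -/
def Fz (N : ℕ) (z f : ℕ → ℤ) : Prop :=
  f 0 = 0 ∧ (∀ k, N < k → f k = 0) ∧ ∀ k, k ≤ N → f (k + 1) - f k ≤ z k

/-- Tilted absolute value. -/
noncomputable def ps (θ : ℝ) (j : ℤ) : ℝ := |(j : ℝ)| + θ * (j : ℝ)

/-- Tilted cost of the flow `f` on the edges `a ≤ k < b`. The total cost is `sm w θ 1 (N + 1) f`. -/
noncomputable def sm (w : ℕ → ℝ) (θ : ℝ) (a b : ℕ) (f : ℕ → ℤ) : ℝ :=
  ∑ k ∈ Ico a b, w k * ps θ (f k)

/-- `f` is an optimal flow. -/
def Opt (N : ℕ) (w : ℕ → ℝ) (z : ℕ → ℤ) (θ : ℝ) (f : ℕ → ℤ) : Prop :=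
  Fz N z f ∧ ∀ g, Fz N z g → sm w θ 1 (N + 1) f ≤ sm w θ 1 (N + 1) g

/-- A request at the node `v` lowers `z v` by one. -/
def dec (z : ℕ → ℤ) (v : ℕ) : ℕ → ℤ := fun k => z k - if k = v then 1 else 0

/-- The flow after the request at the node `v` has been served from the node `s`. -/
def pth (v s : ℕ) (f : ℕ → ℤ) : ℕ → ℤ := fun k =>
  f k + (if s < k ∧ k ≤ v then 1 else 0) - (if v < k ∧ k ≤ s then 1 else 0)

/-- The bounds at time `t`: capacities minus the requests `v 0, ..., v (t - 1)`. -/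
def zt (c : ℕ → ℤ) (v : ℕ → ℕ) (t : ℕ) : ℕ → ℤ := fun k =>
  c k - (((range t).filter (fun a => v a = k)).card : ℤ)

/-- The data of the whole run: `n` requests at the nodes `v t`, `m` pieces `[x r, x (r + 1)]` of the
interval `[-1/3, 1/3]`, the flow `f t r` at time `t ≤ n` on the piece `r < m`, which is optimal for
all tilts of the closed piece. -/
structure Run (N n m : ℕ) (w : ℕ → ℝ) (c : ℕ → ℤ) (v : ℕ → ℕ) (x : ℕ → ℝ)
    (f : ℕ → ℕ → ℕ → ℤ) : Prop where
  w_nonneg : ∀ k, 0 ≤ w k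
  v_le : ∀ t, t < n → v t ≤ N
  x_zero : x 0 = -(1 / 3)
  x_last : x m = 1 / 3
  x_mono : ∀ r, r < m → x r ≤ x (r + 1)
  opt : ∀ t r, t ≤ n → r < m → ∀ θ, x r ≤ θ → θ ≤ x (r + 1) → Opt N w (zt c v t) θ (f t r)
  step : ∀ t r, t < n → r < m → ∃ s, s ≤ N ∧ f (t + 1) r = pth (v t) s (f t r)
  zero : ∀ r k, r < m → f 0 r k = 0

/-- Cost from the edge `i` to the site on the left of the step `f → g`. -/
noncomputable def cl (w : ℕ → ℝ) (i : ℕ) (f g : ℕ → ℤ) (θ : ℝ) : ℝ := sm w θ 1 i g - sm w θ 1 i f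

/-- Cost from the edge `i` to the site on the right of the step `f → g`. -/
noncomputable def cr (N : ℕ) (w : ℕ → ℝ) (i : ℕ) (f g : ℕ → ℤ) (θ : ℝ) : ℝ :=
  sm w θ (i + 1) (N + 1) g - sm w θ (i + 1) (N + 1) f

open Classical in
/-- The weight of the crossing of the edge `i` to the left in the step `f → g` (request at `v`) on
the piece `[a, b]` of tilts. -/
noncomputable def wl (w : ℕ → ℝ) (p : ℝ) (i v : ℕ) (f g : ℕ → ℤ) (a b : ℝ) : ℝ :=
  if i ≤ v ∧ g i = f i + 1 then Real.log (cl w i f g b + p) - Real.log (cl w i f g a + p) else 0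

open Classical in
/-- The weight of the crossing of the edge `i` to the right. -/
noncomputable def wr (N : ℕ) (w : ℕ → ℝ) (p : ℝ) (i v : ℕ) (f g : ℕ → ℤ) (a b : ℝ) : ℝ :=
  if v < i ∧ g i = f i - 1 then Real.log (cr N w i f g a + p) - Real.log (cr N w i f g b + p)
  else 0

/-- The largest absolute value of all flows on the edge `i`. -/
def mx (n m : ℕ) (f : ℕ → ℕ → ℕ → ℤ) (i : ℕ) : ℕ :=
  (range (n + 1) ×ˢ range m).sup (fun q => (f q.1 q.2 i).natAbs)

end Pool.Agent.MP_a4c1f4_lc.LM
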