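import Mathlib
import Pool.Agent.Lib.MP_a4c1f4_lc.LM.Defs

set_option autoImplicit false
set_option linter.all false

/-!
Online matching on the line: the statements of the chain model, each with its proof in words.
Everywhere: `w` edge lengths, `z` bounds of the increments, `N` the number of edges.
-/

namespace Pool.Agent.MP_a4c1f4_lc.LM

open Finset

/-- Ops 1 and 2. PROOF. `g1 k = min (g k) (f k + 1)` for `k ≤ v`, `min (g k) (f k)` for `k > v`;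
`f1 k = max (f k) (g k - 1)` for `k ≤ v`, `max (f k) (g k)` for `k > v`. `g1 ∈ Fz (dec z v)`,
`f1 ∈ Fz z` (at the node `v`: `f (v+1) ≤ f v + z v = (f v + 1) + (z v - 1)`, and
`g (v+1) ≤ g v + z v - 1 = (g v - 1) + z v`). Pointwise `ps (g1) + ps (f1) ≤ ps g + ps f` (equality
unless `k ≤ v`, `g k ≥ f k + 2`, then convexity: `f < f + 1 ≤ g - 1 < g`). Optimality of `f` against
`f1` gives `sm g1 ≤ sm g`. Then `g2 k = max (g1 k) (f k)` for `k ≤ v`, `max (g1 k) (f k - 1)` for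
`k > v`; `f2 k = min (f k) (g1 k)` for `k ≤ v`, `min (f k) (g1 k + 1)` for `k > v`; the same
argument with `g1` in place of `g` (at `v`: `f (v+1) - 1 ≤ f v + (z v - 1)`,
`g1 (v+1) + 1 ≤ g1 v + z v`). The result is `g' = g2`. -/
def S_Op : Prop := ∀ (N : ℕ) (w : ℕ → ℝ) (z : ℕ → ℤ) (θ : ℝ) (v : ℕ) (f g : ℕ → ℤ),
  (∀ k, 0 ≤ w k) → v ≤ N → Opt N w z θ f → Fz N (dec z v) g →
  ∃ g', Fz N (dec z v) g' ∧ sm w θ 1 (N + 1) g' ≤ sm w θ 1 (N + 1) g ∧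
    (∀ k, k ≤ v → f k ≤ g' k ∧ g' k ≤ f k + 1) ∧ ∀ k, v < k → f k - 1 ≤ g' k ∧ g' k ≤ f k

/-- The step lemma (ops 3, 4, 5). PROOF. Take `g'` from `S_Op`, `D = g' - f`, in `{0,1}` for `k ≤ v`,
in `{-1,0}` for `k > v`. `s` = the largest index `≤ v` with `D s = 0` (exists, `D 0 = 0`):
`g3 = f` for `k ≤ s`, `g'` for `k > s`, is in `Fz (dec z v)` (at the node `s` use `f s = g' s`); the
complementary function (`g'` for `k ≤ s`, `f` for `k > s`) is in `Fz z`, so `sm g3 ≤ sm g'` by the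
optimality of `f`. `s'` = the smallest index `≥ v` with `D (s' + 1) = 0` (`s' ≤ N`):
`g4 = g3` for `k ≤ s'`, `f` for `k > s'`, again `sm g4 ≤ sm g3`. Now `g4 = f + 1` on `(s, v]`,
`f - 1` on `(v, s']`, `f` elsewhere. If `s < v < s'`: `g5 = f` for `k ≤ v`, `g4` for `k > v`
(at `v`: `f (v+1) - 1 - f v ≤ z v - 1`); the complementary function (`f + 1` on `(s,v]`) is in
`Fz z` (at the node `s` as for `g4`), so `sm g5 ≤ sm g4`. So with `s0 = s'` (if `s' > v`) or `s0 = s`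
(if `s' = v`) the flow `pth v s0 f` is in `Fz (dec z v)` and `sm (pth v s0 f) ≤ sm g`.
The slack `f (s0+1) - f s0 + 1 ≤ z s0` is the increment of `pth v s0 f` at the node `s0`. -/
def S_Stp : Prop := ∀ (N : ℕ) (w : ℕ → ℝ) (z : ℕ → ℤ) (θ : ℝ) (v : ℕ) (f g : ℕ → ℤ),
  (∀ k, 0 ≤ w k) → v ≤ N → Opt N w z θ f → Fz N (dec z v) g →
  ∃ s, s ≤ N ∧ f (s + 1) - f s + 1 ≤ z s ∧ sm w θ 1 (N + 1) (pth v s f) ≤ sm w θ 1 (N + 1) g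

/-- Serving from a node with slack is feasible. PROOF: check the increments at `s` and `v`. -/
def S_Pm : Prop := ∀ (N : ℕ) (z : ℕ → ℤ) (v s : ℕ) (f : ℕ → ℤ), v ≤ N → s ≤ N → Fz N z f →
  f (s + 1) - f s + 1 ≤ z s → Fz N (dec z v) (pth v s f)

/-- The bounds after one more request, and their monotonicity. -/
def S_Zt : Prop := (∀ (c : ℕ → ℤ) (v : ℕ → ℕ) (t : ℕ), zt c v (t + 1) = dec (zt c v t) (v t)) ∧
  ∀ (c : ℕ → ℤ) (v : ℕ → ℕ) (t t' k : ℕ), t ≤ t' → zt c v t' k ≤ zt c v t k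

/-- PROOF. First case `f i - S i ≥ u`: let `[a,b]` be the maximal interval around `i` on which
`f - S ≥ u` (`1 ≤ a`, `b ≤ N` as `f = S = 0` at `0` and beyond `N`). `h = f - 1` on `[a,b]`, `f`
elsewhere, is in `Fz z`: at the node `b`, `f (b+1) - f b + 1 ≤ S (b+1) - S b ≤ z' b ≤ z b`.
Optimality: `0 ≤ ∑_{[a,b]} w (ps (f-1) - ps f)`, i.e. `(1+θ) w(f ≥ 1) ≤ (1-θ) w(f ≤ 0)` on `[a,b]`;
as `|θ| ≤ 1/3`: `w(f ≥ 1) ≤ 2 w(f ≤ 0)`, so `w([a,b]) ≤ 3 w(f ≤ 0)`, and where `f ≤ 0`,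
`S ≤ f - u ≤ -u`. Second case `S i - f i ≥ u`: the maximal interval with `S - f ≥ u`, `h = f + 1`
there (at the node `a - 1`: `f a - f (a-1) + 1 ≤ S a - S (a-1)`); `w(f ≤ -1) ≤ 2 w(f ≥ 0)`, and where
`f ≥ 0`, `S ≥ u`. -/
def S_Run : Prop := ∀ (N : ℕ) (w : ℕ → ℝ) (z z' : ℕ → ℤ) (θ : ℝ) (f S : ℕ → ℤ) (i : ℕ) (u : ℤ),
  (∀ k, 0 ≤ w k) → |θ| ≤ 1 / 3 → (∀ k, z' k ≤ z k) → Opt N w z θ f → Fz N z' S → 1 ≤ u →
  u ≤ |f i - S i| →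
  ∃ a b, 1 ≤ a ∧ a ≤ i ∧ i ≤ b ∧ b ≤ N ∧
    ∑ k ∈ Icc a b, w k ≤ 3 * ∑ k ∈ (Icc a b).filter (fun k => u ≤ |S k|), w k

/-- Covering. PROOF. For `i ∈ E` with the interval `[a,b]`: if
`w[a,i] > 6 w([a,i] ∩ A)` and `w[i,b] > 6 w([i,b] ∩ A)` then, adding,
`w[a,b] + w i > 6 w([a,b] ∩ A) ≥ 2 w[a,b]`, a contradiction. So `E = E1 ∪ E2`, `E1` with a left
interval `[a,i]` of density `≥ 1/6`, `E2` with a right one. `w(E1 ∩ [1,M]) ≤ 6 w(A ∩ [1,M])` by strong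
induction on `M` (if `M ∈ E1` with the interval `[a,M]`: split at `a`), `w(E2 ∩ [M,N]) ≤ 6 w(A ∩ [M,N])`
by downward induction. -/
def S_Cov : Prop := ∀ (N : ℕ) (w : ℕ → ℝ) (E A : Finset ℕ), (∀ k, 0 ≤ w k) →
  (∀ i ∈ E, ∃ a b, 1 ≤ a ∧ a ≤ i ∧ i ≤ b ∧ b ≤ N ∧
    ∑ k ∈ Icc a b, w k ≤ 3 * ∑ k ∈ (Icc a b) ∩ A, w k) →
  ∑ k ∈ E, w k ≤ 12 * ∑ k ∈ A, w k

/-- The maximal inequality. PROOF. `mx i ≤ |S i| + d i`, `d i` = the largest `|f t r i - S i|`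
(natAbs, over `t ≤ n`, `r < m`). `∑ w i d i = ∑_{u = 1}^{U} w(E_u)`, `E_u = {i ∈ [1,N] : d i ≥ u}`, `U` a
bound of all `d i` and `|S i|`. By `S_Run` (with `z = zt c v t`, `z' = zt c v n`, `θ = x r`, for which
`|x r| ≤ 1/3`) and `S_Cov` with `A_u = {k ∈ [1,N] : |S k| ≥ u}`: `w(E_u) ≤ 12 w(A_u)`; sum over `u`. -/
def S_Fst : Prop := ∀ (N n m : ℕ) (w : ℕ → ℝ) (c : ℕ → ℤ) (v : ℕ → ℕ) (x : ℕ → ℝ)
  (f : ℕ → ℕ → ℕ → ℤ) (S : ℕ → ℤ), Run N n m w c v x f → Fz N (zt c v n) S →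
  ∑ i ∈ Icc 1 N, w i * (mx n m f i : ℝ) ≤ 13 * ∑ i ∈ Icc 1 N, w i * |(S i : ℝ)|

/-- Order lemma, case A. PROOF. `i ≥ 1` (`f 0 = g 0 = 0`). `M k = ∑ l ∈ Ico k i, (z l - z' l) ≥ 0`.
For `k ≤ i`: `X k = max (f k) (g' k - M k)`, `Y k = min (g' k) (f k + M k)`, `X i = j + 1`, `Y i = j`.
`h = X` for `k < i`, `g` for `k ≥ i` is in `Fz (dec z v)` (for the nodes `k < i ≤ v` the bound is `z k`;
`g' (k+1) - M (k+1) ≤ g' k + z' k - M (k+1) = (g' k - M k) + z k`); `h' = Y` for `k < i`, `f'` for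
`k ≥ i` is in `Fz z'` (`f (k+1) + M (k+1) ≤ f k + M k + z' k`). Optimality:
`sm w θ 1 i g ≤ sm w θ 1 i X`, `sm w θ' 1 i f' ≤ sm w θ' 1 i Y`. Pointwise
`ps θ X + ps θ' Y ≤ ps θ f + ps θ' g'`: equality if `g' - M ≤ f`; else `X = g' - M`, `Y = f + M` and
`|X| + |Y| ≤ |f| + |g'|` (both between `f` and `g'`, same sum), and the linear part changes by
`(θ - θ') (g' - M - f) ≤ 0`. Sum over `k < i`. -/
def S_OrA : Prop := ∀ (N : ℕ) (w : ℕ → ℝ) (z z' : ℕ → ℤ) (θ θ' : ℝ) (v v' i : ℕ) (j : ℤ)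
  (f g f' g' : ℕ → ℤ), (∀ k, 0 ≤ w k) → (∀ k, z' k ≤ z k) → θ ≤ θ' → i ≤ v → i ≤ v' → i ≤ N →
  Fz N z f → Opt N w (dec z v) θ g → Opt N w z' θ' f' → Fz N (dec z' v') g' →
  f i = j → g i = j + 1 → f' i = j → g' i = j + 1 → cl w i f g θ ≤ cl w i f' g' θ'

/-- Order lemma, case B. PROOF. `i ≥ 1`. `M k = ∑ l ∈ Ico i k, (dec z v l - z' l) ≥ 0` for `k ≥ i`.
`X k = g' k` for `k < i`, `X i = j + 1`, `X k = max (f' k) (g k - M k)` for `k > i`: in `Fz z'`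
(at the node `i`: `f' (i+1) ≤ j + z' i`, `g (i+1) - M (i+1) ≤ j + 1 + z' i`; for `k > i`:
`g (k+1) - M (k+1) ≤ g k - M k + z' k`). `Y k = f k` for `k < i`, `Y i = j`,
`Y k = min (g k) (f' k + M k)` for `k > i`: in `Fz (dec z v)` (nodes `k < i ≤ v`: bound `z k`; node `i`:
`f' (i+1) + M (i+1) ≤ j + dec z v i`; `k > i`: `f' (k+1) + M (k+1) ≤ f' k + M k + dec z v k`).
Optimality of `f'` against `X` and of `g` against `Y` on all edges `1..N`; pointwise for `k > i`: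
`ps θ' X + ps θ Y ≤ ps θ' f' + ps θ g` (linear part `(θ' - θ) (g - M - f') ≤ 0`); the edge `i`
contributes `w i (θ - θ') ≥ 0` in the right direction:
`c' - c ≥ - w i (D + θ') + w i (D + θ) ≥ 0`, `D = |j+1| - |j|`. -/
def S_OrB : Prop := ∀ (N : ℕ) (w : ℕ → ℝ) (z z' : ℕ → ℤ) (θ θ' : ℝ) (v v' i : ℕ) (j : ℤ)
  (f g f' g' : ℕ → ℤ), (∀ k, 0 ≤ w k) → (∀ k, z' k ≤ dec z v k) → θ' ≤ θ → i ≤ v → i ≤ v' →
  i ≤ N → Fz N z f → Opt N w (dec z v) θ g → Opt N w z' θ' f' → Fz N (dec z' v') g' →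
  f i = j → g i = j + 1 → f' i = j → g' i = j + 1 → cl w i f g θ ≤ cl w i f' g' θ'

/-- Bounds of the cost. PROOF. `h = g` for `k < i`, `f` for `k ≥ i` is in `Fz z`
(node `i - 1`: `f i - g (i-1) ≤ g i - g (i-1)`), optimality gives `0 ≤ cl`. Upper bound: all terms of
`sm` are nonnegative for `|θ| ≤ 1`. -/
def S_Nn : Prop := (∀ (N : ℕ) (w : ℕ → ℝ) (z : ℕ → ℤ) (θ : ℝ) (v i : ℕ) (f g : ℕ → ℤ),
    (∀ k, 0 ≤ w k) → i ≤ N → Opt N w z θ f → Fz N (dec z v) g → f i ≤ g i → 0 ≤ cl w i f g θ) ∧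
  ∀ (N : ℕ) (w : ℕ → ℝ) (θ : ℝ) (i : ℕ) (f g : ℕ → ℤ), (∀ k, 0 ≤ w k) → |θ| ≤ 1 → i ≤ N →
    cl w i f g θ ≤ sm w θ 1 (N + 1) g

open Classical in
/-- An ordered sum. PROOF. Enumerate the pairs lexicographically; for one sequence show by
induction on `M` that for every `B' ≥ 0` with `hi a ≤ B'` for all `a < M`, `P a`:
`∑_{a < M} ≤ log (B' + p) - log p` (step: if `P M`, all earlier `hi a ≤ lo M`, use the induction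
hypothesis with `B' = lo M`). -/
def S_Ors : Prop := ∀ (n m : ℕ) (P : ℕ → ℕ → Prop) (lo hi : ℕ → ℕ → ℝ) (B p : ℝ), 0 < p → 0 ≤ B →
  (∀ t r, t < n → r < m → P t r → 0 ≤ lo t r ∧ lo t r ≤ hi t r ∧ hi t r ≤ B) →
  (∀ t r t' r', t < n → r < m → t' < n → r' < m → P t r → P t' r' →
    (t < t' ∨ (t = t' ∧ r < r')) → hi t r ≤ lo t' r') →
  ∑ t ∈ range n, ∑ r ∈ range m,
    (if P t r then Real.log (hi t r + p) - Real.log (lo t r + p) else 0) ≤ Real.log ((B + p) / p)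

open Classical in
/-- One edge, one label. PROOF. `S_Ors` with `P t r = (i ≤ v t ∧ f t r i = j ∧ f (t+1) r i = j + 1)`,
`lo = cl` at `x r`, `hi = cl` at `x (r+1)`. `0 ≤ lo`, `hi ≤ B`: `S_Nn`. `lo ≤ hi`: `S_OrA` with the same
step. Order: `t = t'`: `x (r+1) ≤ x r'`, `S_OrA`; `t < t'`: `S_OrA` if `x (r+1) ≤ x r'`, else `S_OrB`
(`zt (t')  ≤ zt (t+1) = dec (zt t) (v t)`). `B ≥ 0` since `m > 0` (`x 0 ≠ x m`) and `sm ≥ 0`. -/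
def S_Lab : Prop := ∀ (N n m : ℕ) (w : ℕ → ℝ) (c : ℕ → ℤ) (v : ℕ → ℕ) (x : ℕ → ℝ)
  (f : ℕ → ℕ → ℕ → ℤ) (B p : ℝ) (i : ℕ) (j : ℤ), Run N n m w c v x f → 0 < p → 1 ≤ i → i ≤ N →
  (∀ t r, t ≤ n → r < m → ∀ θ, x r ≤ θ → θ ≤ x (r + 1) → sm w θ 1 (N + 1) (f t r) ≤ B) →
  ∑ t ∈ range n, ∑ r ∈ range m, (if i ≤ v t ∧ f t r i = j ∧ f (t + 1) r i = j + 1 then
    Real.log (cl w i (f t r) (f (t + 1) r) (x (r + 1)) + p) -
      Real.log (cl w i (f t r) (f (t + 1) r) (x r) + p) else 0) ≤ Real.log ((B + p) / p)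

/-- One edge. PROOF. `wl` is the sum over the labels `j ∈ Ico (-mx) mx` of the terms of `S_Lab`
(if `g i = f i + 1` then `j = f i` satisfies `-mx ≤ j`, `j + 1 = g i ≤ mx`); exchange the sums. -/
def S_Edg : Prop := ∀ (N n m : ℕ) (w : ℕ → ℝ) (c : ℕ → ℤ) (v : ℕ → ℕ) (x : ℕ → ℝ)
  (f : ℕ → ℕ → ℕ → ℤ) (B p : ℝ) (i : ℕ), Run N n m w c v x f → 0 < p → 1 ≤ i → i ≤ N →
  (∀ t r, t ≤ n → r < m → ∀ θ, x r ≤ θ → θ ≤ x (r + 1) → sm w θ 1 (N + 1) (f t r) ≤ B) →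
  ∑ t ∈ range n, ∑ r ∈ range m, wl w p i (v t) (f t r) (f (t + 1) r) (x r) (x (r + 1)) ≤
    2 * (mx n m f i : ℝ) * Real.log ((B + p) / p)

/-- All left crossings. PROOF: `S_Edg` and `S_Fst`. -/
def S_Tot : Prop := ∀ (N n m : ℕ) (w : ℕ → ℝ) (c : ℕ → ℤ) (v : ℕ → ℕ) (x : ℕ → ℝ)
  (f : ℕ → ℕ → ℕ → ℤ) (S : ℕ → ℤ) (B p O : ℝ), Run N n m w c v x f → 0 < p → 0 ≤ B →
  Fz N (zt c v n) S → ∑ k ∈ Icc 1 N, w k * |(S k : ℝ)| ≤ O →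
  (∀ t r, t ≤ n → r < m → ∀ θ, x r ≤ θ → θ ≤ x (r + 1) → sm w θ 1 (N + 1) (f t r) ≤ B) →
  ∑ i ∈ Icc 1 N, w i * ∑ t ∈ range n, ∑ r ∈ range m,
    wl w p i (v t) (f t r) (f (t + 1) r) (x r) (x (r + 1)) ≤ 26 * Real.log ((B + p) / p) * O

/-- Reflection of one optimal flow: `k ↦ N + 1 - k` on edges, `k ↦ N - k` on nodes, `f ↦ -f`,
`θ ↦ -θ`. PROOF: direct (`f (k+1) - f k` at the node `k ≤ N` becomes the increment at `N - k`). -/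
def S_RfO : Prop := ∀ (N : ℕ) (w : ℕ → ℝ) (z z1 : ℕ → ℤ) (θ : ℝ) (f : ℕ → ℤ),
  (∀ k, k ≤ N → z1 k = z (N - k)) →
  (Fz N z f → Fz N z1 (fun k => -f (N + 1 - k))) ∧
  sm (fun k => w (N + 1 - k)) (-θ) 1 (N + 1) (fun k => -f (N + 1 - k)) = sm w θ 1 (N + 1) f ∧
  (Opt N w z θ f → Opt N (fun k => w (N + 1 - k)) z1 (-θ) (fun k => -f (N + 1 - k)))

/-- Reflection of the whole run. PROOF: `S_RfO`; `zt` of the reflected data at the node `k ≤ N` is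
`zt c v t (N - k)` for `t ≤ n` (all `v a ≤ N`); `pth (v t) s` becomes `pth (N - v t) (N - s)`. -/
def S_Rfl : Prop := ∀ (N n m : ℕ) (w : ℕ → ℝ) (c : ℕ → ℤ) (v : ℕ → ℕ) (x : ℕ → ℝ)
  (f : ℕ → ℕ → ℕ → ℤ), Run N n m w c v x f →
  Run N n m (fun k => w (N + 1 - k)) (fun k => c (N - k)) (fun t => N - v t)
    (fun r => -x (m - r)) (fun t r k => -f t (m - 1 - r) (N + 1 - k))

/-- Right crossings are the left crossings of the reflected run. PROOF: direct. -/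
def S_RfW : Prop := ∀ (N : ℕ) (w : ℕ → ℝ) (p : ℝ) (i v : ℕ) (f g : ℕ → ℤ) (a b : ℝ),
  1 ≤ i → i ≤ N → v ≤ N →
  wr N w p i v f g a b = wl (fun k => w (N + 1 - k)) p (N + 1 - i) (N - v)
    (fun k => -f (N + 1 - k)) (fun k => -g (N + 1 - k)) (-b) (-a)

/-- All right crossings. PROOF: `S_Tot` for the reflected run (`S_Rfl`, `S_RfW`, `S_RfO`), with
`S` reflected; reindex `i ↦ N + 1 - i` and `r ↦ m - 1 - r`. -/
def S_TotR : Prop := ∀ (N n m : ℕ) (w : ℕ → ℝ) (c : ℕ → ℤ) (v : ℕ → ℕ) (x : ℕ → ℝ)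
  (f : ℕ → ℕ → ℕ → ℤ) (S : ℕ → ℤ) (B p O : ℝ), Run N n m w c v x f → 0 < p → 0 ≤ B →
  Fz N (zt c v n) S → ∑ k ∈ Icc 1 N, w k * |(S k : ℝ)| ≤ O →
  (∀ t r, t ≤ n → r < m → ∀ θ, x r ≤ θ → θ ≤ x (r + 1) → sm w θ 1 (N + 1) (f t r) ≤ B) →
  ∑ i ∈ Icc 1 N, w i * ∑ t ∈ range n, ∑ r ∈ range m,
    wr N w p i (v t) (f t r) (f (t + 1) r) (x r) (x (r + 1)) ≤ 26 * Real.log ((B + p) / p) * O

/-- PROOF: the derivative of `log (A + l θ + p)`. -/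
def S_Int : Prop := ∀ (A l p a b : ℝ), 0 < p → 0 ≤ l → a ≤ b → 0 ≤ A + l * a →
  IntervalIntegrable (fun θ => l / (A + l * θ + p)) MeasureTheory.volume a b ∧
  ∫ θ in a..b, l / (A + l * θ + p) = Real.log (A + l * b + p) - Real.log (A + l * a + p)

/-- One path. PROOF. `U = ∑ W D`, `a = ∑ W`, `α = U + p ≥ p`, `a ≥ R α ≥ 4 α`;
`y i = ∑ k ∈ Ico i M, W k`, `c i = ∑ k < i, W k D k ≤ U + (4/3) y i`. `G y = log (α + (4/3) min y (a/2))`.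
Claim `W i ℓ i / (c i + p) ≥ (a/4) (9/28) (G (y i) - G (y (i+1)))`: if `y (i+1) ≥ a/2` the right side is
`0`. Else `ℓ i = a - y (i+1) - W i ≥ a/2 - α ≥ a/4`, and
`G (y i) - G (y (i+1)) ≤ log (α + (4/3) y i) - log (α + (4/3) y (i+1)) ≤ (4/3) W i / (α + (4/3) y (i+1))
≤ (28/9) W i / (α + (4/3) y i) ≤ (28/9) W i / (c i + p)` (as `W i ≤ p ≤ α`). Telescope:
the sum is `≥ (9/112) a (log (α + (2/3) a) - log α) ≥ (9/112) a log (1 + 2R/3)`, and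
`(1 + 2R/3)^2 ≥ R`, so `log (1 + 2R/3) ≥ (1/2) log R` and `9/224 ≥ 1/25`. -/
def S_Pth : Prop := ∀ (M : ℕ) (W D : ℕ → ℝ) (p R : ℝ), 0 < p → 4 ≤ R →
  (∀ k, k < M → 0 ≤ W k ∧ W k ≤ p ∧ |D k| ≤ 4 / 3) →
  (∀ i, i ≤ M → 0 ≤ ∑ k ∈ range i, W k * D k) →
  R * (∑ k ∈ range M, W k * D k + p) ≤ ∑ k ∈ range M, W k →
  (∑ k ∈ range M, W k) / 25 * Real.log R ≤
    ∑ i ∈ range M, W i * (∑ k ∈ range i, W k) / (∑ k ∈ range i, W k * D k + p)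

/-- One step on one piece, to the left. PROOF. `s = v`: the left side is `0`. `s < v`:
`M = v - s`, `W k = w (s+1+k)`, `D k = |f (s+1+k) + 1| - |f (s+1+k)| + θ` (`= d k + θ`, `d k ∈ {1,-1}`);
`c i (θ) = ∑_{k<i} W k D k = A i + ℓ i θ = cl w (s+1+i) f g θ ≥ 0` (`S_Nn`; for `i = M`: `c M = U(θ) =
sm g - sm f ≥ 0` as `Fz (dec z v) ⊆ Fz z`). For every `θ ∈ [a,b]`: `ℓ M ≤ R (U + p)`, or `S_Pth`; so
`ℓ M ≤ R (U(θ) + p) + (25 / log R) ∑_i W i ℓ i / (c i (θ) + p)`. Integrate over `[a,b]`: `U` is affine, so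
its integral is `(b-a) U((a+b)/2)`; `S_Int` for the second part. -/
def S_PcL : Prop := ∀ (N : ℕ) (w : ℕ → ℝ) (z : ℕ → ℤ) (v s : ℕ) (f g : ℕ → ℤ) (p R a b : ℝ),
  (∀ k, 0 ≤ w k) → (∀ k, w k ≤ p) → 0 < p → 4 ≤ R → v ≤ N → s ≤ v →
  -(1 / 3) ≤ a → a ≤ b → b ≤ 1 / 3 → (∀ θ, a ≤ θ → θ ≤ b → Opt N w z θ f) →
  (∀ θ, a ≤ θ → θ ≤ b → Opt N w (dec z v) θ g) → g = pth v s f →
  (b - a) * ∑ k ∈ Icc 1 N, w k * |(g k : ℝ) - (f k : ℝ)| ≤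
    R * ((b - a) * (sm w ((a + b) / 2) 1 (N + 1) g - sm w ((a + b) / 2) 1 (N + 1) f + p)) +
    25 / Real.log R * ∑ i ∈ Icc 1 N, w i * wl w p i v f g a b

/-- The same to the right. PROOF: reflect (`S_RfO`, `S_RfW`, `pth (N-v) (N-s)` of the reflected flow)
and use `S_PcL` on `[-b, -a]`. -/
def S_PcR : Prop := ∀ (N : ℕ) (w : ℕ → ℝ) (z : ℕ → ℤ) (v s : ℕ) (f g : ℕ → ℤ) (p R a b : ℝ),
  (∀ k, 0 ≤ w k) → (∀ k, w k ≤ p) → 0 < p → 4 ≤ R → v ≤ N → v ≤ s → s ≤ N →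
  -(1 / 3) ≤ a → a ≤ b → b ≤ 1 / 3 → (∀ θ, a ≤ θ → θ ≤ b → Opt N w z θ f) →
  (∀ θ, a ≤ θ → θ ≤ b → Opt N w (dec z v) θ g) → g = pth v s f →
  (b - a) * ∑ k ∈ Icc 1 N, w k * |(g k : ℝ) - (f k : ℝ)| ≤
    R * ((b - a) * (sm w ((a + b) / 2) 1 (N + 1) g - sm w ((a + b) / 2) 1 (N + 1) f + p)) +
    25 / Real.log R * ∑ i ∈ Icc 1 N, w i * wr N w p i v f g a b

/-- PROOF. `y = log n > 1`. `log R ≥ log 4` and `log R ≥ (1/2) log y`; `log (1 + 4n/3) ≤ log (5n/3) ≤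
1.5 y`; so the second term is `≤ 3900 y / log y`. `y / log y ≥ 1`, `y / log y ≥ √y` (`log y ≤ √y`), so the
first term is `≤ (14/9) * 5 * y / log y`. -/
def S_Num : Prop := ∀ (n : ℕ), 3 ≤ n →
  4 ≤ 4 + Real.sqrt (Real.log n) ∧ 0 < Real.log (Real.log n) ∧
  14 / 9 * (4 + Real.sqrt (Real.log n)) +
    1300 * Real.log (1 + 4 * (n : ℝ) / 3) / Real.log (4 + Real.sqrt (Real.log n)) ≤
    16000 / 3 * (Real.log n / Real.log (Real.log n))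

/-- The main inequality. PROOF. `p = O / n`, `B = (4/3) O`, `K = log ((B+p)/p) = log (1 + 4n/3)`.
`sm θ (f t r) ≤ sm θ S ≤ (4/3) ∑ w |S| ≤ B` (`zt n ≤ zt t`). Sum `S_PcL`, `S_PcR` over `t < n`, `r < m`
(`Run.step` gives `s`; the other of `wl`, `wr` is nonnegative: `wl`, `wr ≥ 0` in every step, since
`lo ≤ hi` by `S_OrA` (for `wr` by reflection); or only use the one which belongs to the step and
bound the sum of `w i * wl` over the left steps by the total, needing `wl ≥ 0`): the terms with `U`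
telescope over `t` to `(x (r+1) - x r) (sm (f n r) - 0) ≤ (x (r+1) - x r) B`, plus `n p = O`; the sum of
the lengths is `2/3`: `(2/3) R (4/3 + 1) O = (14/9) R O`. The crossings: `S_Tot`, `S_TotR`:
`(25 / log R) (26 + 26) K O = 1300 K O / log R`. Then `S_Num` with `R = 4 + √(log n)`. -/
def S_Main : Prop := ∀ (N n m : ℕ) (w : ℕ → ℝ) (c : ℕ → ℤ) (v : ℕ → ℕ) (x : ℕ → ℝ)
  (f : ℕ → ℕ → ℕ → ℤ) (S : ℕ → ℤ) (O : ℝ), Run N n m w c v x f → 3 ≤ n → 0 < O →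
  (∀ k, w k ≤ O / n) → Fz N (zt c v n) S → ∑ k ∈ Icc 1 N, w k * |(S k : ℝ)| ≤ O →
  ∑ r ∈ range m, (x (r + 1) - x r) *
    ∑ t ∈ range n, ∑ k ∈ Icc 1 N, w k * |(f (t + 1) r k : ℝ) - (f t r k : ℝ)| ≤
    16000 / 3 * (Real.log n / Real.log (Real.log n)) * O

/-- The weights are nonnegative. PROOF. `wl`: `cl` at `a` is `≤ cl` at `b` by `S_OrA` with the same step
(`z' = z`, `f' = f`, `g' = g`), and `0 ≤ cl` by `S_Nn`; `wr`: by reflection (`S_RfO`, `S_RfW`). -/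
def S_Wn : Prop := ∀ (N : ℕ) (w : ℕ → ℝ) (z : ℕ → ℤ) (v i : ℕ) (f g : ℕ → ℤ) (p a b : ℝ),
  (∀ k, 0 ≤ w k) → 0 < p → v ≤ N → 1 ≤ i → i ≤ N → a ≤ b →
  (∀ θ, a ≤ θ → θ ≤ b → Opt N w z θ f) → (∀ θ, a ≤ θ → θ ≤ b → Opt N w (dec z v) θ g) →
  0 ≤ wl w p i v f g a b ∧ 0 ≤ wr N w p i v f g a b

end Pool.Agent.MP_a4c1f4_lc.LM
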