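import Mathlib
import Pool.Agent.Lib.MP_a4c1f4_lc.Dbl.LDefs
import Pool.Agent.Lib.MP_a4c1f4_lc.LM.Defs

set_option autoImplicit false
set_option linter.all false

/-!
Online matching on the line: the rule with the tilt `θ`, and the chain of nodes. Lists of requests
are written with the most recent request first.
-/

namespace Pool.Agent.MP_a4c1f4_lc.LM

open Finset MeasureTheory

open Classical in
/-- Number of used sites at most `y`, minus the number of requests at most `y`. -/
noncomputable def dv {m : ℕ} (s : Fin m → ℝ) (u : List (Fin m)) (l : List ℝ) (y : ℝ) : ℝ :=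
  (u.map (fun j => if s j ≤ y then (1 : ℝ) else 0)).sum -
    (l.map (fun x => if x ≤ y then (1 : ℝ) else 0)).sum

/-- The tilted cost of matching the requests `l` to the used sites `u`. -/
noncomputable def Ph {m : ℕ} (s : Fin m → ℝ) (θ : ℝ) (u : List (Fin m)) (l : List ℝ) : ℝ :=
  (∫ y, |dv s u l y|) + θ * ∫ y, dv s u l y

/-- `j` is a free site with the least tilted cost. -/
def best {m : ℕ} (s : Fin m → ℝ) (cap : Fin m → ℕ) (θ : ℝ) (u : List (Fin m)) (l : List ℝ)
    (x : ℝ) (j : Fin m) : Prop :=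
  u.count j < cap j ∧
    ∀ i, u.count i < cap i → Ph s θ (j :: u) (x :: l) ≤ Ph s θ (i :: u) (x :: l)

open Classical in
/-- The first free site with the least tilted cost. -/
noncomputable def pick {m : ℕ} (hm : 0 < m) (s : Fin m → ℝ) (cap : Fin m → ℕ) (θ : ℝ)
    (u : List (Fin m)) (l : List ℝ) (x : ℝ) : Fin m :=
  if h : (univ.filter (fun j => best s cap θ u l x j)).Nonempty then
    (univ.filter (fun j => best s cap θ u l x j)).min' h else ⟨0, hm⟩

/-- The list of the used sites after the requests `l`. -/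
noncomputable def run {m : ℕ} (hm : 0 < m) (s : Fin m → ℝ) (cap : Fin m → ℕ) (θ : ℝ) :
    List ℝ → List (Fin m)
  | [] => []
  | x :: l => pick hm s cap θ (run hm s cap θ l) l x :: run hm s cap θ l

/-- The online rule with the tilt `θ`. -/
noncomputable def rule {m : ℕ} (hm : 0 < m) (s : Fin m → ℝ) (cap : Fin m → ℕ) (θ : ℝ) (x : ℝ)
    (l : List ℝ) : Fin m := pick hm s cap θ (run hm s cap θ l) l x

/-- The uniform probability on `[-1/3, 1/3]`. -/
noncomputable def tilt : Measure ℝ :=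
  (3 / 2 : ENNReal) • (volume.restrict (Set.Icc (-(1 / 3) : ℝ) (1 / 3)))

/-- A chain of nodes `p 0 < p 1 < ...` such that all sites and all requests of `L` are among
`p 0, ..., p N`. -/
structure Chain {m : ℕ} (s : Fin m → ℝ) (L : List ℝ) (N : ℕ) (p : ℕ → ℝ) (σ : Fin m → ℕ)
    (nd : ℝ → ℕ) : Prop where
  mono : StrictMono p
  site : ∀ j, p (σ j) = s j ∧ σ j ≤ N
  req : ∀ x, x ∈ L → p (nd x) = x ∧ nd x ≤ N

/-- The edge lengths of the chain. -/
def wd (p : ℕ → ℝ) (k : ℕ) : ℝ := p k - p (k - 1)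

/-- The capacity of the node `k`. -/
def cn {m : ℕ} (cap σ : Fin m → ℕ) (k : ℕ) : ℤ :=
  ∑ j ∈ univ.filter (fun j => σ j = k), (cap j : ℤ)

/-- The flow of the used sites `u` and the requests `l`. -/
def fl {m : ℕ} (σ : Fin m → ℕ) (nd : ℝ → ℕ) (u : List (Fin m)) (l : List ℝ) (k : ℕ) : ℤ :=
  (u.countP (fun j => decide (σ j < k)) : ℤ) - (l.countP (fun x => decide (nd x < k)) : ℤ)

/-- The bounds after the requests `l`. -/
def zl (c : ℕ → ℤ) (nd : ℝ → ℕ) (l : List ℝ) (k : ℕ) : ℤ :=
  c k - (l.countP (fun x => decide (nd x = k)) : ℤ)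

/-- The node of the request number `t` (in the order of time) of the list `l`. -/
def vt (nd : ℝ → ℕ) (l : List ℝ) (t : ℕ) : ℕ := nd (l.getD (l.length - 1 - t) 0)

/-- The flow at time `t` if `u` is the final list of used sites. -/
def fu {m : ℕ} (σ : Fin m → ℕ) (nd : ℝ → ℕ) (u : List (Fin m)) (l : List ℝ) (t : ℕ) : ℕ → ℤ :=
  fl σ nd (u.drop (l.length - t)) (l.drop (l.length - t))

/-- The flow at time `t` on the piece `[x r, x (r + 1)]`. -/
noncomputable def ft {m : ℕ} (hm : 0 < m) (s : Fin m → ℝ) (cap : Fin m → ℕ) (σ : Fin m → ℕ)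
    (nd : ℝ → ℕ) (l : List ℝ) (x : ℕ → ℝ) (t r : ℕ) : ℕ → ℤ :=
  fu σ nd (run hm s cap ((x r + x (r + 1)) / 2) l) l t

end Pool.Agent.MP_a4c1f4_lc.LM
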