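import Mathlib
import Pool.Agent.Lib.MP_a4c1f4_lc.Dbl.LDefs
import Pool.Agent.Lib.MP_a4c1f4_lc.LM.Defs
import Pool.Agent.Lib.MP_a4c1f4_lc.LM.Spec
import Pool.Agent.Lib.MP_a4c1f4_lc.LM.LineDefs

set_option autoImplicit false
set_option linter.all false

/-!
Online matching on the line: from the chain model to the real line, statements with their proofs in
words.
-/

namespace Pool.Agent.MP_a4c1f4_lc.LM

open Finset MeasureTheory
open Pool.Agent.MP_a4c1f4_lc.Dbl.L (assigned cost Respects)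

/-- A fine chain. PROOF. For a nonempty finite set `X` of reals (all `s j`, all elements of `L`, and
`0`), by induction on the largest element (`Finset.induction_on_max`): there are `p`, `N` with `p`
strictly monotone, `p (k+1) - p k ≤ η`, every element of `X` is some `p k`, `k ≤ N`, and `p N = max X`.
`{y}`: `p k = y + k η`, `N = 0`. New largest element `y`: `M = ⌈(y - p' N')/η⌉₊ ≥ 1`,
`δ = (y - p' N')/M ≤ η`, `p k = p' k` for `k ≤ N'`, `p' N' + (k - N') δ` for `k ≥ N'`, `N = N' + M`.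
`σ`, `nd` by choice. `wd p 0 = 0`. -/
def T_Msh : Prop := ∀ (m : ℕ) (s : Fin m → ℝ) (L : List ℝ) (η : ℝ), 0 < η →
  ∃ (N : ℕ) (p : ℕ → ℝ) (σ : Fin m → ℕ) (nd : ℝ → ℕ), Chain s L N p σ nd ∧ ∀ k, wd p k ≤ η

/-- Elementary facts on the flows. PROOF. (1) - (3): definitions, case distinctions. (4):
`fl (k+1) - fl k = #(j ∈ u, σ j = k) - #(x ∈ l, nd x = k)` and `#(j ∈ u, σ j = k) = ∑_{σ j = k} u.count j
≤ cn k`; beyond `N`: `u.length - l.length = 0`. (5): else `u.count j ≥ cap j` for all `j` with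
`σ j = a`, so the increment at `a` is `≥ zl a`. (6): the same sum. -/
def T_Fl : Prop :=
  (∀ (m : ℕ) (σ : Fin m → ℕ) (nd : ℝ → ℕ) (k : ℕ), fl σ nd [] [] k = 0) ∧
  (∀ (m : ℕ) (σ : Fin m → ℕ) (nd : ℝ → ℕ) (j : Fin m) (u : List (Fin m)) (x : ℝ) (l : List ℝ),
    fl σ nd (j :: u) (x :: l) = pth (nd x) (σ j) (fl σ nd u l)) ∧
  (∀ (c : ℕ → ℤ) (nd : ℝ → ℕ) (x : ℝ) (l : List ℝ), zl c nd (x :: l) = dec (zl c nd l) (nd x)) ∧
  (∀ (m N : ℕ) (cap σ : Fin m → ℕ) (nd : ℝ → ℕ) (u : List (Fin m)) (l : List ℝ), Respects cap u →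
    u.length = l.length → (∀ j, σ j ≤ N) → (∀ x, x ∈ l → nd x ≤ N) →
    Fz N (zl (cn cap σ) nd l) (fl σ nd u l)) ∧
  (∀ (m : ℕ) (cap σ : Fin m → ℕ) (nd : ℝ → ℕ) (u : List (Fin m)) (l : List ℝ) (a : ℕ),
    fl σ nd u l (a + 1) - fl σ nd u l a + 1 ≤ zl (cn cap σ) nd l a →
    ∃ j, σ j = a ∧ u.count j < cap j) ∧
  (∀ (m : ℕ) (cap σ : Fin m → ℕ) (nd : ℝ → ℕ) (u : List (Fin m)) (l : List ℝ) (j : Fin m),
    Respects cap u → u.count j < cap j →
    fl σ nd u l (σ j + 1) - fl σ nd u l (σ j) + 1 ≤ zl (cn cap σ) nd l (σ j))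

/-- The integral as a sum. PROOF. For every `G : ℝ → ℝ` with `G 0 = 0`:
`G (dv y) = ∑ k ∈ Icc 1 N, indicator (Ico (p (k-1)) (p k)) (G (fl k)) y`: for `p (k-1) ≤ y < p k`,
`s j ≤ y ↔ σ j < k` and `x ≤ y ↔ nd x < k`; for `y < p 0` nothing is `≤ y`; for `y ≥ p N` everything is
`≤ y`, `dv = u.length - l.length = 0`. Integrate (`integral_finset_sum`), with `G = |.|` and `G = id`. -/
def T_Br : Prop := ∀ (m : ℕ) (s : Fin m → ℝ) (L : List ℝ) (N : ℕ) (p : ℕ → ℝ) (σ : Fin m → ℕ)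
  (nd : ℝ → ℕ) (θ : ℝ) (u : List (Fin m)) (l : List ℝ), Chain s L N p σ nd → (∀ x, x ∈ l → x ∈ L) →
  u.length = l.length → Ph s θ u l = sm (wd p) θ 1 (N + 1) (fl σ nd u l)

/-- The length of a path. PROOF: the difference is `± 1` exactly on the edges between `v` and `a`;
telescoping. -/
def T_Dst : Prop := ∀ (N : ℕ) (p : ℕ → ℝ) (v a : ℕ) (f : ℕ → ℤ), StrictMono p → v ≤ N → a ≤ N →
  ∑ k ∈ Icc 1 N, wd p k * |(pth v a f k : ℝ) - (f k : ℝ)| = |p v - p a|

/-- The rule respects the capacities; its list of used sites. PROOF. `assigned (rule θ) l = run θ l`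
by induction. If `u` respects the capacities and `u.length < ∑ cap` then some site is free
(`∑ j, u.count j = u.length`), then `best` holds for some `j` (`Finset.exists_min_image` over the
free sites), so `pick` is free. -/
def T_Cap : Prop := ∀ (m : ℕ) (hm : 0 < m) (s : Fin m → ℝ) (cap : Fin m → ℕ) (θ : ℝ) (l : List ℝ),
  assigned (rule hm s cap θ) l = run hm s cap θ l ∧ (run hm s cap θ l).length = l.length ∧
  (∀ k, run hm s cap θ (l.drop k) = (run hm s cap θ l).drop k) ∧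
  (l.length ≤ ∑ j, cap j → Respects cap (run hm s cap θ l)) ∧
  (∀ x, l.length < ∑ j, cap j → best s cap θ (run hm s cap θ l) l x
    (pick hm s cap θ (run hm s cap θ l) l x))

/-- The rule keeps the flow optimal. PROOF. Induction on `l`. `l = []`: the flow is `0`, in `Fz`
since `cn ≥ 0`; `sm ≥ 0` for `|θ| ≤ 1`. `x :: l`: `z = zl l`, `v = nd x`, `f = fl (run l) l` is optimal.
`j0 = pick` is free and satisfies `best` (`T_Cap`); `pth v (σ j0) f ∈ Fz (dec z v)` (`S_Pm`, slack by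
`T_Fl` (6)). For `g ∈ Fz (dec z v)`: `S_Stp` gives a node `a` with slack and `sm (pth v a f) ≤ sm g`;
by `T_Fl` (5) there is a free site `j` at `a`; `best` and `T_Br`, `T_Fl` (2):
`sm (pth v (σ j0) f) ≤ sm (pth v (σ j) f) ≤ sm g`. -/
def T_Gr : Prop := ∀ (m : ℕ) (hm : 0 < m) (s : Fin m → ℝ) (cap : Fin m → ℕ) (L : List ℝ) (N : ℕ)
  (p : ℕ → ℝ) (σ : Fin m → ℕ) (nd : ℝ → ℕ) (θ : ℝ) (l : List ℝ), Chain s L N p σ nd → |θ| ≤ 1 →
  (∀ x, x ∈ l → x ∈ L) → l.length ≤ ∑ j, cap j →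
  Opt N (wd p) (zl (cn cap σ) nd l) θ (fl σ nd (run hm s cap θ l) l)

/-- The cost of an assignment is at least the norm of its flow. PROOF. Induction on the lists:
`|fl (j :: τ) (x :: l) k| ≤ |fl τ l k| + |pth (nd x) (σ j) (fl τ l) k - fl τ l k|`, and `T_Dst`
(`dist x (s j) = |p (nd x) - p (σ j)|`). -/
def T_Opt : Prop := ∀ (m : ℕ) (s : Fin m → ℝ) (L : List ℝ) (N : ℕ) (p : ℕ → ℝ) (σ : Fin m → ℕ)
  (nd : ℝ → ℕ) (τ : List (Fin m)) (l : List ℝ), Chain s L N p σ nd → (∀ x, x ∈ l → x ∈ L) →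
  τ.length = l.length → ∑ k ∈ Icc 1 N, wd p k * |(fl σ nd τ l k : ℝ)| ≤ cost s l τ

/-- The cost as the sum over the steps. PROOF. Induction on the lists (`u = j :: u'`, `l = x :: l'`,
`n = n' + 1`): for `t ≤ n'` the flows `fu` are those of `u'`, `l'` (`drop (n' + 1 - t)` of a cons), the
last step `t = n'` contributes `dist x (s j)` by `T_Fl` (2) and `T_Dst`. -/
def T_Cst : Prop := ∀ (m : ℕ) (s : Fin m → ℝ) (L : List ℝ) (N : ℕ) (p : ℕ → ℝ) (σ : Fin m → ℕ)
  (nd : ℝ → ℕ) (u : List (Fin m)) (l : List ℝ), Chain s L N p σ nd → (∀ x, x ∈ l → x ∈ L) →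
  u.length = l.length →
  cost s l u = ∑ t ∈ range l.length, ∑ k ∈ Icc 1 N,
    wd p k * |(fu σ nd u l (t + 1) k : ℝ) - (fu σ nd u l t k : ℝ)|

/-- Finitely many pieces. PROOF. For fixed `u`, `l`, `x` the value `Ph s θ (j :: u) (x :: l)` is affine in
`θ`; for two sites `i`, `j` the comparison `α i + β i θ ≤ α j + β j θ` can change only at
`θ = (α j - α i)/(β i - β j)` (if `β i ≠ β j`); let `X (u, l, x)` be the finite set of these points: if no
point of it is in `[θ, θ']`, then `best`, hence `pick`, is the same for `θ` and `θ'`. Induction on `l`: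
`X` for `x :: l` is `X` for `l` together with all `X (u, l, x)`, `u` a list of length `l.length`
(`List.finite_length_eq`). -/
def T_Pcs : Prop := ∀ (m : ℕ) (hm : 0 < m) (s : Fin m → ℝ) (cap : Fin m → ℕ) (l : List ℝ),
  ∃ X : Finset ℝ, ∀ θ θ' : ℝ, θ ≤ θ' → (∀ y, y ∈ X → y < θ ∨ θ' < y) →
    run hm s cap θ l = run hm s cap θ' l

/-- Enumeration of a finite set. PROOF: induction on `X` (insert one point into the piece which
contains it in its interior, if any), or `Finset.orderEmbOfFin`. -/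
def T_En : Prop := ∀ (X : Finset ℝ) (a b : ℝ), a < b → ∃ (q : ℕ) (x : ℕ → ℝ), 0 < q ∧ x 0 = a ∧
  x q = b ∧ (∀ r, r < q → x r < x (r + 1)) ∧ ∀ r, r < q → ∀ y, y ∈ X → y ≤ x r ∨ x (r + 1) ≤ y

/-- The integral of a function which is constant on open pieces, and the total mass. PROOF.
`intervalIntegral.sum_integral_adjacent_intervals`; on one piece the function is almost
everywhere equal to the constant. -/
def T_PI : Prop := IsProbabilityMeasure tilt ∧
  ∀ (q : ℕ) (x : ℕ → ℝ) (F : ℝ → ℝ) (V : ℕ → ℝ), x 0 = -(1 / 3) → x q = 1 / 3 →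
  (∀ r, r < q → x r < x (r + 1)) → (∀ r, r < q → ∀ θ, x r < θ → θ < x (r + 1) → F θ = V r) →
  ∫ θ, F θ ∂tilt = 3 / 2 * ∑ r ∈ range q, (x (r + 1) - x r) * V r

/-- Measurability. PROOF. For fixed `u`, `l`, `x`, `i`, `j` the set of `θ` with
`Ph s θ (j :: u) (x :: l) ≤ Ph s θ (i :: u) (x :: l)` is closed (affine functions of `θ`), so
`{θ | best ... j}` and `{θ | pick hm s cap θ u l x = j}` are measurable (finite combinations). By
induction on `l`, `{θ | run hm s cap θ l = u}` is measurable for every `u`. Finally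
`{θ | rule ... = j} = ⋃ u, {run = u} ∩ {pick θ u l x = j}`, a countable union. -/
def T_Msb : Prop := ∀ (m : ℕ) (hm : 0 < m) (s : Fin m → ℝ) (cap : Fin m → ℕ) (x : ℝ) (l : List ℝ),
  Measurable (fun θ : ℝ => rule hm s cap θ x l)

/-- Optimality on the closed piece. PROOF: `sm` is affine in `θ`, limits of inequalities. -/
def T_Cl : Prop := ∀ (N : ℕ) (w : ℕ → ℝ) (z f : ℕ → ℤ) (a b : ℝ), a < b →
  (∀ θ, a < θ → θ < b → Opt N w z θ f) → ∀ θ, a ≤ θ → θ ≤ b → Opt N w z θ f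

/-- The bounds in the order of time. PROOF. Induction on `t` (`S_Zt`, `T_Fl` (3)):
`l.drop (n - (t+1)) = l[n-1-t] :: l.drop (n - t)` (`List.drop_eq_getElem_cons`). -/
def T_Zv : Prop := ∀ (c : ℕ → ℤ) (nd : ℝ → ℕ) (l : List ℝ) (t : ℕ), t ≤ l.length →
  zt c (vt nd l) t = zl c nd (l.drop (l.length - t))

/-- The data of the whole run. PROOF. `w_nonneg`: `p` is monotone. `v_le`: `Chain.req` for the element
`l[n-1-t]`. `opt`: for `θ` in the open piece, `run θ l = run θ_r l` (`θ_r` the middle), so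
`fl (run θ (l.drop ..)) (l.drop ..) = ft .. t r` (`T_Cap`), `T_Gr`, `T_Zv`; closed piece: `T_Cl`.
`step`: `T_Fl` (2) with `a = σ (the site)`, `≤ N`. `zero`: both lists are empty. -/
def T_Rd : Prop := ∀ (m : ℕ) (hm : 0 < m) (s : Fin m → ℝ) (cap : Fin m → ℕ) (l : List ℝ) (N : ℕ)
  (p : ℕ → ℝ) (σ : Fin m → ℕ) (nd : ℝ → ℕ) (q : ℕ) (x : ℕ → ℝ), Chain s l N p σ nd →
  l.length ≤ ∑ j, cap j → x 0 = -(1 / 3) → x q = 1 / 3 → (∀ r, r < q → x r < x (r + 1)) →
  (∀ r, r < q → ∀ θ θ', x r < θ → θ < x (r + 1) → x r < θ' → θ' < x (r + 1) →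
    run hm s cap θ l = run hm s cap θ' l) →
  Run N l.length q (wd p) (cn cap σ) (vt nd l) x (ft hm s cap σ nd l x)

/-- The theorem. PROOF. `Ω = ℝ`, `μ = tilt`, `A θ = rule hm s cap θ`: `T_PI`, `T_Msb`, `T_Cap`. Let `l`, `τ` be
given, `n = l.length ≥ 3`; `n = τ.length ≤ ∑ cap`. For `ε > 0` put `O = cost s l τ + ε > 0`. `T_Msh` with
`L = l`, `η = O / n`; `T_Pcs`, `T_En` (`a = -1/3`, `b = 1/3`): on every open piece `run θ l` is constant.
`T_Rd`, `T_Zv` (`t = n`: `drop 0`), `T_Fl` (4) and `T_Opt` for `S = fl σ nd τ l`; `S_Main`; `T_Cst` for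
`u = run θ_r l`; `T_PI` with `V r = cost s l (run θ_r l)`: the integral is at most
`(3/2) (16000/3) (log n / log log n) O`. Let `ε → 0`. -/
def T_Top : Prop := ∀ (m : ℕ) (hm : 0 < m) (s : Fin m → ℝ) (cap : Fin m → ℕ),
  ∃ (Ω : Type) (_ : MeasurableSpace Ω) (μ : Measure Ω) (_ : IsProbabilityMeasure μ)
    (A : Ω → ℝ → List ℝ → Fin m),
    (∀ x l, Measurable (fun ω => A ω x l)) ∧
    (∀ ω l, l.length ≤ ∑ j, cap j → Respects cap (assigned (A ω) l)) ∧
    ∀ (l : List ℝ) (τ : List (Fin m)), 3 ≤ l.length → τ.length = l.length → Respects cap τ →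
      ∫ ω, cost s l (assigned (A ω) l) ∂μ ≤
        8000 * (Real.log l.length / Real.log (Real.log l.length)) * cost s l τ

end Pool.Agent.MP_a4c1f4_lc.LM
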