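import Pool.Agent.Lib.MP_a4c1f4_lc.LM.SpecL

set_option autoImplicit false

/-!
Online matching on the line: the tilted cost as an integral and as a sum over the edges.
-/

namespace Pool.Agent.MP_a4c1f4_lc.LM

open Finset MeasureTheory

namespace BrAux

/-- A sum of zeros and ones is a count. -/
lemma sum_cnt {α : Type*} (P : α → Prop) [DecidablePred P] (Q : α → Prop) [DecidablePred Q] :
    ∀ (u : List α), (∀ j ∈ u, (P j ↔ Q j)) →
      (u.map (fun j => if P j then (1 : ℝ) else 0)).sum = ((u.countP (fun j => decide (Q j)) : ℕ) : ℝ)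
  | [], _ => by simp
  | a :: u, h => by
    have h1 := sum_cnt P Q u (fun j hj => h j (List.mem_cons_of_mem _ hj))
    have h2 := h a List.mem_cons_self
    rw [List.map_cons, List.sum_cons, h1, List.countP_cons]
    by_cases hq : Q a
    · have hp := h2.2 hq
      simp only [hp, if_true, hq, decide_true]
      push_cast
      ring
    · have hp : ¬ P a := fun hp => hq (h2.1 hp)
      simp only [hp, if_false, hq, decide_false]
      push_cast
      simp

variable {m : ℕ} {s : Fin m → ℝ} {L : List ℝ} {N : ℕ} {p : ℕ → ℝ} {σ : Fin m → ℕ} {nd : ℝ → ℕ}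

/-- The value inside the edge `k`. -/
lemma dv_in (hC : Chain s L N p σ nd) (u : List (Fin m)) (l : List ℝ) (hl : ∀ x, x ∈ l → x ∈ L)
    (k : ℕ) (hk : 1 ≤ k) (y : ℝ) (h1 : p (k - 1) ≤ y) (h2 : y < p k) :
    dv s u l y = (fl σ nd u l k : ℝ) := by
  have key : ∀ a : ℕ, (p a ≤ y ↔ a < k) := by
    intro a
    constructor
    · intro h
      by_contra hc
      have : p k ≤ p a := hC.mono.monotone (not_lt.mp hc)
      linarith
    · intro h
      have : p a ≤ p (k - 1) := hC.mono.monotone (by omega)
      linarith
  have e1 := sum_cnt (fun j => s j ≤ y) (fun j => σ j < k) u (by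
    intro j _
    have := (hC.site j).1
    show (s j ≤ y ↔ σ j < k)
    rw [← this]
    exact key _)
  have e2 := sum_cnt (fun x : ℝ => x ≤ y) (fun x => nd x < k) l (by
    intro x hx
    have := (hC.req x (hl x hx)).1
    show (x ≤ y ↔ nd x < k)
    constructor
    · intro h
      rw [← this] at h
      exact (key _).1 h
    · intro h
      rw [← this]
      exact (key _).2 h)
  unfold dv fl
  rw [e1, e2]
  push_cast
  rfl

lemma dv_lo (hC : Chain s L N p σ nd) (u : List (Fin m)) (l : List ℝ) (hl : ∀ x, x ∈ l → x ∈ L)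
    (y : ℝ) (h : y < p 0) : dv s u l y = 0 := by
  have key : ∀ a : ℕ, ¬ (p a ≤ y) := by
    intro a ha
    have : p 0 ≤ p a := hC.mono.monotone (Nat.zero_le a)
    linarith
  have e1 := sum_cnt (fun j => s j ≤ y) (fun _ => False) u (by
    intro j _
    have := (hC.site j).1
    show (s j ≤ y ↔ False)
    rw [← this]
    exact iff_false_intro (key _))
  have e2 := sum_cnt (fun x : ℝ => x ≤ y) (fun _ => False) l (by
    intro x hx
    have := (hC.req x (hl x hx)).1
    show (x ≤ y ↔ False)
    refine iff_false_intro ?_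
    intro hxy
    rw [← this] at hxy
    exact key _ hxy)
  unfold dv
  rw [e1, e2]
  simp

lemma dv_hi (hC : Chain s L N p σ nd) (u : List (Fin m)) (l : List ℝ) (hl : ∀ x, x ∈ l → x ∈ L)
    (hlen : u.length = l.length) (y : ℝ) (h : p N ≤ y) : dv s u l y = 0 := by
  have key : ∀ a : ℕ, a ≤ N → p a ≤ y := by
    intro a ha
    have : p a ≤ p N := hC.mono.monotone ha
    linarith
  have e1 := sum_cnt (fun j => s j ≤ y) (fun _ => True) u (by
    intro j _
    have := (hC.site j).1
    show (s j ≤ y ↔ True)
    rw [← this]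
    exact iff_true_intro (key _ (hC.site j).2))
  have e2 := sum_cnt (fun x : ℝ => x ≤ y) (fun _ => True) l (by
    intro x hx
    have := (hC.req x (hl x hx)).1
    show (x ≤ y ↔ True)
    refine iff_true_intro ?_
    rw [← this]
    exact key _ (hC.req x (hl x hx)).2)
  unfold dv
  rw [e1, e2]
  simp only [decide_true]
  rw [List.countP_true, List.countP_true, hlen]
  simp

lemma pt (hC : Chain s L N p σ nd) (u : List (Fin m)) (l : List ℝ) (hl : ∀ x, x ∈ l → x ∈ L)
    (hlen : u.length = l.length) (G : ℝ → ℝ) (hG : G 0 = 0) (y : ℝ) :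
    G (dv s u l y) = ∑ k ∈ Ico 1 (N + 1),
      (Set.Ico (p (k - 1)) (p k)).indicator (fun _ => G (fl σ nd u l k : ℝ)) y := by
  rcases lt_or_ge y (p 0) with h0 | h0
  · rw [dv_lo hC u l hl y h0, hG]
    symm
    apply sum_eq_zero
    intro k hk
    apply Set.indicator_of_notMem
    intro hmem
    have : p 0 ≤ p (k - 1) := hC.mono.monotone (Nat.zero_le _)
    have := hmem.1
    linarith
  rcases le_or_gt (p N) y with hN | hN
  · rw [dv_hi hC u l hl hlen y hN, hG]
    symm
    apply sum_eq_zero
    intro k hk
    apply Set.indicator_of_notMem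
    intro hmem
    rw [mem_Ico] at hk
    have : p k ≤ p N := hC.mono.monotone (by omega)
    have := hmem.2
    linarith
  · classical
    have hex : ∃ k, y < p k := ⟨N, hN⟩
    set k := Nat.find hex with hk
    have hk1 : y < p k := Nat.find_spec hex
    have hkN : k ≤ N := Nat.find_min' hex hN
    have hk0 : 1 ≤ k := by
      by_contra hc
      have : k = 0 := by omega
      rw [this] at hk1
      linarith
    have hk2 : p (k - 1) ≤ y := by
      have := Nat.find_min hex (m := k - 1) (by omega)
      exact not_lt.mp this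
    rw [sum_eq_single k]
    · rw [Set.indicator_of_mem (show y ∈ Set.Ico (p (k - 1)) (p k) from ⟨hk2, hk1⟩)]
      rw [dv_in hC u l hl k hk0 y hk2 hk1]
    · intro b hb hbk
      apply Set.indicator_of_notMem
      intro hmem
      rw [mem_Ico] at hb
      rcases lt_or_gt_of_ne hbk with h | h
      · have : p b ≤ p (k - 1) := hC.mono.monotone (by omega)
        have := hmem.2
        linarith
      · have : p k ≤ p (b - 1) := hC.mono.monotone (by omega)
        have := hmem.1
        linarith
    · intro hnot
      exact absurd (mem_Ico.2 ⟨hk0, by omega⟩) hnot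

lemma intG (hC : Chain s L N p σ nd) (u : List (Fin m)) (l : List ℝ) (hl : ∀ x, x ∈ l → x ∈ L)
    (hlen : u.length = l.length) (G : ℝ → ℝ) (hG : G 0 = 0) :
    ∫ y, G (dv s u l y) = ∑ k ∈ Ico 1 (N + 1), wd p k * G (fl σ nd u l k : ℝ) := by
  have e : (fun y => G (dv s u l y)) = fun y => ∑ k ∈ Ico 1 (N + 1),
      (Set.Ico (p (k - 1)) (p k)).indicator (fun _ => G (fl σ nd u l k : ℝ)) y := by
    funext y
    exact pt hC u l hl hlen G hG y
  rw [e, integral_finsetSum]
  · apply sum_congr rfl
    intro k hk
    rw [integral_indicator measurableSet_Ico, setIntegral_const]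
    have hle : p (k - 1) ≤ p k := hC.mono.monotone (by omega)
    rw [Measure.real, Real.volume_Ico, ENNReal.toReal_ofReal (by linarith), smul_eq_mul]
    rfl
  · intro k hk
    rw [integrable_indicator_iff measurableSet_Ico]
    apply integrableOn_const
    · rw [Real.volume_Ico]
      exact ENNReal.ofReal_ne_top
    · exact enorm_ne_top

end BrAux

open BrAux in
theorem brP : T_Br := by
  intro m s L N p σ nd θ u l hC hl hlen
  unfold Ph
  rw [intG hC u l hl hlen (fun x => |x|) (by simp), intG hC u l hl hlen (fun x => x) rfl]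
  unfold sm ps
  rw [mul_sum, ← sum_add_distrib]
  apply sum_congr rfl
  intro k _
  ring

end Pool.Agent.MP_a4c1f4_lc.LM
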