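import Pool.Agent.Lib.MP_a4c1f4_lc.LM.SpecL

set_option autoImplicit false
set_option linter.all false

/-!
Online matching on the line: the theorem, from the main inequality for the chain model.
-/

namespace Pool.Agent.MP_a4c1f4_lc.LM

open Finset MeasureTheory
open Pool.Agent.MP_a4c1f4_lc.Dbl.L (assigned cost Respects)

namespace TopAux

theorem length_eq {m : ℕ} (τ : List (Fin m)) : ∑ j, τ.count j = τ.length := by
  induction τ with
  | nil => simp
  | cons a τ ih =>
    rw [List.length_cons, ← ih]
    have h : ∀ j : Fin m, (a :: τ).count j = τ.count j + if j = a then 1 else 0 := by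
      intro j
      rw [List.count_cons]
      by_cases hj : j = a
      · simp [hj]
      · have hj' : ¬ a = j := fun h => hj h.symm
        simp [hj, hj']
    rw [Finset.sum_congr rfl fun j _ => h j, Finset.sum_add_distrib, Finset.sum_ite_eq']
    simp

theorem cost_nonneg {m : ℕ} (s : Fin m → ℝ) (l : List ℝ) (τ : List (Fin m)) :
    0 ≤ cost s l τ := by
  unfold cost
  induction l generalizing τ with
  | nil => simp
  | cons x l ih =>
    cases τ with
    | nil => simp
    | cons j τ =>
      rw [List.zipWith_cons_cons, List.sum_cons]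
      exact add_nonneg dist_nonneg (ih τ)

theorem le_lim (I K C : ℝ) (h : ∀ ε : ℝ, 0 < ε → I ≤ K * (C + ε)) : I ≤ K * C := by
  refine le_of_forall_pos_le_add fun δ hδ => ?_
  have hK : 0 < |K| + 1 := by positivity
  have h1 := h (δ / (|K| + 1)) (div_pos hδ hK)
  have h2 : K * (δ / (|K| + 1)) ≤ δ := by
    rw [mul_div_assoc', div_le_iff₀ hK]
    have h3 : K ≤ |K| + 1 := (le_abs_self K).trans (by linarith)
    nlinarith
  linarith [mul_add K C (δ / (|K| + 1))]

end TopAux

theorem topP (h1 : T_Msh) (h2 : T_Fl) (h3 : T_Cap) (h4 : T_Opt) (h5 : T_Cst) (h6 : T_Pcs)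
    (h7 : T_En) (h8 : T_PI) (h9 : T_Msb) (h10 : T_Zv) (h11 : T_Rd) (h12 : S_Main) : T_Top := by
  intro m hm s cap
  refine ⟨ℝ, _, tilt, h8.1, rule hm s cap, ?_, ?_, ?_⟩
  · intro x l
    exact h9 m hm s cap x l
  · intro θ l hl
    obtain ⟨ha, -, -, hr, -⟩ := h3 m hm s cap θ l
    rw [ha]
    exact hr hl
  · intro l τ hn hτ hR
    have hlen : l.length ≤ ∑ j, cap j := by
      rw [← hτ, ← TopAux.length_eq τ]
      exact Finset.sum_le_sum fun j _ => hR j
    refine TopAux.le_lim _ _ _ fun ε hε => ?_
    have hC : 0 ≤ cost s l τ := TopAux.cost_nonneg s l τ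
    have hO : 0 < cost s l τ + ε := by linarith
    have hn0 : (0 : ℝ) < l.length := by
      have : 0 < l.length := by omega
      exact_mod_cast this
    obtain ⟨N, p, σ, nd, hch, hw⟩ := h1 m s l ((cost s l τ + ε) / l.length) (div_pos hO hn0)
    obtain ⟨X, hX⟩ := h6 m hm s cap l
    obtain ⟨q, x, hq, hx0, hxq, hxm, hxX⟩ := h7 X (-(1 / 3)) (1 / 3) (by norm_num)
    have hc0 : ∀ r, r < q → ∀ θ θ', θ ≤ θ' → x r < θ → θ' < x (r + 1) →
        run hm s cap θ l = run hm s cap θ' l := by
      intro r hr θ θ' hle ha hb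
      refine hX θ θ' hle fun y hy => ?_
      rcases hxX r hr y hy with h | h
      · exact Or.inl (lt_of_le_of_lt h ha)
      · exact Or.inr (lt_of_lt_of_le hb h)
    have hconst : ∀ r, r < q → ∀ θ θ', x r < θ → θ < x (r + 1) → x r < θ' → θ' < x (r + 1) →
        run hm s cap θ l = run hm s cap θ' l := by
      intro r hr θ θ' ha hb ha' hb'
      rcases le_total θ θ' with h | h
      · exact hc0 r hr θ θ' h ha hb'
      · exact (hc0 r hr θ' θ h ha' hb).symm
    have hRun := h11 m hm s cap l N p σ nd q x hch hlen hx0 hxq hxm hconst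
    have hFz : Fz N (zt (cn cap σ) (vt nd l) l.length) (fl σ nd τ l) := by
      have hz := h10 (cn cap σ) nd l l.length le_rfl
      rw [Nat.sub_self, List.drop_zero] at hz
      rw [hz]
      exact h2.2.2.2.1 m N cap σ nd τ l hR hτ (fun j => (hch.site j).2)
        (fun y hy => (hch.req y hy).2)
    have hnorm : ∑ k ∈ Icc 1 N, wd p k * |(fl σ nd τ l k : ℝ)| ≤ cost s l τ + ε := by
      have := h4 m s l N p σ nd τ l hch (fun y hy => hy) hτ
      linarith
    have hmain := h12 N l.length q (wd p) (cn cap σ) (vt nd l) x (ft hm s cap σ nd l x)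
      (fl σ nd τ l) (cost s l τ + ε) hRun hn hO hw hFz hnorm
    have hcst : ∀ r, cost s l (run hm s cap ((x r + x (r + 1)) / 2) l) =
        ∑ t ∈ range l.length, ∑ k ∈ Icc 1 N, wd p k *
          |(ft hm s cap σ nd l x (t + 1) r k : ℝ) - (ft hm s cap σ nd l x t r k : ℝ)| := by
      intro r
      exact h5 m s l N p σ nd (run hm s cap ((x r + x (r + 1)) / 2) l) l hch (fun y hy => hy)
        (h3 m hm s cap _ l).2.1
    have hint := h8.2 q x (fun θ => cost s l (assigned (rule hm s cap θ) l))
      (fun r => cost s l (run hm s cap ((x r + x (r + 1)) / 2) l)) hx0 hxq hxm (by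
        intro r hr θ ha hb
        have hlt := hxm r hr
        show cost s l (assigned (rule hm s cap θ) l) = _
        rw [(h3 m hm s cap θ l).1, hconst r hr θ ((x r + x (r + 1)) / 2) ha hb (by linarith)
          (by linarith)])
    have hint' : ∫ θ, cost s l (assigned (rule hm s cap θ) l) ∂tilt =
        3 / 2 * ∑ r ∈ range q, (x (r + 1) - x r) *
          ∑ t ∈ range l.length, ∑ k ∈ Icc 1 N, wd p k *
          |(ft hm s cap σ nd l x (t + 1) r k : ℝ) - (ft hm s cap σ nd l x t r k : ℝ)| := by
      refine hint.trans ?_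
      congr 1
      refine Finset.sum_congr rfl fun r _ => ?_
      rw [hcst r]
    rw [hint']
    linarith

end Pool.Agent.MP_a4c1f4_lc.LM
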