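import Mathlib
import Pool.Agent.Lib.MP_a4c1f4_lc.LM.SpecL

set_option autoImplicit false
set_option linter.all false

/-!
The rule respects the capacities; the list of its used sites.
-/

namespace Pool.Agent.MP_a4c1f4_lc.LM

open Finset
open Pool.Agent.MP_a4c1f4_lc.Dbl.L (assigned cost Respects)

namespace CapAux

variable {m : ℕ}

/-- The number of used sites. -/
theorem length_run (hm : 0 < m) (s : Fin m → ℝ) (cap : Fin m → ℕ) (θ : ℝ) (l : List ℝ) :
    (run hm s cap θ l).length = l.length := by
  induction l with
  | nil => rfl
  | cons x l ih => simp [run, ih]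

/-- The sites used by the rule. -/
theorem assigned_rule (hm : 0 < m) (s : Fin m → ℝ) (cap : Fin m → ℕ) (θ : ℝ) (l : List ℝ) :
    assigned (rule hm s cap θ) l = run hm s cap θ l := by
  induction l with
  | nil => rfl
  | cons x l ih =>
    show rule hm s cap θ x l :: assigned (rule hm s cap θ) l = _
    rw [ih]
    rfl

/-- Dropping the most recent requests. -/
theorem run_drop (hm : 0 < m) (s : Fin m → ℝ) (cap : Fin m → ℕ) (θ : ℝ) (l : List ℝ) :
    ∀ k, run hm s cap θ (l.drop k) = (run hm s cap θ l).drop k := by
  induction l with
  | nil => intro k; simp [run]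
  | cons x l ih =>
    intro k
    cases k with
    | zero => rfl
    | succ k =>
      have e1 : (x :: l).drop (k + 1) = l.drop k := rfl
      have e2 : (run hm s cap θ (x :: l)).drop (k + 1) = (run hm s cap θ l).drop k := rfl
      rw [e1, e2, ih]

/-- The counts add up to the length. -/
theorem sum_count (u : List (Fin m)) : ∑ j, u.count j = u.length := by
  induction u with
  | nil => simp
  | cons a u ih =>
    simp only [List.count_cons, List.length_cons, Finset.sum_add_distrib, ih]
    simp

/-- A free site exists. -/
theorem exists_free (cap : Fin m → ℕ) (u : List (Fin m)) (h : u.length < ∑ j, cap j) :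
    ∃ j, u.count j < cap j := by
  by_contra hc
  push Not at hc
  have h2 : ∑ j, cap j ≤ ∑ j, u.count j := Finset.sum_le_sum fun j _ => hc j
  rw [sum_count] at h2
  omega

/-- A best free site exists. -/
theorem exists_best (s : Fin m → ℝ) (cap : Fin m → ℕ) (θ : ℝ) (u : List (Fin m)) (l : List ℝ)
    (x : ℝ) (h : u.length < ∑ j, cap j) : ∃ j, best s cap θ u l x j := by
  classical
  obtain ⟨j0, hj0⟩ := exists_free cap u h
  obtain ⟨j, hj, hmin⟩ := Finset.exists_min_image
    (univ.filter (fun j : Fin m => u.count j < cap j)) (fun j => Ph s θ (j :: u) (x :: l))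
    ⟨j0, by simpa using hj0⟩
  refine ⟨j, by simpa using hj, fun i hi => ?_⟩
  exact hmin i (by simpa using hi)

/-- The picked site is best. -/
theorem pick_best (hm : 0 < m) (s : Fin m → ℝ) (cap : Fin m → ℕ) (θ : ℝ) (u : List (Fin m))
    (l : List ℝ) (x : ℝ) (h : u.length < ∑ j, cap j) :
    best s cap θ u l x (pick hm s cap θ u l x) := by
  classical
  obtain ⟨j, hj⟩ := exists_best s cap θ u l x h
  have hne : (univ.filter (fun j => best s cap θ u l x j)).Nonempty := ⟨j, by simpa using hj⟩
  have hmem := Finset.min'_mem _ hne
  have hp : pick hm s cap θ u l x = (univ.filter (fun j => best s cap θ u l x j)).min' hne := by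
    unfold pick
    rw [dif_pos]
  rw [hp]
  simpa using hmem

/-- The rule respects the capacities. -/
theorem respects (hm : 0 < m) (s : Fin m → ℝ) (cap : Fin m → ℕ) (θ : ℝ) (l : List ℝ) :
    l.length ≤ ∑ j, cap j → Respects cap (run hm s cap θ l) := by
  induction l with
  | nil => intro _ j; simp [run]
  | cons x l ih =>
    intro h j
    have hl : l.length < ∑ j, cap j := by
      have : (x :: l).length = l.length + 1 := rfl
      omega
    have hr := ih hl.le
    have hb := pick_best hm s cap θ (run hm s cap θ l) l x (by rw [length_run]; exact hl)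
    show (pick hm s cap θ (run hm s cap θ l) l x :: run hm s cap θ l).count j ≤ cap j
    rw [List.count_cons]
    split_ifs with he
    · have he' : pick hm s cap θ (run hm s cap θ l) l x = j := by simpa using he
      have := hb.1
      rw [he'] at this
      omega
    · have := hr j
      omega

end CapAux

/-- The rule respects the capacities. -/
theorem capP : T_Cap := by
  intro m hm s cap θ l
  refine ⟨CapAux.assigned_rule hm s cap θ l, CapAux.length_run hm s cap θ l,
    CapAux.run_drop hm s cap θ l, CapAux.respects hm s cap θ l, fun x hx => ?_⟩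
  exact CapAux.pick_best hm s cap θ _ l x (by rw [CapAux.length_run]; exact hx)

end Pool.Agent.MP_a4c1f4_lc.LM
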