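import Pool.Agent.Lib.MP_a4c1f4_lc.LM.SpecL

set_option autoImplicit false
set_option linter.all false

/-!
Optimality on the closed piece of tilts: `sm` is continuous in the tilt, so the inequalities pass to
the closure of the open piece.
-/

namespace Pool.Agent.MP_a4c1f4_lc.LM

open Finset

namespace ClAux

/-- The tilted cost is continuous in the tilt. -/
theorem sm_cont (w : ℕ → ℝ) (a b : ℕ) (f : ℕ → ℤ) : Continuous (fun θ : ℝ => sm w θ a b f) := by
  unfold sm ps
  fun_prop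

end ClAux

theorem clP : T_Cl := by
  intro N w z f a b hab H θ h1 h2
  have hmid := H ((a + b) / 2) (by linarith) (by linarith)
  refine ⟨hmid.1, ?_⟩
  intro g hg
  have hcl : IsClosed {t : ℝ | sm w t 1 (N + 1) f ≤ sm w t 1 (N + 1) g} :=
    isClosed_le (ClAux.sm_cont w 1 (N + 1) f) (ClAux.sm_cont w 1 (N + 1) g)
  have hsub : Set.Ioo a b ⊆ {t : ℝ | sm w t 1 (N + 1) f ≤ sm w t 1 (N + 1) g} := by
    intro t ht
    exact (H t ht.1 ht.2).2 g hg
  have hcc : closure (Set.Ioo a b) ⊆ {t : ℝ | sm w t 1 (N + 1) f ≤ sm w t 1 (N + 1) g} :=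
    closure_minimal hsub hcl
  rw [closure_Ioo hab.ne] at hcc
  exact hcc ⟨h1, h2⟩

end Pool.Agent.MP_a4c1f4_lc.LM
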