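import Pool.Agent.Lib.MP_a4c1f4_lc.LM.Spec

set_option autoImplicit false

/-!
Online matching on the line: the covering statement `S_Cov`.
-/

namespace Pool.Agent.MP_a4c1f4_lc.LM

open Finset

namespace CovAux

theorem split (w : ℕ → ℝ) (S : Finset ℕ) (p a q : ℕ) (h1 : 1 ≤ a) (hp : p ≤ a) (hq : a ≤ q + 1) :
    ∑ k ∈ Icc p q ∩ S, w k = ∑ k ∈ Icc p (a - 1) ∩ S, w k + ∑ k ∈ Icc a q ∩ S, w k := by
  rw [← Finset.sum_union]
  · apply Finset.sum_congr _ (fun _ _ => rfl)
    ext k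
    simp only [Finset.mem_union, Finset.mem_inter, Finset.mem_Icc]
    constructor
    · rintro ⟨⟨h2, h3⟩, h4⟩
      rcases Nat.lt_or_ge k a with h | h
      · exact Or.inl ⟨⟨h2, by omega⟩, h4⟩
      · exact Or.inr ⟨⟨h, h3⟩, h4⟩
    · rintro (⟨⟨h2, h3⟩, h4⟩ | ⟨⟨h2, h3⟩, h4⟩)
      · exact ⟨⟨h2, by omega⟩, h4⟩
      · exact ⟨⟨by omega, h3⟩, h4⟩
  · rw [Finset.disjoint_left]
    intro k hk hk'
    simp only [Finset.mem_inter, Finset.mem_Icc] at hk hk'
    omega

theorem sub (w : ℕ → ℝ) (hw : ∀ k, 0 ≤ w k) (S : Finset ℕ) (p q : ℕ) :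
    ∑ k ∈ Icc p q ∩ S, w k ≤ ∑ k ∈ Icc p q, w k :=
  Finset.sum_le_sum_of_subset_of_nonneg Finset.inter_subset_left (fun k _ _ => hw k)

theorem left (w : ℕ → ℝ) (hw : ∀ k, 0 ≤ w k) (E A : Finset ℕ)
    (hE : ∀ i ∈ E, ∃ a, 1 ≤ a ∧ a ≤ i ∧ ∑ k ∈ Icc a i, w k ≤ 6 * ∑ k ∈ Icc a i ∩ A, w k) :
    ∀ M, ∑ k ∈ Icc 1 M ∩ E, w k ≤ 6 * ∑ k ∈ Icc 1 M ∩ A, w k := by
  intro M
  induction M using Nat.strong_induction_on with
  | _ M ih =>
    rcases Nat.eq_zero_or_pos M with h0 | h0
    · subst h0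
      simp
    by_cases hM : M ∈ E
    · obtain ⟨a, ha, haM, hs⟩ := hE M hM
      rw [split w E 1 a M ha ha (by omega), split w A 1 a M ha ha (by omega)]
      have h1 := ih (a - 1) (by omega)
      have h2 := sub w hw E a M
      linarith
    · have h1 := ih (M - 1) (by omega)
      rw [split w E 1 M M h0 h0 (by omega), split w A 1 M M h0 h0 (by omega)]
      have h2 : Icc M M ∩ E = ∅ := by
        rw [Finset.Icc_self]
        ext k
        simp only [Finset.mem_inter, Finset.mem_singleton, Finset.notMem_empty, iff_false, not_and]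
        rintro rfl
        exact hM
      rw [h2, Finset.sum_empty]
      have h3 : 0 ≤ ∑ k ∈ Icc M M ∩ A, w k := Finset.sum_nonneg (fun k _ => hw k)
      linarith

theorem right (w : ℕ → ℝ) (hw : ∀ k, 0 ≤ w k) (N : ℕ) (E A : Finset ℕ)
    (hE : ∀ i ∈ E, ∃ b, i ≤ b ∧ b ≤ N ∧ ∑ k ∈ Icc i b, w k ≤ 6 * ∑ k ∈ Icc i b ∩ A, w k) :
    ∀ d M, M + d = N + 1 → ∑ k ∈ Icc M N ∩ E, w k ≤ 6 * ∑ k ∈ Icc M N ∩ A, w k := by
  intro d
  induction d using Nat.strong_induction_on with
  | _ d ih =>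
    intro M hMd
    rcases Nat.eq_zero_or_pos d with h0 | h0
    · have h1 : Icc M N = ∅ := Finset.Icc_eq_empty (by omega)
      rw [h1]
      simp
    by_cases hM : M ∈ E
    · obtain ⟨b, hb, hbN, hs⟩ := hE M hM
      rw [split w E M (b + 1) N (by omega) (by omega) (by omega),
        split w A M (b + 1) N (by omega) (by omega) (by omega), Nat.add_sub_cancel]
      have h1 := ih (N - b) (by omega) (b + 1) (by omega)
      have h2 := sub w hw E M b
      linarith
    · have h1 := ih (d - 1) (by omega) (M + 1) (by omega)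
      rw [split w E M (M + 1) N (by omega) (by omega) (by omega),
        split w A M (M + 1) N (by omega) (by omega) (by omega), Nat.add_sub_cancel]
      have h2 : Icc M M ∩ E = ∅ := by
        rw [Finset.Icc_self]
        ext k
        simp only [Finset.mem_inter, Finset.mem_singleton, Finset.notMem_empty, iff_false, not_and]
        rintro rfl
        exact hM
      rw [h2, Finset.sum_empty]
      have h3 : 0 ≤ ∑ k ∈ Icc M M ∩ A, w k := Finset.sum_nonneg (fun k _ => hw k)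
      linarith

end CovAux

theorem covP : S_Cov := by
  classical
  intro N w E A hw hE
  obtain ⟨E1, hE1⟩ : ∃ E1, E1 = E.filter (fun i => ∃ a, 1 ≤ a ∧ a ≤ i ∧
    ∑ k ∈ Icc a i, w k ≤ 6 * ∑ k ∈ Icc a i ∩ A, w k) := ⟨_, rfl⟩
  obtain ⟨E2, hE2⟩ : ∃ E2, E2 = E.filter (fun i => ¬ ∃ a, 1 ≤ a ∧ a ≤ i ∧
    ∑ k ∈ Icc a i, w k ≤ 6 * ∑ k ∈ Icc a i ∩ A, w k) := ⟨_, rfl⟩
  have hsum : ∑ k ∈ E, w k = ∑ k ∈ E1, w k + ∑ k ∈ E2, w k := by
    rw [hE1, hE2, Finset.sum_filter_add_sum_filter_not]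
  have hIcc : ∀ i ∈ E, i ∈ Icc 1 N := by
    intro i hi
    obtain ⟨a, b, h1, h2, h3, h4, _⟩ := hE i hi
    rw [Finset.mem_Icc]
    omega
  have hA : ∑ k ∈ Icc 1 N ∩ A, w k ≤ ∑ k ∈ A, w k :=
    Finset.sum_le_sum_of_subset_of_nonneg Finset.inter_subset_right (fun k _ _ => hw k)
  have hB1 : ∑ k ∈ E1, w k ≤ 6 * ∑ k ∈ Icc 1 N ∩ A, w k := by
    have h1 := CovAux.left w hw E1 A (fun i hi => by
      rw [hE1, Finset.mem_filter] at hi
      exact hi.2) N
    have h2 : Icc 1 N ∩ E1 = E1 := by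
      apply Finset.inter_eq_right.mpr
      intro i hi
      rw [hE1, Finset.mem_filter] at hi
      exact hIcc i hi.1
    rwa [h2] at h1
  have hB2 : ∑ k ∈ E2, w k ≤ 6 * ∑ k ∈ Icc 1 N ∩ A, w k := by
    have h1 := CovAux.right w hw N E2 A (fun i hi => by
      rw [hE2, Finset.mem_filter] at hi
      obtain ⟨hiE, hneg⟩ := hi
      obtain ⟨a, b, ha, hai, hib, hbN, hs⟩ := hE i hiE
      refine ⟨b, hib, hbN, ?_⟩
      by_contra hc
      push Not at hc
      have hl : 6 * ∑ k ∈ Icc a i ∩ A, w k < ∑ k ∈ Icc a i, w k := by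
        by_contra hl
        push Not at hl
        exact hneg ⟨a, ha, hai, hl⟩
      have e1 : ∑ k ∈ Icc a b, w k = ∑ k ∈ Icc a (i - 1), w k + ∑ k ∈ Icc i b, w k := by
        have h := CovAux.split w (Icc a b) a i b (by omega) hai (by omega)
        have g1 : Icc a b ∩ Icc a b = Icc a b := Finset.inter_self _
        have g2 : Icc a (i - 1) ∩ Icc a b = Icc a (i - 1) := by
          apply Finset.inter_eq_left.mpr
          intro k hk
          rw [Finset.mem_Icc] at hk ⊢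
          omega
        have g3 : Icc i b ∩ Icc a b = Icc i b := by
          apply Finset.inter_eq_left.mpr
          intro k hk
          rw [Finset.mem_Icc] at hk ⊢
          omega
        rwa [g1, g2, g3] at h
      have e2 : ∑ k ∈ Icc a i, w k = ∑ k ∈ Icc a (i - 1), w k + w i := by
        have h := CovAux.split w (Icc a i) a i i (by omega) hai (by omega)
        have g1 : Icc a i ∩ Icc a i = Icc a i := Finset.inter_self _
        have g2 : Icc a (i - 1) ∩ Icc a i = Icc a (i - 1) := by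
          apply Finset.inter_eq_left.mpr
          intro k hk
          rw [Finset.mem_Icc] at hk ⊢
          omega
        have g3 : Icc i i ∩ Icc a i = {i} := by
          rw [Finset.Icc_self]
          apply Finset.inter_eq_left.mpr
          intro k hk
          rw [Finset.mem_singleton] at hk
          rw [Finset.mem_Icc]
          omega
        rw [g1, g2, g3, Finset.sum_singleton] at h
        exact h
      have e3 : ∑ k ∈ Icc a b ∩ A, w k = ∑ k ∈ Icc a (i - 1) ∩ A, w k + ∑ k ∈ Icc i b ∩ A, w k :=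
        CovAux.split w A a i b (by omega) hai (by omega)
      have e4 : ∑ k ∈ Icc a (i - 1) ∩ A, w k ≤ ∑ k ∈ Icc a i ∩ A, w k := by
        apply Finset.sum_le_sum_of_subset_of_nonneg _ (fun k _ _ => hw k)
        intro k hk
        rw [Finset.mem_inter, Finset.mem_Icc] at hk ⊢
        exact ⟨⟨hk.1.1, by omega⟩, hk.2⟩
      have e5 : w i ≤ ∑ k ∈ Icc a b, w k :=
        Finset.single_le_sum (fun k _ => hw k) (Finset.mem_Icc.mpr ⟨hai, hib⟩)
      linarith) N 1 (by omega)
    have h2 : Icc 1 N ∩ E2 = E2 := by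
      apply Finset.inter_eq_right.mpr
      intro i hi
      rw [hE2, Finset.mem_filter] at hi
      exact hIcc i hi.1
    rwa [h2] at h1
  rw [hsum]
  linarith

end Pool.Agent.MP_a4c1f4_lc.LM
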