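import Pool.Agent.Lib.MP_a4c1f4_lc.LM.SpecL

set_option autoImplicit false

/-!
The cost of an assignment as the sum over the steps.
-/

namespace Pool.Agent.MP_a4c1f4_lc.LM

open Finset
open Pool.Agent.MP_a4c1f4_lc.Dbl.L (assigned cost Respects)

namespace CstAux

theorem fu_cons {m : ℕ} (σ : Fin m → ℕ) (nd : ℝ → ℕ) (j : Fin m) (u : List (Fin m)) (x : ℝ)
    (l : List ℝ) (t : ℕ) (ht : t ≤ l.length) :
    fu σ nd (j :: u) (x :: l) t = fu σ nd u l t := by
  have h : (x :: l).length - t = (l.length - t) + 1 := by
    simp only [List.length_cons]; omega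
  unfold fu
  rw [h, List.drop_succ_cons, List.drop_succ_cons]

theorem fu_last {m : ℕ} (σ : Fin m → ℕ) (nd : ℝ → ℕ) (u : List (Fin m)) (l : List ℝ) :
    fu σ nd u l l.length = fl σ nd u l := by
  unfold fu
  simp

end CstAux

theorem cstP (h1 : T_Fl) (h2 : T_Dst) : T_Cst := by
  intro m s L N p σ nd u l hC
  obtain ⟨-, hcons, -⟩ := h1
  induction l generalizing u with
  | nil =>
    intro _ _
    simp [cost]
  | cons x l ih =>
    intro hL hlen
    cases u with
    | nil => simp at hlen
    | cons j u =>
      have hlen' : u.length = l.length := by simpa using hlen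
      have hL' : ∀ y, y ∈ l → y ∈ L := fun y hy => hL y (List.mem_cons_of_mem _ hy)
      have hx := hC.req x (hL x List.mem_cons_self)
      have hj := hC.site j
      have e1 : cost s (x :: l) (j :: u) = dist x (s j) + cost s l u := by
        simp [cost]
      rw [e1, ih u hL' hlen', List.length_cons, Finset.sum_range_succ, add_comm]
      congr 1
      · refine Finset.sum_congr rfl fun t ht => ?_
        have ht' : t < l.length := Finset.mem_range.1 ht
        rw [CstAux.fu_cons σ nd j u x l (t + 1) (by omega),
          CstAux.fu_cons σ nd j u x l t (by omega)]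
      · have e2 : fu σ nd (j :: u) (x :: l) (l.length + 1) = pth (nd x) (σ j) (fl σ nd u l) := by
          have := CstAux.fu_last σ nd (j :: u) (x :: l)
          rw [List.length_cons] at this
          rw [this, hcons]
        rw [e2, CstAux.fu_cons σ nd j u x l l.length le_rfl, CstAux.fu_last,
          h2 N p (nd x) (σ j) (fl σ nd u l) hC.mono hx.2 hj.2, hx.1, hj.1, Real.dist_eq]

end Pool.Agent.MP_a4c1f4_lc.LM
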