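import Pool.Agent.Lib.MP_a4c1f4_lc.LM.SpecL

set_option autoImplicit false
set_option linter.all false

/-!
Online matching on the line: the length of a path.
-/

namespace Pool.Agent.MP_a4c1f4_lc.LM

open Finset

namespace DstAux

theorem tele (p : ℕ → ℝ) (a b : ℕ) (h : a ≤ b) : ∑ k ∈ Ioc a b, wd p k = p b - p a := by
  induction b, h using Nat.le_induction with
  | base => simp
  | succ n hn ih =>
    rw [Finset.sum_Ioc_succ_top hn, ih]
    unfold wd
    rw [Nat.add_sub_cancel]
    ring

theorem seg (N : ℕ) (p : ℕ → ℝ) (a b : ℕ) (F : ℕ → ℝ) (h : a ≤ b) (hb : b ≤ N)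
    (hF : ∀ k, F k = if a < k ∧ k ≤ b then 1 else 0) :
    ∑ k ∈ Icc 1 N, wd p k * F k = p b - p a := by
  rw [← tele p a b h]
  have h1 : ∑ k ∈ Icc 1 N, wd p k * F k = ∑ k ∈ Icc 1 N, if a < k ∧ k ≤ b then wd p k else 0 := by
    refine Finset.sum_congr rfl fun k _ => ?_
    rw [hF k]
    split_ifs <;> simp
  rw [h1, ← Finset.sum_filter]
  refine Finset.sum_congr ?_ fun k _ => rfl
  ext k
  simp only [Finset.mem_filter, Finset.mem_Icc, Finset.mem_Ioc]
  omega

end DstAux

theorem dstP : T_Dst := by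
  intro N p v a f hp hv ha
  rcases le_total a v with h | h
  · have hm : p a ≤ p v := hp.monotone h
    rw [abs_of_nonneg (by linarith)]
    refine DstAux.seg N p a v _ h hv fun k => ?_
    have h1 : ((pth v a f k : ℤ) : ℝ) - (f k : ℝ) = ((pth v a f k - f k : ℤ) : ℝ) := by
      push_cast
      rfl
    rw [h1]
    have h2 : pth v a f k - f k = if a < k ∧ k ≤ v then 1 else 0 := by
      simp only [pth]
      split_ifs <;> omega
    rw [h2]
    split_ifs <;> simp
  · have hm : p v ≤ p a := hp.monotone h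
    rw [abs_of_nonpos (by linarith), neg_sub]
    refine DstAux.seg N p v a _ h ha fun k => ?_
    have h1 : ((pth v a f k : ℤ) : ℝ) - (f k : ℝ) = ((pth v a f k - f k : ℤ) : ℝ) := by
      push_cast
      rfl
    rw [h1]
    have h2 : pth v a f k - f k = - if v < k ∧ k ≤ a then 1 else 0 := by
      simp only [pth]
      split_ifs <;> omega
    rw [h2]
    split_ifs <;> simp

end Pool.Agent.MP_a4c1f4_lc.LM
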