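import Pool.Agent.Lib.MP_a4c1f4_lc.LM.Spec

set_option autoImplicit false
set_option linter.all false

/-!
Online matching on the line: one edge. The crossings of an edge to the left are sorted by the
label `f t r i`, which runs through `Ico (-mx) mx`.
-/

namespace Pool.Agent.MP_a4c1f4_lc.LM

open Finset

namespace EdgAux

/-- All labels are bounded by `mx`. -/
theorem bd (n m : ℕ) (f : ℕ → ℕ → ℕ → ℤ) (i t r : ℕ) (ht : t ≤ n) (hr : r < m) :
    (f t r i).natAbs ≤ mx n m f i := by
  have hm : ((t, r) : ℕ × ℕ) ∈ range (n + 1) ×ˢ range m := by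
    rw [mem_product, mem_range, mem_range]
    exact ⟨by simpa using Nat.lt_succ_of_le ht, hr⟩
  exact Finset.le_sup (f := fun q : ℕ × ℕ => (f q.1 q.2 i).natAbs) hm

open Classical in
/-- The weight `wl` is the sum over the labels. -/
theorem wlsum (w : ℕ → ℝ) (p : ℝ) (i v M : ℕ) (f g : ℕ → ℤ) (a b : ℝ)
    (hf : (f i).natAbs ≤ M) (hg : (g i).natAbs ≤ M) :
    wl w p i v f g a b = ∑ j ∈ Ico (-(M : ℤ)) (M : ℤ),
      (if i ≤ v ∧ f i = j ∧ g i = j + 1 then
        Real.log (cl w i f g b + p) - Real.log (cl w i f g a + p) else 0) := by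
  unfold wl
  by_cases hc : i ≤ v ∧ g i = f i + 1
  · rw [if_pos hc]
    have hmem : f i ∈ Ico (-(M : ℤ)) (M : ℤ) := by
      rw [mem_Ico]
      obtain ⟨_, h2⟩ := hc
      constructor
      · omega
      · omega
    rw [Finset.sum_eq_single_of_mem (f i) hmem]
    · rw [if_pos ⟨hc.1, rfl, hc.2⟩]
    · intro j _ hj
      rw [if_neg]
      rintro ⟨_, h3, _⟩
      exact hj h3.symm
  · rw [if_neg hc]
    symm
    apply Finset.sum_eq_zero
    intro j _
    rw [if_neg]
    rintro ⟨h1, h2, h3⟩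
    exact hc ⟨h1, by rw [h3, h2]⟩

end EdgAux

theorem edgP (h : S_Lab) : S_Edg := by
  intro N n m w c v x f B p i hR hp hi hiN hB
  classical
  have h1 : ∑ t ∈ range n, ∑ r ∈ range m,
      wl w p i (v t) (f t r) (f (t + 1) r) (x r) (x (r + 1)) =
      ∑ j ∈ Ico (-(mx n m f i : ℤ)) (mx n m f i : ℤ), ∑ t ∈ range n, ∑ r ∈ range m,
        (if i ≤ v t ∧ f t r i = j ∧ f (t + 1) r i = j + 1 then
          Real.log (cl w i (f t r) (f (t + 1) r) (x (r + 1)) + p) -
            Real.log (cl w i (f t r) (f (t + 1) r) (x r) + p) else 0) := by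
    symm
    rw [Finset.sum_comm]
    refine Finset.sum_congr rfl ?_
    intro t ht
    rw [Finset.sum_comm]
    refine Finset.sum_congr rfl ?_
    intro r hr
    rw [mem_range] at ht hr
    have e := EdgAux.wlsum w p i (v t) (mx n m f i) (f t r) (f (t + 1) r) (x r) (x (r + 1))
      (EdgAux.bd n m f i t r ht.le hr) (EdgAux.bd n m f i (t + 1) r ht hr)
    rw [e]
  rw [h1]
  have h2 : ∀ j ∈ Ico (-(mx n m f i : ℤ)) (mx n m f i : ℤ),
      (∑ t ∈ range n, ∑ r ∈ range m,
        (if i ≤ v t ∧ f t r i = j ∧ f (t + 1) r i = j + 1 then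
          Real.log (cl w i (f t r) (f (t + 1) r) (x (r + 1)) + p) -
            Real.log (cl w i (f t r) (f (t + 1) r) (x r) + p) else 0)) ≤
      Real.log ((B + p) / p) := by
    intro j _
    have e := h N n m w c v x f B p i j hR hp hi hiN hB
    convert e using 2
  refine (Finset.sum_le_sum h2).trans (le_of_eq ?_)
  rw [Finset.sum_const, Int.card_Ico, nsmul_eq_mul]
  congr 1
  have e3 : ((mx n m f i : ℤ) - -(mx n m f i : ℤ)).toNat = 2 * mx n m f i := by omega
  rw [e3]
  push_cast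
  ring

end Pool.Agent.MP_a4c1f4_lc.LM
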