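import Pool.Agent.Lib.MP_a4c1f4_lc.LM.SpecL

/-!
Online matching on the line: enumeration of a finite set.
-/

set_option autoImplicit false

namespace Pool.Agent.MP_a4c1f4_lc.LM

open Finset

theorem enP : T_En := by
  classical
  intro X a b hab
  obtain ⟨Y, hY⟩ : ∃ Y : Finset ℝ,
      Y = insert a (insert b (X.filter (fun y => a < y ∧ y < b))) := ⟨_, rfl⟩
  have hmem : ∀ y, y ∈ Y ↔ y = a ∨ y = b ∨ (y ∈ X ∧ a < y ∧ y < b) := by
    intro y
    rw [hY, Finset.mem_insert, Finset.mem_insert, Finset.mem_filter]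
  have haY : a ∈ Y := (hmem a).mpr (Or.inl rfl)
  have hbY : b ∈ Y := (hmem b).mpr (Or.inr (Or.inl rfl))
  have hlo : ∀ y ∈ Y, a ≤ y := by
    intro y hy
    rcases (hmem y).mp hy with h | h | h
    · exact h.ge
    · rw [h]
      exact hab.le
    · exact h.2.1.le
  have hhi : ∀ y ∈ Y, y ≤ b := by
    intro y hy
    rcases (hmem y).mp hy with h | h | h
    · rw [h]
      exact hab.le
    · exact h.le
    · exact h.2.2.le
  have hcard : 1 < Y.card := Finset.one_lt_card.mpr ⟨a, haY, b, hbY, hab.ne⟩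
  obtain ⟨n, hn⟩ : ∃ n, Y.card = n + 2 := ⟨Y.card - 2, by omega⟩
  obtain ⟨e, he⟩ : ∃ e : Fin (n + 2) ↪o ℝ, Set.range e = (Y : Set ℝ) :=
    ⟨Y.orderEmbOfFin hn, Finset.range_orderEmbOfFin Y hn⟩
  have heY : ∀ i, e i ∈ Y := by
    intro i
    have h1 : e i ∈ (Y : Set ℝ) := by
      rw [← he]
      exact Set.mem_range_self i
    exact Finset.mem_coe.mp h1
  have hYe : ∀ y ∈ Y, ∃ i, e i = y := by
    intro y hy
    have h1 : y ∈ Set.range e := by
      rw [he]
      exact Finset.mem_coe.mpr hy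
    exact h1
  refine ⟨n + 1, fun r => e ⟨min r (n + 1), by omega⟩, Nat.succ_pos n, ?_, ?_, ?_, ?_⟩
  · obtain ⟨i, hi⟩ := hYe a haY
    refine le_antisymm ?_ (hlo _ (heY _))
    rw [← hi]
    refine e.monotone ?_
    rw [Fin.le_def]
    change min 0 (n + 1) ≤ (i : ℕ)
    omega
  · obtain ⟨i, hi⟩ := hYe b hbY
    refine le_antisymm (hhi _ (heY _)) ?_
    rw [← hi]
    refine e.monotone ?_
    rw [Fin.le_def]
    change (i : ℕ) ≤ min (n + 1) (n + 1)
    have := i.isLt
    omega
  · intro r hr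
    refine e.strictMono ?_
    rw [Fin.lt_def]
    change min r (n + 1) < min (r + 1) (n + 1)
    omega
  · intro r hr y hy
    change y ≤ e ⟨min r (n + 1), _⟩ ∨ e ⟨min (r + 1) (n + 1), _⟩ ≤ y
    by_cases h1 : a < y
    · by_cases h2 : y < b
      · obtain ⟨i, hi⟩ := hYe y ((hmem y).mpr (Or.inr (Or.inr ⟨hy, h1, h2⟩)))
        rcases Nat.lt_or_ge r (i : ℕ) with h3 | h3
        · right
          rw [← hi]
          refine e.monotone ?_
          rw [Fin.le_def]
          change min (r + 1) (n + 1) ≤ (i : ℕ)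
          omega
        · left
          rw [← hi]
          refine e.monotone ?_
          rw [Fin.le_def]
          change (i : ℕ) ≤ min r (n + 1)
          omega
      · right
        exact (hhi _ (heY _)).trans (not_lt.mp h2)
    · left
      exact (not_lt.mp h1).trans (hlo _ (heY _))

end Pool.Agent.MP_a4c1f4_lc.LM
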