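import Pool.Agent.Lib.MP_a4c1f4_lc.LM.SpecL

/-!
# LM, module Fl: elementary facts on the flows
-/

set_option autoImplicit false
set_option linter.all false

namespace Pool.Agent.MP_a4c1f4_lc.LM

open Finset
open Pool.Agent.MP_a4c1f4_lc.Dbl.L (assigned cost Respects)

namespace FlAux

theorem countP_lt_succ {α : Type} (g : α → ℕ) (k : ℕ) (u : List α) :
    u.countP (fun j => decide (g j < k + 1)) =
      u.countP (fun j => decide (g j < k)) + u.countP (fun j => decide (g j = k)) := by
  induction u with
  | nil => simp
  | cons a u ih =>
    rw [List.countP_cons, List.countP_cons, List.countP_cons, ih]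
    simp only [decide_eq_true_eq]
    split_ifs <;> omega

theorem countP_eq_sum {m : ℕ} (σ : Fin m → ℕ) (k : ℕ) (u : List (Fin m)) :
    u.countP (fun j => decide (σ j = k)) = ∑ j ∈ univ.filter (fun j => σ j = k), u.count j := by
  induction u with
  | nil => simp
  | cons a u ih =>
    have h1 : ∀ j, (a :: u).count j = u.count j + if a = j then 1 else 0 := by
      intro j
      rw [List.count_cons]
      simp only [beq_iff_eq]
    rw [List.countP_cons, ih, Finset.sum_congr rfl (fun j _ => h1 j), Finset.sum_add_distrib,
      Finset.sum_ite_eq]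
    simp only [decide_eq_true_eq, Finset.mem_filter, Finset.mem_univ, true_and]

/-- the increments of the flow -/
theorem incr {m : ℕ} (σ : Fin m → ℕ) (nd : ℝ → ℕ) (u : List (Fin m)) (l : List ℝ) (k : ℕ) :
    fl σ nd u l (k + 1) - fl σ nd u l k =
      (∑ j ∈ univ.filter (fun j => σ j = k), (u.count j : ℤ)) -
        (l.countP (fun x => decide (nd x = k)) : ℤ) := by
  have h1 := countP_lt_succ σ k u
  have h2 := countP_lt_succ nd k l
  have h3 := countP_eq_sum σ k u
  have h4 : (∑ j ∈ univ.filter (fun j => σ j = k), (u.count j : ℤ)) =
      ((∑ j ∈ univ.filter (fun j => σ j = k), u.count j : ℕ) : ℤ) := by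
    push_cast
    rfl
  rw [h4, ← h3]
  unfold fl
  rw [h1, h2]
  push_cast
  ring

end FlAux

theorem flP : T_Fl := by
  refine ⟨?_, ?_, ?_, ?_, ?_, ?_⟩
  · intro m σ nd k
    simp [fl]
  · intro m σ nd j u x l
    funext k
    simp only [fl, pth, List.countP_cons, decide_eq_true_eq]
    push_cast
    split_ifs <;> omega
  · intro c nd x l
    funext k
    simp only [zl, dec, List.countP_cons, decide_eq_true_eq]
    push_cast
    split_ifs <;> omega
  · intro m N cap σ nd u l hr hl hσ hnd
    refine ⟨?_, ?_, ?_⟩
    · have h1 : u.countP (fun j => decide (σ j < 0)) = 0 := by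
        rw [List.countP_eq_zero]
        intro a _
        simp
      have h2 : l.countP (fun x => decide (nd x < 0)) = 0 := by
        rw [List.countP_eq_zero]
        intro a _
        simp
      unfold fl
      rw [h1, h2]
      rfl
    · intro k hk
      have h1 : u.countP (fun j => decide (σ j < k)) = u.length := by
        rw [List.countP_eq_length]
        intro a _
        have := hσ a
        simp only [decide_eq_true_eq]
        omega
      have h2 : l.countP (fun x => decide (nd x < k)) = l.length := by
        rw [List.countP_eq_length]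
        intro a ha
        have := hnd a ha
        simp only [decide_eq_true_eq]
        omega
      unfold fl
      rw [h1, h2, hl]
      omega
    · intro k _
      rw [FlAux.incr]
      unfold zl cn
      have : (∑ j ∈ univ.filter (fun j => σ j = k), (u.count j : ℤ)) ≤
          ∑ j ∈ univ.filter (fun j => σ j = k), (cap j : ℤ) :=
        Finset.sum_le_sum fun j _ => by exact_mod_cast hr j
      omega
  · intro m cap σ nd u l a h
    rw [FlAux.incr] at h
    unfold zl cn at h
    by_contra hc
    have : (∑ j ∈ univ.filter (fun j => σ j = a), (cap j : ℤ)) ≤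
        ∑ j ∈ univ.filter (fun j => σ j = a), (u.count j : ℤ) := by
      refine Finset.sum_le_sum fun j hj => ?_
      have hj' : σ j = a := (Finset.mem_filter.mp hj).2
      by_contra hcc
      exact hc ⟨j, hj', by omega⟩
    omega
  · intro m cap σ nd u l j hr hj
    rw [FlAux.incr]
    unfold zl cn
    have : (∑ i ∈ univ.filter (fun i => σ i = σ j), (u.count i : ℤ)) <
        ∑ i ∈ univ.filter (fun i => σ i = σ j), (cap i : ℤ) := by
      refine Finset.sum_lt_sum (fun i _ => by exact_mod_cast hr i) ⟨j, ?_, by exact_mod_cast hj⟩
      simp only [Finset.mem_filter, Finset.mem_univ, true_and]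
    omega

end Pool.Agent.MP_a4c1f4_lc.LM
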