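import Pool.Agent.Lib.MP_a4c1f4_lc.LM.Spec

set_option autoImplicit false

/-!
Online matching on the line: the maximal inequality `S_Fst` from `S_Run`, `S_Cov`, `S_Zt`.
-/

namespace Pool.Agent.MP_a4c1f4_lc.LM

open Finset

namespace FstAux

/-- Layer cake, one number. -/
lemma lc (d U : ℕ) (h : d ≤ U) : (d : ℝ) = ∑ u ∈ Icc 1 U, if u ≤ d then (1 : ℝ) else 0 := by
  rw [← Finset.sum_filter]
  have : (Icc 1 U).filter (fun u => u ≤ d) = Icc 1 d := by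
    ext u
    simp only [mem_filter, mem_Icc]
    omega
  rw [this]
  simp

/-- Layer cake, weighted sum. -/
lemma lcs (N : ℕ) (w : ℕ → ℝ) (d : ℕ → ℕ) (U : ℕ) (h : ∀ i ∈ Icc 1 N, d i ≤ U) :
    ∑ i ∈ Icc 1 N, w i * (d i : ℝ) =
      ∑ u ∈ Icc 1 U, ∑ i ∈ (Icc 1 N).filter (fun i => u ≤ d i), w i := by
  have h1 : ∀ i ∈ Icc 1 N, w i * (d i : ℝ) = ∑ u ∈ Icc 1 U, if u ≤ d i then w i else 0 := by
    intro i hi
    rw [lc (d i) U (h i hi), Finset.mul_sum]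
    refine Finset.sum_congr rfl (fun u _ => ?_)
    split_ifs <;> simp
  rw [Finset.sum_congr rfl h1, Finset.sum_comm]
  refine Finset.sum_congr rfl (fun u _ => ?_)
  rw [Finset.sum_filter]

lemma xlo (m : ℕ) (x : ℕ → ℝ) (hx : ∀ r, r < m → x r ≤ x (r + 1)) :
    ∀ r, r ≤ m → x 0 ≤ x r := by
  intro r
  induction r with
  | zero => intro _; exact le_rfl
  | succ r ih => intro hr; exact (ih (by omega)).trans (hx r (by omega))

lemma xhi (m : ℕ) (x : ℕ → ℝ) (hx : ∀ r, r < m → x r ≤ x (r + 1)) :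
    ∀ k r, r + k = m → x r ≤ x m := by
  intro k
  induction k with
  | zero =>
    intro r hr
    have : r = m := by omega
    rw [this]
  | succ k ih => intro r hr; exact (hx r (by omega)).trans (ih (r + 1) (by omega))

/-- The largest deviation from `S` on the edge `i`. -/
def dv (n m : ℕ) (f : ℕ → ℕ → ℕ → ℤ) (S : ℕ → ℤ) (i : ℕ) : ℕ :=
  (range (n + 1) ×ˢ range m).sup (fun q => (f q.1 q.2 i - S i).natAbs)

lemma mx_le (n m : ℕ) (f : ℕ → ℕ → ℕ → ℤ) (S : ℕ → ℤ) (i : ℕ) :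
    mx n m f i ≤ (S i).natAbs + dv n m f S i := by
  unfold mx
  apply Finset.sup_le
  intro q hq
  have h : (f q.1 q.2 i - S i).natAbs ≤ dv n m f S i :=
    Finset.le_sup (f := fun q : ℕ × ℕ => (f q.1 q.2 i - S i).natAbs) hq
  have h2 : (f q.1 q.2 i).natAbs ≤ (f q.1 q.2 i - S i).natAbs + (S i).natAbs := by omega
  calc (f q.1 q.2 i).natAbs ≤ (f q.1 q.2 i - S i).natAbs + (S i).natAbs := h2
    _ ≤ dv n m f S i + (S i).natAbs := by omega
    _ = (S i).natAbs + dv n m f S i := by omega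

lemma dv_att (n m : ℕ) (f : ℕ → ℕ → ℕ → ℤ) (S : ℕ → ℤ) (i u : ℕ) (hu : 1 ≤ u)
    (h : u ≤ dv n m f S i) : ∃ t r, t ≤ n ∧ r < m ∧ u ≤ (f t r i - S i).natAbs := by
  have h1 : ∃ q ∈ range (n + 1) ×ˢ range m, u ≤ (f q.1 q.2 i - S i).natAbs := by
    by_contra hcon
    push Not at hcon
    have h2 : dv n m f S i ≤ u - 1 := by
      unfold dv
      apply Finset.sup_le
      intro q hq
      have := hcon q hq
      omega
    omega
  obtain ⟨q, hq, hu2⟩ := h1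
  simp only [mem_product, mem_range] at hq
  exact ⟨q.1, q.2, by omega, hq.2, hu2⟩

lemma key (h1 : S_Run) (h2 : S_Cov) (h3 : S_Zt) (N n m : ℕ) (w : ℕ → ℝ) (c : ℕ → ℤ)
    (v : ℕ → ℕ) (x : ℕ → ℝ) (f : ℕ → ℕ → ℕ → ℤ) (S : ℕ → ℤ) (hR : Run N n m w c v x f)
    (hS : Fz N (zt c v n) S) (u : ℕ) (hu : 1 ≤ u) :
    ∑ i ∈ (Icc 1 N).filter (fun i => u ≤ dv n m f S i), w i ≤
      12 * ∑ i ∈ (Icc 1 N).filter (fun i => u ≤ (S i).natAbs), w i := by
  apply h2 N w _ _ hR.w_nonneg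
  intro i hi
  rw [mem_filter] at hi
  obtain ⟨t, r, ht, hr, hur⟩ := dv_att n m f S i u hu hi.2
  have hlo := xlo m x hR.x_mono r hr.le
  have hhi := xhi m x hR.x_mono (m - r) r (by omega)
  rw [hR.x_zero] at hlo
  rw [hR.x_last] at hhi
  have hx : |x r| ≤ 1 / 3 := abs_le.mpr ⟨hlo, hhi⟩
  obtain ⟨a, b, ha, hai, hib, hb, hsum⟩ := h1 N w (zt c v t) (zt c v n) (x r) (f t r) S i (u : ℤ)
    hR.w_nonneg hx (fun k => h3.2 c v t n k ht)
    (hR.opt t r ht hr (x r) le_rfl (hR.x_mono r hr)) hS (by exact_mod_cast hu)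
    (by rw [Int.abs_eq_natAbs]; exact_mod_cast hur)
  refine ⟨a, b, ha, hai, hib, hb, ?_⟩
  have he : (Icc a b).filter (fun k => (u : ℤ) ≤ |S k|) =
      Icc a b ∩ (Icc 1 N).filter (fun i => u ≤ (S i).natAbs) := by
    ext k
    simp only [mem_filter, mem_inter, mem_Icc, Int.abs_eq_natAbs, Nat.cast_le]
    constructor
    · rintro ⟨hk, hk2⟩
      exact ⟨hk, ⟨by omega, by omega⟩, hk2⟩
    · rintro ⟨hk, _, hk2⟩
      exact ⟨hk, hk2⟩
  rw [← he]
  exact hsum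

end FstAux

open FstAux in
theorem fstP (h1 : S_Run) (h2 : S_Cov) (h3 : S_Zt) : S_Fst := by
  intro N n m w c v x f S hR hS
  set U : ℕ := (Icc 1 N).sup (fun i => dv n m f S i + (S i).natAbs) with hU
  have hUi : ∀ i ∈ Icc 1 N, dv n m f S i + (S i).natAbs ≤ U := fun i hi =>
    Finset.le_sup (f := fun i => dv n m f S i + (S i).natAbs) hi
  have hA : ∑ i ∈ Icc 1 N, w i * ((S i).natAbs : ℝ) = ∑ i ∈ Icc 1 N, w i * |(S i : ℝ)| := by
    refine Finset.sum_congr rfl (fun i _ => ?_)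
    rw [Nat.cast_natAbs, Int.cast_abs]
  have hB : ∑ i ∈ Icc 1 N, w i * (dv n m f S i : ℝ) ≤
      12 * ∑ i ∈ Icc 1 N, w i * ((S i).natAbs : ℝ) := by
    rw [lcs N w (dv n m f S) U (fun i hi => le_trans (Nat.le_add_right _ _) (hUi i hi)),
      lcs N w (fun i => (S i).natAbs) U (fun i hi => le_trans (Nat.le_add_left _ _) (hUi i hi)),
      Finset.mul_sum]
    refine Finset.sum_le_sum (fun u hu => ?_)
    exact key h1 h2 h3 N n m w c v x f S hR hS u (mem_Icc.mp hu).1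
  calc ∑ i ∈ Icc 1 N, w i * (mx n m f i : ℝ)
      ≤ ∑ i ∈ Icc 1 N, (w i * ((S i).natAbs : ℝ) + w i * (dv n m f S i : ℝ)) := by
        refine Finset.sum_le_sum (fun i _ => ?_)
        rw [← mul_add]
        refine mul_le_mul_of_nonneg_left ?_ (hR.w_nonneg i)
        exact_mod_cast mx_le n m f S i
    _ = ∑ i ∈ Icc 1 N, w i * ((S i).natAbs : ℝ) + ∑ i ∈ Icc 1 N, w i * (dv n m f S i : ℝ) :=
        Finset.sum_add_distrib
    _ ≤ ∑ i ∈ Icc 1 N, w i * ((S i).natAbs : ℝ) +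
        12 * ∑ i ∈ Icc 1 N, w i * ((S i).natAbs : ℝ) := by linarith
    _ = 13 * ∑ i ∈ Icc 1 N, w i * |(S i : ℝ)| := by rw [hA]; ring

end Pool.Agent.MP_a4c1f4_lc.LM
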