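import Pool.Agent.Lib.MP_a4c1f4_lc.LM.SpecL

set_option autoImplicit false

namespace Pool.Agent.MP_a4c1f4_lc.LM

open Finset

open Pool.Agent.MP_a4c1f4_lc.Dbl.L (Respects)

namespace GrAux

private theorem ps_nonneg {θ : ℝ} (hθ : |θ| ≤ 1) (j : ℤ) : 0 ≤ ps θ j := by
  unfold ps
  have h1 : |θ * (j : ℝ)| ≤ |(j : ℝ)| := by
    rw [abs_mul]
    exact mul_le_of_le_one_left (abs_nonneg _) hθ
  have h2 := neg_abs_le (θ * (j : ℝ))
  linarith

private theorem sm_nonneg {w : ℕ → ℝ} {θ : ℝ} (hw : ∀ k, 0 ≤ w k) (hθ : |θ| ≤ 1) (a b : ℕ) (g : ℕ → ℤ) :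
    0 ≤ sm w θ a b g :=
  Finset.sum_nonneg fun k _ => mul_nonneg (hw k) (ps_nonneg hθ _)

private theorem sm_zero (w : ℕ → ℝ) (θ : ℝ) (a b : ℕ) (g : ℕ → ℤ) (hg : ∀ k, g k = 0) : sm w θ a b g = 0 := by
  unfold sm ps
  refine Finset.sum_eq_zero fun k _ => ?_
  rw [hg k]
  simp

end GrAux

/-- The rule keeps the flow optimal. -/
theorem grP (h1 : S_Stp) (h2 : S_Pm) (h3 : T_Fl) (h4 : T_Br) (h5 : T_Cap) : T_Gr := by
  classical
  intro m hm s cap L N p σ nd θ l hch hθ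
  obtain ⟨f1, f2, f3, f4, f5, f6⟩ := h3
  have hw : ∀ k, 0 ≤ wd p k := by
    intro k
    unfold wd
    have h6 := hch.mono.monotone (Nat.sub_le k 1)
    linarith
  have hσ : ∀ j, σ j ≤ N := fun j => (hch.site j).2
  induction l with
  | nil =>
    intro _ _
    change Opt N (wd p) (zl (cn cap σ) nd []) θ (fl σ nd [] [])
    refine ⟨f4 m N cap σ nd [] [] (fun j => by simp) rfl hσ (fun x hx => absurd hx List.not_mem_nil), ?_⟩
    intro g _
    rw [GrAux.sm_zero (wd p) θ 1 (N + 1) _ (f1 m σ nd)]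
    exact GrAux.sm_nonneg hw hθ _ _ _
  | cons x l ih =>
    intro hL hlen
    have hLl : ∀ y, y ∈ l → y ∈ L := fun y hy => hL y (List.mem_cons_of_mem x hy)
    have hlt : l.length < ∑ j, cap j := by
      rw [List.length_cons] at hlen
      omega
    have hxN : nd x ≤ N := (hch.req x (hL x List.mem_cons_self)).2
    have IH := ih hLl hlt.le
    obtain ⟨-, hrl, -, hresp, hbest⟩ := h5 m hm s cap θ l
    have hb := hbest x hlt
    have hr := hresp hlt.le
    have hrun : run hm s cap θ (x :: l) =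
        pick hm s cap θ (run hm s cap θ l) l x :: run hm s cap θ l := rfl
    rw [hrun]
    generalize pick hm s cap θ (run hm s cap θ l) l x = j0 at hb ⊢
    generalize run hm s cap θ l = u at hb hr hrl IH ⊢
    rw [f2, f3]
    refine ⟨h2 N (zl (cn cap σ) nd l) (nd x) (σ j0) _ hxN (hσ j0) IH.1 (f6 m cap σ nd u l j0 hr hb.1), ?_⟩
    intro g hg
    obtain ⟨a, haN, hslack, hle⟩ := h1 N (wd p) _ θ (nd x) _ g hw hxN IH hg
    obtain ⟨j, hja, hjc⟩ := f5 m cap σ nd u l a hslack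
    have h6 := hb.2 j hjc
    have hlen2 : ∀ i : Fin m, (i :: u).length = (x :: l).length := fun i => by
      rw [List.length_cons, List.length_cons, hrl]
    rw [h4 m s L N p σ nd θ _ _ hch hL (hlen2 j0), h4 m s L N p σ nd θ _ _ hch hL (hlen2 j), f2, f2, hja] at h6
    exact h6.trans hle

end Pool.Agent.MP_a4c1f4_lc.LM
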