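import Pool.Agent.Lib.MP_a4c1f4_lc.LM.Spec

/-!
MP_a4c1f4_lc, project LM: the integral of the logarithmic derivative.
-/

set_option autoImplicit false

namespace Pool.Agent.MP_a4c1f4_lc.LM

open Finset

theorem intP : S_Int := by
  intro A l p a b hp hl hab hA
  have hpos : ∀ θ ∈ Set.uIcc a b, 0 < A + l * θ + p := by
    intro θ hθ
    rw [Set.uIcc_of_le hab] at hθ
    have h1 : l * a ≤ l * θ := mul_le_mul_of_nonneg_left hθ.1 hl
    linarith
  have hcont : ContinuousOn (fun θ : ℝ => l / (A + l * θ + p)) (Set.uIcc a b) := by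
    refine ContinuousOn.div continuousOn_const (by fun_prop) ?_
    intro θ hθ
    exact (hpos θ hθ).ne'
  have hint := hcont.intervalIntegrable (μ := MeasureTheory.volume)
  refine ⟨hint, ?_⟩
  have hder : ∀ θ ∈ Set.uIcc a b,
      HasDerivAt (fun θ : ℝ => Real.log (A + l * θ + p)) (l / (A + l * θ + p)) θ := by
    intro θ hθ
    have h0 : HasDerivAt (fun θ : ℝ => A + l * θ + p) l θ := by
      have h1 : HasDerivAt (fun θ : ℝ => l * θ) (l * 1) θ := (hasDerivAt_id θ).const_mul l
      rw [mul_one] at h1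
      exact (h1.const_add A).add_const p
    exact h0.log (hpos θ hθ).ne'
  exact intervalIntegral.integral_eq_sub_of_hasDerivAt hder hint

end Pool.Agent.MP_a4c1f4_lc.LM
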