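import Pool.Agent.Lib.MP_a4c1f4_lc.LM.Spec

set_option autoImplicit false
set_option linter.all false

/-!
Online matching on the line: one edge, one label (`S_Lab`).
-/

namespace Pool.Agent.MP_a4c1f4_lc.LM

open Finset

namespace LabAux

theorem x_mono' {m : ℕ} {x : ℕ → ℝ} (h : ∀ r, r < m → x r ≤ x (r + 1)) (a : ℕ) :
    ∀ b, a ≤ b → b ≤ m → x a ≤ x b := by
  intro b hab
  induction b, hab using Nat.le_induction with
  | base => intro _; exact le_rfl
  | succ b hb ih => intro hm; exact (ih (by omega)).trans (h b (by omega))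

theorem x_abs {m : ℕ} {x : ℕ → ℝ} (h : ∀ r, r < m → x r ≤ x (r + 1)) (h0 : x 0 = -(1 / 3))
    (h1 : x m = 1 / 3) (r : ℕ) (hr : r ≤ m) : |x r| ≤ 1 := by
  have a := x_mono' h 0 r (Nat.zero_le _) hr
  have b := x_mono' h r m hr le_rfl
  rw [h0] at a
  rw [h1] at b
  rw [abs_le]
  constructor <;> linarith

theorem B_nonneg {N n m : ℕ} {w : ℕ → ℝ} {c : ℕ → ℤ} {v : ℕ → ℕ} {x : ℕ → ℝ}
    {f : ℕ → ℕ → ℕ → ℤ} {B : ℝ} (h : Run N n m w c v x f)
    (hB : ∀ t r, t ≤ n → r < m → ∀ θ, x r ≤ θ → θ ≤ x (r + 1) → sm w θ 1 (N + 1) (f t r) ≤ B) :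
    0 ≤ B := by
  have hm : 0 < m := by
    rcases Nat.eq_zero_or_pos m with h0 | h0
    · have h1 := h.x_zero
      have h2 := h.x_last
      rw [h0] at h2
      rw [h1] at h2
      norm_num at h2
    · exact h0
  have h1 := hB 0 0 (Nat.zero_le _) hm (x 0) le_rfl (h.x_mono 0 hm)
  have h2 : sm w (x 0) 1 (N + 1) (f 0 0) = 0 := by
    unfold sm
    refine Finset.sum_eq_zero fun k _ => ?_
    rw [h.zero 0 k hm]
    simp [ps]
  linarith

end LabAux

open LabAux in
/-- One edge, one label. -/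
theorem labP (h1 : S_OrA) (h2 : S_OrB) (h3 : S_Nn) (h4 : S_Ors) (h5 : S_Zt) : S_Lab := by
  classical
  intro N n m w c v x f B p i j h hp hi hiN hB
  have hB0 : 0 ≤ B := B_nonneg h hB
  have hmono := x_mono' h.x_mono
  have habs := x_abs h.x_mono h.x_zero h.x_last
  have hopt : ∀ t r, t ≤ n → r < m → ∀ θ, x r ≤ θ → θ ≤ x (r + 1) →
      Opt N w (zt c v t) θ (f t r) := h.opt
  have hopt' : ∀ t r, t < n → r < m → ∀ θ, x r ≤ θ → θ ≤ x (r + 1) →
      Opt N w (dec (zt c v t) (v t)) θ (f (t + 1) r) := by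
    intro t r ht hr θ ha hb
    rw [← h5.1 c v t]
    exact h.opt (t + 1) r ht hr θ ha hb
  let P : ℕ → ℕ → Prop := fun t r => i ≤ v t ∧ f t r i = j ∧ f (t + 1) r i = j + 1
  let lo : ℕ → ℕ → ℝ := fun t r => cl w i (f t r) (f (t + 1) r) (x r)
  let hh : ℕ → ℕ → ℝ := fun t r => cl w i (f t r) (f (t + 1) r) (x (r + 1))
  have key := h4 n m P lo hh B p hp hB0 (by
    intro t r ht hr hP
    obtain ⟨hiv, hfj, hgj⟩ := hP
    have hx := h.x_mono r hr
    have o1 := hopt t r ht.le hr (x r) le_rfl hx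
    have o2 := hopt' t r ht hr (x r) le_rfl hx
    have o3 := hopt t r ht.le hr (x (r + 1)) hx le_rfl
    have o4 := hopt' t r ht hr (x (r + 1)) hx le_rfl
    refine ⟨?_, ?_, ?_⟩
    · exact h3.1 N w (zt c v t) (x r) (v t) i (f t r) (f (t + 1) r) h.w_nonneg hiN o1 o2.1
        (by omega)
    · exact h1 N w (zt c v t) (zt c v t) (x r) (x (r + 1)) (v t) (v t) i j (f t r) (f (t + 1) r)
        (f t r) (f (t + 1) r) h.w_nonneg (fun _ => le_rfl) hx hiv hiv hiN o1.1 o2 o3 o4.1 hfj hgj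
        hfj hgj
    · exact (h3.2 N w (x (r + 1)) i (f t r) (f (t + 1) r) h.w_nonneg (habs (r + 1) hr) hiN).trans
        (hB (t + 1) r ht hr (x (r + 1)) hx le_rfl)) (by
    intro t r t' r' ht hr ht' hr' hP hP' hlt
    obtain ⟨hiv, hfj, hgj⟩ := hP
    obtain ⟨hiv', hfj', hgj'⟩ := hP'
    have hx := h.x_mono r hr
    have hx' := h.x_mono r' hr'
    have o1 := hopt t r ht.le hr (x (r + 1)) hx le_rfl
    have o2 := hopt' t r ht hr (x (r + 1)) hx le_rfl
    have o3 := hopt t' r' ht'.le hr' (x r') le_rfl hx'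
    have o4 := hopt' t' r' ht' hr' (x r') le_rfl hx'
    have htt : t ≤ t' := by omega
    by_cases hc : x (r + 1) ≤ x r'
    · exact h1 N w (zt c v t) (zt c v t') (x (r + 1)) (x r') (v t) (v t') i j (f t r)
        (f (t + 1) r) (f t' r') (f (t' + 1) r') h.w_nonneg (fun k => h5.2 c v t t' k htt) hc
        hiv hiv' hiN o1.1 o2 o3 o4.1 hfj hgj hfj' hgj'
    · rcases hlt with hlt | ⟨_, hrr⟩
      · exact h2 N w (zt c v t) (zt c v t') (x (r + 1)) (x r') (v t) (v t') i j (f t r)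
          (f (t + 1) r) (f t' r') (f (t' + 1) r') h.w_nonneg
          (fun k => by rw [← h5.1 c v t]; exact h5.2 c v (t + 1) t' k hlt) (le_of_not_ge hc)
          hiv hiv' hiN o1.1 o2 o3 o4.1 hfj hgj hfj' hgj'
      · exact absurd (hmono (r + 1) r' hrr hr'.le) hc)
  refine le_trans (le_of_eq ?_) key
  refine Finset.sum_congr rfl fun t _ => Finset.sum_congr rfl fun r _ => ?_
  by_cases hP : P t r
  · rw [if_pos hP, if_pos hP]
  · rw [if_neg hP, if_neg hP]

end Pool.Agent.MP_a4c1f4_lc.LM
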