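import Mathlib
import Pool.Agent.Lib.MP_a4c1f4_lc.LM.Spec

set_option autoImplicit false
set_option linter.all false

/-!
Online matching on the line: the main inequality of the chain model, from the inequalities of the
single steps, the bounds of the crossings and the numerical inequality.
-/

namespace Pool.Agent.MP_a4c1f4_lc.LM

open Finset

namespace MnAux

theorem x_ge {N n m : ℕ} {w : ℕ → ℝ} {c : ℕ → ℤ} {v : ℕ → ℕ} {x : ℕ → ℝ} {f : ℕ → ℕ → ℕ → ℤ}
    (h : Run N n m w c v x f) (r : ℕ) (hr : r ≤ m) : -(1 / 3) ≤ x r := by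
  induction r with
  | zero => exact h.x_zero.ge
  | succ r ih => exact (ih (by omega)).trans (h.x_mono r (by omega))

theorem x_le {N n m : ℕ} {w : ℕ → ℝ} {c : ℕ → ℤ} {v : ℕ → ℕ} {x : ℕ → ℝ} {f : ℕ → ℕ → ℕ → ℤ}
    (h : Run N n m w c v x f) (r : ℕ) (hr : r ≤ m) : x r ≤ 1 / 3 := by
  have key : ∀ d, d ≤ m → x (m - d) ≤ 1 / 3 := by
    intro d
    induction d with
    | zero => intro _; simpa using h.x_last.le
    | succ d ih =>
      intro hd
      have h1 := h.x_mono (m - (d + 1)) (by omega)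
      rw [show m - (d + 1) + 1 = m - d by omega] at h1
      exact h1.trans (ih (by omega))
  have h2 := key (m - r) (by omega)
  rwa [show m - (m - r) = r by omega] at h2

theorem fz_mono {N : ℕ} {z z' f : ℕ → ℤ} (h : Fz N z' f) (hz : ∀ k, z' k ≤ z k) : Fz N z f :=
  ⟨h.1, h.2.1, fun k hk => (h.2.2 k hk).trans (hz k)⟩

theorem ico_icc (N : ℕ) : Ico 1 (N + 1) = Icc 1 N := by
  ext k
  simp only [Finset.mem_Ico, Finset.mem_Icc]
  omega

theorem sm_le {N : ℕ} {w : ℕ → ℝ} {θ : ℝ} {S : ℕ → ℤ} (hw : ∀ k, 0 ≤ w k) (hθ : |θ| ≤ 1 / 3) :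
    sm w θ 1 (N + 1) S ≤ 4 / 3 * ∑ k ∈ Icc 1 N, w k * |(S k : ℝ)| := by
  unfold sm
  rw [Finset.mul_sum, ico_icc]
  refine Finset.sum_le_sum fun k _ => ?_
  unfold ps
  have h1 : θ * (S k : ℝ) ≤ 1 / 3 * |(S k : ℝ)| := by
    calc θ * (S k : ℝ) ≤ |θ * (S k : ℝ)| := le_abs_self _
      _ = |θ| * |(S k : ℝ)| := abs_mul _ _
      _ ≤ _ := mul_le_mul_of_nonneg_right hθ (abs_nonneg _)
  have h2 := mul_le_mul_of_nonneg_left h1 (hw k)
  nlinarith [h2]

theorem sm_zero {N : ℕ} {w : ℕ → ℝ} {θ : ℝ} {g : ℕ → ℤ} (hg : ∀ k, g k = 0) :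
    sm w θ 1 (N + 1) g = 0 := by
  unfold sm ps
  refine Finset.sum_eq_zero fun k _ => ?_
  rw [hg k]
  simp

/-- The cost of all flows of the run is bounded. -/
theorem cost_le (h6 : S_Zt) {N n m : ℕ} {w : ℕ → ℝ} {c : ℕ → ℤ} {v : ℕ → ℕ} {x : ℕ → ℝ}
    {f : ℕ → ℕ → ℕ → ℤ} {S : ℕ → ℤ} {O : ℝ} (h : Run N n m w c v x f) (hS : Fz N (zt c v n) S)
    (hO : ∑ k ∈ Icc 1 N, w k * |(S k : ℝ)| ≤ O) :
    ∀ t r, t ≤ n → r < m → ∀ θ, x r ≤ θ → θ ≤ x (r + 1) →
      sm w θ 1 (N + 1) (f t r) ≤ 4 / 3 * O := by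
  intro t r ht hr θ h1 h2
  have hθ : |θ| ≤ 1 / 3 := by
    rw [abs_le]
    exact ⟨(x_ge h r hr.le).trans h1, h2.trans (x_le h (r + 1) hr)⟩
  have hS2 : Fz N (zt c v t) S := fz_mono hS (fun k => h6.2 c v t n k ht)
  calc sm w θ 1 (N + 1) (f t r) ≤ sm w θ 1 (N + 1) S := (h.opt t r ht hr θ h1 h2).2 S hS2
    _ ≤ 4 / 3 * ∑ k ∈ Icc 1 N, w k * |(S k : ℝ)| := sm_le h.w_nonneg hθ
    _ ≤ 4 / 3 * O := by linarith

/-- One step on one piece. -/
theorem one_step (h1 : S_PcL) (h2 : S_PcR) (h6 : S_Zt) (h7 : S_Wn)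
    {N n m : ℕ} {w : ℕ → ℝ} {c : ℕ → ℤ} {v : ℕ → ℕ} {x : ℕ → ℝ} {f : ℕ → ℕ → ℕ → ℤ} {p R : ℝ}
    (h : Run N n m w c v x f) (hp : 0 < p) (hR : 4 ≤ R) (hw : ∀ k, w k ≤ p) {t r : ℕ}
    (ht : t < n) (hr : r < m) :
    (x (r + 1) - x r) * ∑ k ∈ Icc 1 N, w k * |(f (t + 1) r k : ℝ) - (f t r k : ℝ)| ≤
      R * ((x (r + 1) - x r) * (sm w ((x r + x (r + 1)) / 2) 1 (N + 1) (f (t + 1) r) -
        sm w ((x r + x (r + 1)) / 2) 1 (N + 1) (f t r) + p)) +
      25 / Real.log R *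
        (∑ i ∈ Icc 1 N, w i * wl w p i (v t) (f t r) (f (t + 1) r) (x r) (x (r + 1)) +
          ∑ i ∈ Icc 1 N, w i * wr N w p i (v t) (f t r) (f (t + 1) r) (x r) (x (r + 1))) := by
  obtain ⟨s, hs, hfs⟩ := h.step t r ht hr
  have hv := h.v_le t ht
  have hlog : 0 < 25 / Real.log R := div_pos (by norm_num) (Real.log_pos (by linarith))
  have ha := x_ge h r hr.le
  have hb := x_le h (r + 1) hr
  have hab := h.x_mono r hr
  have ho1 : ∀ θ, x r ≤ θ → θ ≤ x (r + 1) → Opt N w (zt c v t) θ (f t r) :=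
    h.opt t r ht.le hr
  have ho2 : ∀ θ, x r ≤ θ → θ ≤ x (r + 1) → Opt N w (dec (zt c v t) (v t)) θ (f (t + 1) r) := by
    intro θ hθ1 hθ2
    rw [← h6.1 c v t]
    exact h.opt (t + 1) r ht hr θ hθ1 hθ2
  have hwn : ∀ i ∈ Icc 1 N,
      0 ≤ wl w p i (v t) (f t r) (f (t + 1) r) (x r) (x (r + 1)) ∧
      0 ≤ wr N w p i (v t) (f t r) (f (t + 1) r) (x r) (x (r + 1)) := by
    intro i hi
    rw [Finset.mem_Icc] at hi
    exact h7 N w (zt c v t) (v t) i (f t r) (f (t + 1) r) p (x r) (x (r + 1)) h.w_nonneg hp hv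
      hi.1 hi.2 hab ho1 ho2
  have hL : 0 ≤ ∑ i ∈ Icc 1 N, w i * wl w p i (v t) (f t r) (f (t + 1) r) (x r) (x (r + 1)) :=
    Finset.sum_nonneg fun i hi => mul_nonneg (h.w_nonneg i) (hwn i hi).1
  have hRr : 0 ≤ ∑ i ∈ Icc 1 N, w i * wr N w p i (v t) (f t r) (f (t + 1) r) (x r) (x (r + 1)) :=
    Finset.sum_nonneg fun i hi => mul_nonneg (h.w_nonneg i) (hwn i hi).2
  rcases le_total s (v t) with hsv | hsv
  · have h8 := h1 N w (zt c v t) (v t) s (f t r) (f (t + 1) r) p R (x r) (x (r + 1)) h.w_nonneg hw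
      hp hR hv hsv ha hab hb ho1 ho2 hfs
    have h9 := mul_nonneg hlog.le hRr
    rw [mul_add]
    linarith
  · have h8 := h2 N w (zt c v t) (v t) s (f t r) (f (t + 1) r) p R (x r) (x (r + 1)) h.w_nonneg hw
      hp hR hv hsv hs ha hab hb ho1 ho2 hfs
    have h9 := mul_nonneg hlog.le hL
    rw [mul_add]
    linarith

/-- The sum of the steps on one piece of the part with the costs. -/
theorem tele {n : ℕ} (U : ℕ → ℝ) (R d p : ℝ) :
    ∑ t ∈ range n, R * (d * (U (t + 1) - U t + p)) = R * (d * (U n - U 0 + n * p)) := by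
  rw [← Finset.mul_sum, ← Finset.mul_sum, Finset.sum_add_distrib, Finset.sum_range_sub,
    Finset.sum_const, Finset.card_range, nsmul_eq_mul]

theorem swap3 {N n m : ℕ} (w : ℕ → ℝ) (F : ℕ → ℕ → ℕ → ℝ) :
    ∑ r ∈ range m, ∑ t ∈ range n, ∑ i ∈ Icc 1 N, w i * F i t r =
      ∑ i ∈ Icc 1 N, w i * ∑ t ∈ range n, ∑ r ∈ range m, F i t r := by
  rw [Finset.sum_comm]
  simp_rw [Finset.mul_sum]
  rw [Finset.sum_congr rfl (fun t _ => Finset.sum_comm), Finset.sum_comm]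

end MnAux

open MnAux in
/-- The main inequality. -/
theorem mainP (h1 : S_PcL) (h2 : S_PcR) (h3 : S_Tot) (h4 : S_TotR) (h5 : S_Num) (h6 : S_Zt)
    (h7 : S_Wn) : S_Main := by
  intro N n m w c v x f S O h hn hO hw hS hSO
  obtain ⟨hR4, hll, hnum⟩ := h5 n hn
  set R : ℝ := 4 + Real.sqrt (Real.log n) with hRdef
  have hnpos : (0 : ℝ) < n := by
    have : 0 < n := by omega
    exact_mod_cast this
  set p : ℝ := O / n with hpdef
  have hp : 0 < p := div_pos hO hnpos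
  have hnp : (n : ℝ) * p = O := by
    rw [hpdef]
    field_simp
  have hB : 0 ≤ 4 / 3 * O := by positivity
  have hK : (4 / 3 * O + p) / p = 1 + 4 * (n : ℝ) / 3 := by
    rw [hpdef]
    field_simp
    ring
  have hcost := cost_le h6 h hS hSO
  have hT := h3 N n m w c v x f S (4 / 3 * O) p O h hp hB hS hSO hcost
  have hTR := h4 N n m w c v x f S (4 / 3 * O) p O h hp hB hS hSO hcost
  rw [hK] at hT hTR
  set K : ℝ := Real.log (1 + 4 * (n : ℝ) / 3) with hKdef
  have hlog : 0 < Real.log R := Real.log_pos (by linarith)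
  have hlog25 : 0 < 25 / Real.log R := div_pos (by norm_num) hlog
  -- the sum of all steps
  have hsum : ∑ r ∈ range m, (x (r + 1) - x r) *
      ∑ t ∈ range n, ∑ k ∈ Icc 1 N, w k * |(f (t + 1) r k : ℝ) - (f t r k : ℝ)| ≤
      ∑ r ∈ range m, ∑ t ∈ range n,
        (R * ((x (r + 1) - x r) * (sm w ((x r + x (r + 1)) / 2) 1 (N + 1) (f (t + 1) r) -
          sm w ((x r + x (r + 1)) / 2) 1 (N + 1) (f t r) + p)) +
        25 / Real.log R *
          (∑ i ∈ Icc 1 N, w i * wl w p i (v t) (f t r) (f (t + 1) r) (x r) (x (r + 1)) +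
            ∑ i ∈ Icc 1 N, w i * wr N w p i (v t) (f t r) (f (t + 1) r) (x r) (x (r + 1)))) := by
    refine Finset.sum_le_sum fun r hr => ?_
    rw [Finset.mul_sum]
    refine Finset.sum_le_sum fun t ht => ?_
    exact one_step h1 h2 h6 h7 h hp hR4 hw (Finset.mem_range.mp ht) (Finset.mem_range.mp hr)
  -- the part with the costs
  have hcosts : ∑ r ∈ range m, ∑ t ∈ range n,
      R * ((x (r + 1) - x r) * (sm w ((x r + x (r + 1)) / 2) 1 (N + 1) (f (t + 1) r) -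
          sm w ((x r + x (r + 1)) / 2) 1 (N + 1) (f t r) + p)) ≤ 14 / 9 * R * O := by
    have hpiece : ∀ r ∈ range m, ∑ t ∈ range n,
        R * ((x (r + 1) - x r) * (sm w ((x r + x (r + 1)) / 2) 1 (N + 1) (f (t + 1) r) -
          sm w ((x r + x (r + 1)) / 2) 1 (N + 1) (f t r) + p)) ≤
        R * (4 / 3 * O + O) * (x (r + 1) - x r) := by
      intro r hr
      rw [Finset.mem_range] at hr
      have hmono := h.x_mono r hr
      have ht := tele (n := n)
        (fun t => sm w ((x r + x (r + 1)) / 2) 1 (N + 1) (f t r)) R (x (r + 1) - x r) p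
      rw [ht]
      have hz : sm w ((x r + x (r + 1)) / 2) 1 (N + 1) (f 0 r) = 0 :=
        sm_zero (fun k => h.zero r k hr)
      have hc := hcost n r le_rfl hr ((x r + x (r + 1)) / 2) (by linarith) (by linarith)
      rw [hz, hnp]
      have hd : 0 ≤ x (r + 1) - x r := by linarith
      have hR0 : 0 ≤ R := by linarith
      have hin : sm w ((x r + x (r + 1)) / 2) 1 (N + 1) (f n r) - 0 + O ≤ 4 / 3 * O + O := by
        linarith
      calc R * ((x (r + 1) - x r) *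
            (sm w ((x r + x (r + 1)) / 2) 1 (N + 1) (f n r) - 0 + O))
          ≤ R * ((x (r + 1) - x r) * (4 / 3 * O + O)) :=
            mul_le_mul_of_nonneg_left (mul_le_mul_of_nonneg_left hin hd) hR0
        _ = R * (4 / 3 * O + O) * (x (r + 1) - x r) := by ring
    calc _ ≤ ∑ r ∈ range m, R * (4 / 3 * O + O) * (x (r + 1) - x r) :=
          Finset.sum_le_sum hpiece
      _ = R * (4 / 3 * O + O) * (x m - x 0) := by
          rw [← Finset.mul_sum, Finset.sum_range_sub]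
      _ = 14 / 9 * R * O := by
          rw [h.x_last, h.x_zero]
          ring
  -- the crossings
  have hcr : ∑ r ∈ range m, ∑ t ∈ range n, 25 / Real.log R *
      (∑ i ∈ Icc 1 N, w i * wl w p i (v t) (f t r) (f (t + 1) r) (x r) (x (r + 1)) +
        ∑ i ∈ Icc 1 N, w i * wr N w p i (v t) (f t r) (f (t + 1) r) (x r) (x (r + 1))) ≤
      1300 * K / Real.log R * O := by
    have e : ∑ r ∈ range m, ∑ t ∈ range n, 25 / Real.log R *
        (∑ i ∈ Icc 1 N, w i * wl w p i (v t) (f t r) (f (t + 1) r) (x r) (x (r + 1)) +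
          ∑ i ∈ Icc 1 N, w i * wr N w p i (v t) (f t r) (f (t + 1) r) (x r) (x (r + 1))) =
        25 / Real.log R * (∑ i ∈ Icc 1 N, w i * ∑ t ∈ range n, ∑ r ∈ range m,
            wl w p i (v t) (f t r) (f (t + 1) r) (x r) (x (r + 1)) +
          ∑ i ∈ Icc 1 N, w i * ∑ t ∈ range n, ∑ r ∈ range m,
            wr N w p i (v t) (f t r) (f (t + 1) r) (x r) (x (r + 1))) := by
      rw [← swap3 w (fun i t r => wl w p i (v t) (f t r) (f (t + 1) r) (x r) (x (r + 1))),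
        ← swap3 w (fun i t r => wr N w p i (v t) (f t r) (f (t + 1) r) (x r) (x (r + 1)))]
      rw [← Finset.sum_add_distrib, Finset.mul_sum]
      refine Finset.sum_congr rfl fun r _ => ?_
      rw [← Finset.sum_add_distrib, Finset.mul_sum]
    rw [e]
    calc _ ≤ 25 / Real.log R * (26 * K * O + 26 * K * O) :=
          mul_le_mul_of_nonneg_left (add_le_add hT hTR) hlog25.le
      _ = 1300 * K / Real.log R * O := by
          field_simp
          ring
  have hsplit : ∑ r ∈ range m, ∑ t ∈ range n,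
        (R * ((x (r + 1) - x r) * (sm w ((x r + x (r + 1)) / 2) 1 (N + 1) (f (t + 1) r) -
          sm w ((x r + x (r + 1)) / 2) 1 (N + 1) (f t r) + p)) +
        25 / Real.log R *
          (∑ i ∈ Icc 1 N, w i * wl w p i (v t) (f t r) (f (t + 1) r) (x r) (x (r + 1)) +
            ∑ i ∈ Icc 1 N, w i * wr N w p i (v t) (f t r) (f (t + 1) r) (x r) (x (r + 1)))) =
      ∑ r ∈ range m, ∑ t ∈ range n,
        R * ((x (r + 1) - x r) * (sm w ((x r + x (r + 1)) / 2) 1 (N + 1) (f (t + 1) r) -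
          sm w ((x r + x (r + 1)) / 2) 1 (N + 1) (f t r) + p)) +
      ∑ r ∈ range m, ∑ t ∈ range n, 25 / Real.log R *
        (∑ i ∈ Icc 1 N, w i * wl w p i (v t) (f t r) (f (t + 1) r) (x r) (x (r + 1)) +
          ∑ i ∈ Icc 1 N, w i * wr N w p i (v t) (f t r) (f (t + 1) r) (x r) (x (r + 1))) := by
    rw [← Finset.sum_add_distrib]
    refine Finset.sum_congr rfl fun r _ => ?_
    rw [← Finset.sum_add_distrib]
  calc _ ≤ _ := hsum
    _ ≤ 14 / 9 * R * O + 1300 * K / Real.log R * O := by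
        rw [hsplit]
        exact add_le_add hcosts hcr
    _ = (14 / 9 * R + 1300 * K / Real.log R) * O := by ring
    _ ≤ 16000 / 3 * (Real.log n / Real.log (Real.log n)) * O :=
        mul_le_mul_of_nonneg_right hnum hO.le

end Pool.Agent.MP_a4c1f4_lc.LM
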