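import Pool.Agent.Lib.MP_a4c1f4_lc.LM.SpecL

/-!
Online matching on the line: the rule depends measurably on the tilt.
-/

set_option autoImplicit false

namespace Pool.Agent.MP_a4c1f4_lc.LM

open Finset MeasureTheory

namespace MsbAux

/-- the tilted cost is continuous in the tilt -/
theorem ph_cont {m : ℕ} (s : Fin m → ℝ) (u : List (Fin m)) (l : List ℝ) :
    Continuous (fun θ : ℝ => Ph s θ u l) := by
  unfold Ph
  exact continuous_const.add (continuous_id.mul continuous_const)

/-- the tilts for which `j` is a best site form a measurable set -/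
theorem best_meas {m : ℕ} (s : Fin m → ℝ) (cap : Fin m → ℕ) (u : List (Fin m)) (l : List ℝ)
    (x : ℝ) (j : Fin m) : MeasurableSet {θ : ℝ | best s cap θ u l x j} := by
  have h1 : {θ : ℝ | best s cap θ u l x j} = {θ : ℝ | u.count j < cap j} ∩
      ⋂ i : Fin m, {θ : ℝ | u.count i < cap i → Ph s θ (j :: u) (x :: l) ≤ Ph s θ (i :: u) (x :: l)} := by
    ext θ
    simp only [best, Set.mem_ofPred_eq, Set.mem_inter_iff, Set.mem_iInter]
  rw [h1]
  refine (MeasurableSet.const _).inter (MeasurableSet.iInter fun i => ?_)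
  by_cases h : u.count i < cap i
  · have h2 : {θ : ℝ | u.count i < cap i → Ph s θ (j :: u) (x :: l) ≤ Ph s θ (i :: u) (x :: l)} =
        {θ : ℝ | Ph s θ (j :: u) (x :: l) ≤ Ph s θ (i :: u) (x :: l)} := by
      ext θ
      simp only [Set.mem_ofPred_eq, h, true_imp_iff]
    rw [h2]
    exact (isClosed_le (ph_cont s _ _) (ph_cont s _ _)).measurableSet
  · have h2 : {θ : ℝ | u.count i < cap i → Ph s θ (j :: u) (x :: l) ≤ Ph s θ (i :: u) (x :: l)} =
        Set.univ := by
      ext θ
      simp only [Set.mem_ofPred_eq, h, false_imp_iff, Set.mem_univ]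
    rw [h2]
    exact MeasurableSet.univ

open Classical in
/-- the first site of a set of sites -/
noncomputable def fst {m : ℕ} (hm : 0 < m) (q : Fin m → Prop) : Fin m :=
  if h : (univ.filter (fun j => q j)).Nonempty then (univ.filter (fun j => q j)).min' h else ⟨0, hm⟩

theorem pick_eq {m : ℕ} (hm : 0 < m) (s : Fin m → ℝ) (cap : Fin m → ℕ) (θ : ℝ)
    (u : List (Fin m)) (l : List ℝ) (x : ℝ) :
    pick hm s cap θ u l x = fst hm (fun j => best s cap θ u l x j) := rfl

theorem pick_meas {m : ℕ} (hm : 0 < m) (s : Fin m → ℝ) (cap : Fin m → ℕ) (u : List (Fin m))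
    (l : List ℝ) (x : ℝ) : Measurable (fun θ : ℝ => pick hm s cap θ u l x) := by
  have h1 : Measurable (fun θ : ℝ => fun j : Fin m => best s cap θ u l x j) :=
    measurable_pi_iff.2 fun j => measurableSet_setOfPred.1 (best_meas s cap u l x j)
  have h2 : Measurable (fst hm : (Fin m → Prop) → Fin m) := Measurable.of_discrete
  exact h2.comp h1

theorem pick_set {m : ℕ} (hm : 0 < m) (s : Fin m → ℝ) (cap : Fin m → ℕ) (u : List (Fin m))
    (l : List ℝ) (x : ℝ) (j : Fin m) : MeasurableSet {θ : ℝ | pick hm s cap θ u l x = j} :=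
  pick_meas hm s cap u l x (MeasurableSet.of_discrete (s := {j}))

theorem run_set {m : ℕ} (hm : 0 < m) (s : Fin m → ℝ) (cap : Fin m → ℕ) (l : List ℝ) :
    ∀ u : List (Fin m), MeasurableSet {θ : ℝ | run hm s cap θ l = u} := by
  induction l with
  | nil =>
    intro u
    simp only [run]
    exact MeasurableSet.const _
  | cons x l ih =>
    intro u
    cases u with
    | nil =>
      have h1 : {θ : ℝ | run hm s cap θ (x :: l) = []} = ∅ := by
        ext θ
        simp [run]
      rw [h1]
      exact MeasurableSet.empty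
    | cons j u =>
      have h1 : {θ : ℝ | run hm s cap θ (x :: l) = j :: u} =
          {θ : ℝ | pick hm s cap θ u l x = j} ∩ {θ : ℝ | run hm s cap θ l = u} := by
        ext θ
        simp only [run, Set.mem_ofPred_eq, Set.mem_inter_iff, List.cons.injEq]
        constructor
        · rintro ⟨h2, h3⟩
          rw [h3] at h2
          exact ⟨h2, h3⟩
        · rintro ⟨h2, h3⟩
          refine ⟨?_, h3⟩
          rw [h3]
          exact h2
      rw [h1]
      exact (pick_set hm s cap u l x j).inter (ih u)

end MsbAux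

/-- The rule depends measurably on the tilt. -/
theorem msbP : T_Msb := by
  intro m hm s cap x l
  refine measurable_to_countable' fun j => ?_
  have h1 : (fun θ : ℝ => rule hm s cap θ x l) ⁻¹' {j} = ⋃ u : List (Fin m),
      {θ : ℝ | run hm s cap θ l = u} ∩ {θ : ℝ | pick hm s cap θ u l x = j} := by
    ext θ
    simp only [rule, Set.mem_preimage, Set.mem_singleton_iff, Set.mem_iUnion, Set.mem_inter_iff,
      Set.mem_ofPred_eq]
    constructor
    · intro h
      exact ⟨_, rfl, h⟩
    · rintro ⟨u, h2, h3⟩
      rw [h2]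
      exact h3
  rw [h1]
  exact MeasurableSet.iUnion fun u => (MsbAux.run_set hm s cap l u).inter
    (MsbAux.pick_set hm s cap u l x j)

end Pool.Agent.MP_a4c1f4_lc.LM
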