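import Pool.Agent.Lib.MP_a4c1f4_lc.LM.SpecL

set_option autoImplicit false

namespace Pool.Agent.MP_a4c1f4_lc.LM

open Finset

namespace MshAux

/-- The continuation of the chain `p` behind the node `N` with the step `δ`. -/
noncomputable def ext (p : ℕ → ℝ) (N : ℕ) (δ : ℝ) (k : ℕ) : ℝ :=
  if k ≤ N then p k else p N + ((k : ℝ) - N) * δ

theorem ext_le (p : ℕ → ℝ) (N : ℕ) (δ : ℝ) {k : ℕ} (h : k ≤ N) : ext p N δ k = p k := if_pos h

theorem ext_ge (p : ℕ → ℝ) (N : ℕ) (δ : ℝ) {k : ℕ} (h : N ≤ k) :
    ext p N δ k = p N + ((k : ℝ) - N) * δ := by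
  rcases h.eq_or_lt with h1 | h1
  · subst h1
    rw [ext_le p N δ le_rfl]
    ring
  · exact if_neg (by omega)

theorem ext_diff (p : ℕ → ℝ) (N : ℕ) (δ : ℝ) (k : ℕ) :
    (k < N ∧ ext p N δ (k + 1) - ext p N δ k = p (k + 1) - p k) ∨
      (N ≤ k ∧ ext p N δ (k + 1) - ext p N δ k = δ) := by
  rcases lt_or_ge k N with h | h
  · left
    exact ⟨h, by rw [ext_le p N δ (by omega), ext_le p N δ (by omega)]⟩
  · right
    refine ⟨h, ?_⟩
    rw [ext_ge p N δ (by omega), ext_ge p N δ h]
    push_cast
    ring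

theorem chain (η : ℝ) (hη : 0 < η) (X : Finset ℝ) : X.Nonempty →
    ∃ (p : ℕ → ℝ) (N : ℕ), StrictMono p ∧ (∀ k, p (k + 1) - p k ≤ η) ∧
      (∀ x ∈ X, ∃ k, k ≤ N ∧ p k = x) ∧ p N ∈ X := by
  classical
  induction X using Finset.induction_on_max with
  | empty => intro h; exact absurd h Finset.not_nonempty_empty
  | insert a s ha ih =>
    intro _
    rcases s.eq_empty_or_nonempty with hs | hs
    · subst hs
      refine ⟨fun k => a + k * η, 0, ?_, ?_, ?_, ?_⟩
      · refine strictMono_nat_of_lt_succ fun k => ?_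
        push_cast
        nlinarith
      · intro k
        push_cast
        nlinarith
      · intro x hx
        rw [Finset.mem_insert] at hx
        rcases hx with hx | hx
        · exact ⟨0, le_rfl, by simp [hx]⟩
        · exact absurd hx (Finset.notMem_empty x)
      · simp
    · obtain ⟨p, N, hp, hgap, hX, hN⟩ := ih hs
      have hD : 0 < a - p N := sub_pos.2 (ha _ hN)
      have hq : 0 < (a - p N) / η := div_pos hD hη
      have hM : 0 < ⌈(a - p N) / η⌉₊ := Nat.ceil_pos.2 hq
      set M := ⌈(a - p N) / η⌉₊ with hMdef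
      have hM' : (0 : ℝ) < M := by exact_mod_cast hM
      have hle : (a - p N) / η ≤ M := Nat.le_ceil _
      set δ : ℝ := (a - p N) / M with hδ
      have hδ0 : 0 < δ := div_pos hD hM'
      have hδη : δ ≤ η := by
        rw [hδ, div_le_iff₀ hM']
        rw [div_le_iff₀ hη] at hle
        linarith
      have hend : ext p N δ (N + M) = a := by
        rw [ext_ge p N δ (Nat.le_add_right _ _), hδ]
        push_cast
        field_simp
        ring
      refine ⟨ext p N δ, N + M, ?_, ?_, ?_, ?_⟩
      · refine strictMono_nat_of_lt_succ fun k => ?_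
        rcases ext_diff p N δ k with h | h
        · have := hp (Nat.lt_succ_self k)
          have h2 := h.2
          have h3 : p k < p (k + 1) := this
          linarith
        · linarith [h.2]
      · intro k
        rcases ext_diff p N δ k with h | h
        · rw [h.2]
          exact hgap k
        · rw [h.2]
          exact hδη
      · intro x hx
        rw [Finset.mem_insert] at hx
        rcases hx with hx | hx
        · exact ⟨N + M, le_rfl, by rw [hend, hx]⟩
        · obtain ⟨k, hk, hkx⟩ := hX x hx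
          exact ⟨k, by omega, by rw [ext_le p N δ hk, hkx]⟩
      · rw [hend]
        exact Finset.mem_insert_self a s

end MshAux

open Classical in
theorem mshP : T_Msh := by
  intro m s L η hη
  have hne : (Finset.univ.image s ∪ L.toFinset ∪ {(0 : ℝ)}).Nonempty :=
    ⟨0, Finset.mem_union_right _ (Finset.mem_singleton_self _)⟩
  obtain ⟨p, N, hp, hgap, hX, -⟩ := MshAux.chain η hη _ hne
  have h1 : ∀ j : Fin m, ∃ k, k ≤ N ∧ p k = s j := fun j =>
    hX (s j) (Finset.mem_union_left _ (Finset.mem_union_left _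
      (Finset.mem_image_of_mem s (Finset.mem_univ j))))
  have h2 : ∀ x : ℝ, ∃ k, x ∈ L → k ≤ N ∧ p k = x := by
    intro x
    by_cases hx : x ∈ L
    · obtain ⟨k, hk⟩ := hX x (Finset.mem_union_left _ (Finset.mem_union_right _
        (List.mem_toFinset.2 hx)))
      exact ⟨k, fun _ => hk⟩
    · exact ⟨0, fun h => absurd h hx⟩
  choose σ hσ using h1
  choose nd hnd using h2
  refine ⟨N, p, σ, nd, ⟨hp, fun j => ⟨(hσ j).2, (hσ j).1⟩, fun x hx => ⟨(hnd x hx).2, (hnd x hx).1⟩⟩,
    ?_⟩
  intro k
  unfold wd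
  rcases k with _ | k
  · simp only [Nat.zero_sub, sub_self]
    exact hη.le
  · simp only [Nat.add_sub_cancel]
    exact hgap k

end Pool.Agent.MP_a4c1f4_lc.LM
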