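import Pool.Agent.Lib.MP_a4c1f4_lc.LM.Spec

/-! # MP_a4c1f4_lc, project LM, Nn: bounds of `cl` -/

set_option autoImplicit false

namespace Pool.Agent.MP_a4c1f4_lc.LM

open Finset

namespace NnAux

lemma ps_nonneg (θ : ℝ) (j : ℤ) (h : |θ| ≤ 1) : 0 ≤ ps θ j := by
  unfold ps
  have h1 : -(|θ| * |(j : ℝ)|) ≤ θ * (j : ℝ) := by
    rw [← abs_mul]; exact neg_abs_le _
  have h2 : |θ| * |(j : ℝ)| ≤ 1 * |(j : ℝ)| := mul_le_mul_of_nonneg_right h (abs_nonneg _)
  linarith

lemma sm_split (w : ℕ → ℝ) (θ : ℝ) (N i : ℕ) (f : ℕ → ℤ) (h1 : 1 ≤ i) (h2 : i ≤ N) :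
    sm w θ 1 (N + 1) f = sm w θ 1 i f + sm w θ i (N + 1) f := by
  unfold sm
  exact (sum_Ico_consecutive _ h1 (by omega)).symm

lemma sm_congr (w : ℕ → ℝ) (θ : ℝ) (a b : ℕ) (f g : ℕ → ℤ) (h : ∀ k, a ≤ k → k < b → f k = g k) :
    sm w θ a b f = sm w θ a b g := by
  unfold sm
  refine sum_congr rfl fun k hk => ?_
  rw [mem_Ico] at hk
  rw [h k hk.1 hk.2]

lemma sm_nonneg (w : ℕ → ℝ) (θ : ℝ) (a b : ℕ) (f : ℕ → ℤ) (hw : ∀ k, 0 ≤ w k) (h : |θ| ≤ 1) :
    0 ≤ sm w θ a b f := by
  unfold sm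
  exact sum_nonneg fun k _ => mul_nonneg (hw k) (ps_nonneg θ _ h)

lemma glue (N : ℕ) (z f g : ℕ → ℤ) (v i : ℕ) (hi : i ≤ N) (hf : Fz N z f) (hg : Fz N (dec z v) g)
    (hfg : f i ≤ g i) : Fz N z (fun k => if k < i then g k else f k) := by
  obtain ⟨f0, fN, fz⟩ := hf
  obtain ⟨g0, gN, gz⟩ := hg
  refine ⟨?_, ?_, ?_⟩
  · by_cases h : 0 < i
    · simp [h, g0]
    · simp [h, f0]
  · intro k hk
    have : ¬ k < i := by omega
    simp [this, fN k hk]
  · intro k hk
    have h1 := fz k hk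
    have h2 := gz k hk
    simp only [dec] at h2
    have h3 : g (k + 1) - g k ≤ z k := by
      split_ifs at h2 <;> omega
    by_cases a : k + 1 < i
    · have b : k < i := by omega
      simp only [a, b, if_true]
      exact h3
    · by_cases b : k < i
      · have c : k + 1 = i := by omega
        simp only [a, b, if_true, if_false]
        rw [c] at h3 ⊢
        omega
      · simp only [a, b, if_false]
        exact h1

end NnAux

open NnAux in
theorem nnP : S_Nn := by
  constructor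
  · intro N w z θ v i f g _ hi hf hg hfg
    unfold cl
    by_cases h1 : 1 ≤ i
    · have h2 := hf.2 _ (glue N z f g v i hi hf.1 hg hfg)
      rw [sm_split w θ N i f h1 hi, sm_split w θ N i _ h1 hi,
        sm_congr w θ 1 i (fun k => if k < i then g k else f k) g
          (fun k _ hk => by simp [hk]),
        sm_congr w θ i (N + 1) (fun k => if k < i then g k else f k) f
          (fun k hk _ => by simp [not_lt.mpr hk])] at h2
      linarith
    · have h2 : i = 0 := by omega
      subst h2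
      simp [sm]
  · intro N w θ i f g hw hθ hi
    unfold cl
    have h1 := sm_nonneg w θ 1 i f hw hθ
    by_cases h2 : 1 ≤ i
    · rw [sm_split w θ N i g h2 hi]
      have h3 := sm_nonneg w θ i (N + 1) g hw hθ
      linarith
    · have h3 : i = 0 := by omega
      subst h3
      have h4 := sm_nonneg w θ 1 (N + 1) g hw hθ
      simp only [sm] at h4 ⊢
      simpa using h4

end Pool.Agent.MP_a4c1f4_lc.LM
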