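import Pool.Agent.Lib.MP_a4c1f4_lc.LM.Spec

set_option autoImplicit false

/-! The numerical inequality at the end of the analysis. -/

namespace Pool.Agent.MP_a4c1f4_lc.LM

open Finset

namespace NumAux

/-- `2 log t ≤ t` -/
theorem two_log_le {t : ℝ} (ht : 0 < t) : 2 * Real.log t ≤ t := by
  have h1 : Real.log t = Real.log (t / 2) + Real.log 2 := by
    rw [← Real.log_mul (by positivity) (by norm_num)]
    congr 1
    ring
  have h2 : Real.log (t / 2) ≤ t / 2 - 1 := Real.log_le_sub_one_of_pos (by positivity)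
  have h3 := Real.log_two_lt_d9
  rw [h1]
  linarith

theorem log_le_sqrt {y : ℝ} (hy : 0 < y) : Real.log y ≤ Real.sqrt y := by
  have hs : 0 < Real.sqrt y := Real.sqrt_pos.2 hy
  have h1 : Real.log y = 2 * Real.log (Real.sqrt y) := by
    rw [Real.log_sqrt hy.le]
    ring
  rw [h1]
  exact two_log_le hs

/-- the inequality for `y = log n` -/
theorem main {y A : ℝ} (hy : 1 < y) (hA : A ≤ 3 / 2 * y) :
    14 / 9 * (4 + Real.sqrt y) + 1300 * A / Real.log (4 + Real.sqrt y) ≤
      16000 / 3 * (y / Real.log y) := by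
  have hy0 : 0 < y := by linarith
  have hL : 0 < Real.log y := Real.log_pos hy
  have hs : 0 < Real.sqrt y := Real.sqrt_pos.2 hy0
  -- the denominator
  have hden : Real.log y / 2 ≤ Real.log (4 + Real.sqrt y) := by
    have h1 : Real.log y / 2 = Real.log (Real.sqrt y) := by
      rw [Real.log_sqrt hy0.le]
    rw [h1]
    exact Real.log_le_log hs (by linarith)
  have hdpos : 0 < Real.log (4 + Real.sqrt y) := lt_of_lt_of_le (by linarith) hden
  -- the second term
  have h2 : 1300 * A / Real.log (4 + Real.sqrt y) ≤ 3900 * (y / Real.log y) := by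
    rw [div_le_iff₀ hdpos]
    have h3 : 3900 * (y / Real.log y) * (Real.log y / 2) = 1950 * y := by
      field_simp
      ring
    have h4 : 3900 * (y / Real.log y) * (Real.log y / 2) ≤
        3900 * (y / Real.log y) * Real.log (4 + Real.sqrt y) :=
      mul_le_mul_of_nonneg_left hden (by positivity)
    linarith
  -- the first term
  have h5 : 1 ≤ y / Real.log y := by
    rw [le_div_iff₀ hL]
    have := Real.log_le_sub_one_of_pos hy0
    linarith
  have h6 : Real.sqrt y ≤ y / Real.log y := by
    rw [le_div_iff₀ hL]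
    have h7 := mul_le_mul_of_nonneg_left (log_le_sqrt hy0) hs.le
    rw [Real.mul_self_sqrt hy0.le] at h7
    exact h7
  linarith

end NumAux

open NumAux in
theorem numP : S_Num := by
  intro n hn
  have hnR : (3 : ℝ) ≤ (n : ℝ) := by exact_mod_cast hn
  have hn0 : (0 : ℝ) < (n : ℝ) := by linarith
  have hl3 : Real.log 3 ≤ Real.log n := Real.log_le_log (by norm_num) hnR
  have h13 : 1 < Real.log 3 := by
    rw [Real.lt_log_iff_exp_lt (by norm_num)]
    have := Real.exp_one_lt_d9
    linarith
  have hy : 1 < Real.log n := lt_of_lt_of_le h13 hl3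
  refine ⟨?_, Real.log_pos hy, ?_⟩
  · have := Real.sqrt_nonneg (Real.log n)
    linarith
  · refine main hy ?_
    have h1 : Real.log (1 + 4 * (n : ℝ) / 3) ≤ Real.log (5 / 3 * (n : ℝ)) :=
      Real.log_le_log (by positivity) (by linarith)
    have h2 : Real.log (5 / 3 * (n : ℝ)) = Real.log (5 / 3) + Real.log n :=
      Real.log_mul (by norm_num) hn0.ne'
    have h3 : 2 * Real.log (5 / 3) ≤ Real.log 3 := by
      have h4 : 2 * Real.log (5 / 3) = Real.log ((5 / 3) ^ 2) := by
        rw [Real.log_pow]
        norm_num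
      rw [h4]
      exact Real.log_le_log (by norm_num) (by norm_num)
    linarith

end Pool.Agent.MP_a4c1f4_lc.LM
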