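import Pool.Agent.Lib.MP_a4c1f4_lc.LM.Spec

/-!
Online matching on the line, project LM: ops 1 and 2 of the step lemma.
-/

set_option autoImplicit false

namespace Pool.Agent.MP_a4c1f4_lc.LM

open Finset

namespace OpAux

/-- Convexity of the tilted absolute value. -/
theorem ps_conv (θ : ℝ) (a b : ℤ) (h : a + 1 ≤ b) : ps θ (a + 1) + ps θ (b - 1) ≤ ps θ a + ps θ b := by
  have h' : (a : ℝ) + 1 ≤ (b : ℝ) := by exact_mod_cast h
  unfold ps
  push_cast
  rcases abs_cases ((a : ℝ) + 1) with ⟨h1, _⟩ | ⟨h1, _⟩ <;>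
  rcases abs_cases ((b : ℝ) - 1) with ⟨h2, _⟩ | ⟨h2, _⟩ <;>
  rcases abs_cases (a : ℝ) with ⟨h3, _⟩ | ⟨h3, _⟩ <;>
  rcases abs_cases (b : ℝ) with ⟨h4, _⟩ | ⟨h4, _⟩ <;>
  rw [h1, h2, h3, h4] <;> linarith

/-- The exchange argument. -/
theorem exch (N : ℕ) (w : ℕ → ℝ) (z : ℕ → ℤ) (θ : ℝ) (f g f' g' : ℕ → ℤ) (hw : ∀ k, 0 ≤ w k)
    (hf : Opt N w z θ f) (hf' : Fz N z f')
    (hp : ∀ k, ps θ (g' k) + ps θ (f' k) ≤ ps θ (g k) + ps θ (f k)) :
    sm w θ 1 (N + 1) g' ≤ sm w θ 1 (N + 1) g := by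
  have h1 := hf.2 f' hf'
  have h2 : sm w θ 1 (N + 1) g' + sm w θ 1 (N + 1) f' ≤ sm w θ 1 (N + 1) g + sm w θ 1 (N + 1) f := by
    unfold sm
    rw [← sum_add_distrib, ← sum_add_distrib]
    refine sum_le_sum fun k _ => ?_
    have := mul_le_mul_of_nonneg_left (hp k) (hw k)
    linarith
  linarith

/-- Op 1. -/
theorem op1 (N : ℕ) (w : ℕ → ℝ) (z : ℕ → ℤ) (θ : ℝ) (v : ℕ) (f g : ℕ → ℤ)
    (hw : ∀ k, 0 ≤ w k) (hv : v ≤ N) (hf : Opt N w z θ f) (hg : Fz N (dec z v) g) :
    ∃ g1, Fz N (dec z v) g1 ∧ sm w θ 1 (N + 1) g1 ≤ sm w θ 1 (N + 1) g ∧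
      (∀ k, k ≤ v → g1 k ≤ f k + 1) ∧ ∀ k, v < k → g1 k ≤ f k := by
  obtain ⟨hf0, hfN, hfi⟩ := hf.1
  obtain ⟨hg0, hgN, hgi⟩ := hg
  refine ⟨fun k => if k ≤ v then min (g k) (f k + 1) else min (g k) (f k), ⟨?_, ?_, ?_⟩, ?_, ?_, ?_⟩
  · simp only [Nat.zero_le, if_true, hf0, hg0]
    omega
  · intro k hk
    have h1 := hfN k hk
    have h2 := hgN k hk
    dsimp only
    split_ifs <;> omega
  · intro k hk
    have h1 := hfi k hk
    have h2 := hgi k hk
    simp only [dec] at h2 ⊢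
    split_ifs at h2 ⊢ <;> omega
  · refine exch N w z θ f g (fun k => if k ≤ v then max (f k) (g k - 1) else max (f k) (g k)) _ hw hf
      ⟨?_, ?_, ?_⟩ ?_
    · simp only [Nat.zero_le, if_true, hf0, hg0]
      omega
    · intro k hk
      have h1 := hfN k hk
      have h2 := hgN k hk
      dsimp only
      split_ifs <;> omega
    · intro k hk
      have h1 := hfi k hk
      have h2 := hgi k hk
      simp only [dec] at h2 ⊢
      split_ifs at h2 ⊢ <;> omega
    · intro k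
      by_cases hkv : k ≤ v
      · rw [if_pos hkv, if_pos hkv]
        rcases le_total (g k) (f k + 1) with h | h
        · rw [min_eq_left h, max_eq_left (by omega)]
        · rw [min_eq_right h, max_eq_right (by omega)]
          have := ps_conv θ (f k) (g k) h
          linarith
      · rw [if_neg hkv, if_neg hkv]
        rcases le_total (g k) (f k) with h | h
        · rw [min_eq_left h, max_eq_left h]
        · rw [min_eq_right h, max_eq_right h]
          linarith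
  · intro k hk
    dsimp only
    rw [if_pos hk]
    exact min_le_right _ _
  · intro k hk
    dsimp only
    rw [if_neg (by omega)]
    exact min_le_right _ _

/-- Op 2. -/
theorem op2 (N : ℕ) (w : ℕ → ℝ) (z : ℕ → ℤ) (θ : ℝ) (v : ℕ) (f g : ℕ → ℤ)
    (hw : ∀ k, 0 ≤ w k) (hv : v ≤ N) (hf : Opt N w z θ f) (hg : Fz N (dec z v) g)
    (hl : ∀ k, k ≤ v → g k ≤ f k + 1) (hr : ∀ k, v < k → g k ≤ f k) :
    ∃ g2, Fz N (dec z v) g2 ∧ sm w θ 1 (N + 1) g2 ≤ sm w θ 1 (N + 1) g ∧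
      (∀ k, k ≤ v → f k ≤ g2 k ∧ g2 k ≤ f k + 1) ∧ ∀ k, v < k → f k - 1 ≤ g2 k ∧ g2 k ≤ f k := by
  obtain ⟨hf0, hfN, hfi⟩ := hf.1
  obtain ⟨hg0, hgN, hgi⟩ := hg
  refine ⟨fun k => if k ≤ v then max (g k) (f k) else max (g k) (f k - 1), ⟨?_, ?_, ?_⟩, ?_, ?_, ?_⟩
  · simp only [Nat.zero_le, if_true, hf0, hg0]
    omega
  · intro k hk
    have h1 := hfN k hk
    have h2 := hgN k hk
    dsimp only
    split_ifs <;> omega
  · intro k hk
    have h1 := hfi k hk
    have h2 := hgi k hk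
    simp only [dec] at h2 ⊢
    split_ifs at h2 ⊢ <;> omega
  · refine exch N w z θ f g (fun k => if k ≤ v then min (f k) (g k) else min (f k) (g k + 1)) _ hw hf
      ⟨?_, ?_, ?_⟩ ?_
    · simp only [Nat.zero_le, if_true, hf0, hg0]
      omega
    · intro k hk
      have h1 := hfN k hk
      have h2 := hgN k hk
      dsimp only
      split_ifs <;> omega
    · intro k hk
      have h1 := hfi k hk
      have h2 := hgi k hk
      simp only [dec] at h2 ⊢
      split_ifs at h2 ⊢ <;> omega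
    · intro k
      by_cases hkv : k ≤ v
      · rw [if_pos hkv, if_pos hkv]
        rcases le_total (g k) (f k) with h | h
        · rw [max_eq_right h, min_eq_right h]
          linarith
        · rw [max_eq_left h, min_eq_left h]
      · rw [if_neg hkv, if_neg hkv]
        rcases le_total (f k - 1) (g k) with h | h
        · rw [max_eq_left h, min_eq_left (by omega)]
        · rw [max_eq_right h, min_eq_right (by omega)]
          have := ps_conv θ (g k) (f k) (by omega)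
          linarith
  · intro k hk
    have := hl k hk
    dsimp only
    rw [if_pos hk]
    omega
  · intro k hk
    have := hr k hk
    dsimp only
    rw [if_neg (by omega)]
    omega

end OpAux

theorem opP : S_Op := by
  intro N w z θ v f g hw hv hf hg
  obtain ⟨g1, hg1, hs1, hl, hr⟩ := OpAux.op1 N w z θ v f g hw hv hf hg
  obtain ⟨g2, hg2, hs2, hl2, hr2⟩ := OpAux.op2 N w z θ v f g1 hw hv hf hg1 hl hr
  exact ⟨g2, hg2, hs2.trans hs1, hl2, hr2⟩

end Pool.Agent.MP_a4c1f4_lc.LM
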