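import Pool.Agent.Lib.MP_a4c1f4_lc.LM.SpecL

set_option autoImplicit false
set_option linter.all false

/-!
The cost of an assignment is at least the norm of its flow.
-/

namespace Pool.Agent.MP_a4c1f4_lc.LM

open Finset
open Pool.Agent.MP_a4c1f4_lc.Dbl.L (cost)

namespace OptLAux

theorem wd_nonneg {p : ℕ → ℝ} (hp : StrictMono p) (k : ℕ) : 0 ≤ wd p k := by
  unfold wd
  have := hp.monotone (Nat.sub_le k 1)
  linarith

theorem cost_cons {m : ℕ} (s : Fin m → ℝ) (x : ℝ) (l : List ℝ) (j : Fin m) (τ : List (Fin m)) :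
    cost s (x :: l) (j :: τ) = dist x (s j) + cost s l τ := by
  simp [cost]

end OptLAux

theorem optP (h1 : T_Fl) (h2 : T_Dst) : T_Opt := by
  intro m s L N p σ nd τ l hch
  obtain ⟨hz, hstep, -⟩ := h1
  induction τ generalizing l with
  | nil =>
    intro hl hlen
    have hl0 : l = [] := by
      cases l with
      | nil => rfl
      | cons a b => simp at hlen
    subst hl0
    simp [hz m σ nd, cost]
  | cons j τ ih =>
    intro hl hlen
    cases l with
    | nil => simp at hlen
    | cons x l =>
      have hx : x ∈ L := hl x (by simp)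
      have hlen' : τ.length = l.length := by simpa using hlen
      have ih' := ih l (fun y hy => hl y (by simp [hy])) hlen'
      have hd := h2 N p (nd x) (σ j) (fl σ nd τ l) hch.mono (hch.req x hx).2 (hch.site j).2
      have hdist : dist x (s j) = |p (nd x) - p (σ j)| := by
        rw [(hch.req x hx).1, (hch.site j).1, Real.dist_eq]
      rw [OptLAux.cost_cons, hdist, ← hd, hstep m σ nd j τ x l]
      calc ∑ k ∈ Icc 1 N, wd p k * |(pth (nd x) (σ j) (fl σ nd τ l) k : ℝ)|
          ≤ ∑ k ∈ Icc 1 N, (wd p k * |(pth (nd x) (σ j) (fl σ nd τ l) k : ℝ) - (fl σ nd τ l k : ℝ)|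
              + wd p k * |(fl σ nd τ l k : ℝ)|) := by
            refine Finset.sum_le_sum fun k _ => ?_
            rw [← mul_add]
            refine mul_le_mul_of_nonneg_left ?_ (OptLAux.wd_nonneg hch.mono k)
            have := abs_add_le ((pth (nd x) (σ j) (fl σ nd τ l) k : ℝ) - (fl σ nd τ l k : ℝ))
              (fl σ nd τ l k : ℝ)
            simpa using this
        _ = _ := Finset.sum_add_distrib
        _ ≤ _ := by linarith

end Pool.Agent.MP_a4c1f4_lc.LM
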