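import Pool.Agent.Lib.MP_a4c1f4_lc.LM.Spec

set_option autoImplicit false
set_option linter.all false

/-!
Order lemma, case A (`orAP : S_OrA`).
-/

namespace Pool.Agent.MP_a4c1f4_lc.LM

open Finset

namespace OrAAux

/-- The surplus of the bounds between the nodes `k` and `i`. -/
def MM (z z' : ℕ → ℤ) (i k : ℕ) : ℤ := ∑ l ∈ Ico k i, (z l - z' l)

lemma MM_nonneg (z z' : ℕ → ℤ) (i k : ℕ) (h : ∀ l, z' l ≤ z l) : 0 ≤ MM z z' i k := by
  unfold MM
  exact Finset.sum_nonneg (fun l _ => sub_nonneg.mpr (h l))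

lemma MM_self (z z' : ℕ → ℤ) (i : ℕ) : MM z z' i i = 0 := by
  unfold MM
  simp

lemma MM_succ (z z' : ℕ → ℤ) (i k : ℕ) (hk : k < i) :
    MM z z' i k = (z k - z' k) + MM z z' i (k + 1) := by
  unfold MM
  rw [Finset.sum_eq_sum_Ico_succ_bot hk]

lemma dec_ne (z : ℕ → ℤ) (v k : ℕ) (h : k ≠ v) : dec z v k = z k := by
  unfold dec
  simp [h]

/-- The pointwise inequality. -/
lemma pt (θ θ' : ℝ) (h : θ ≤ θ') (a b M : ℤ) (hM : 0 ≤ M) :
    ps θ (max a (b - M)) + ps θ' (min b (a + M)) ≤ ps θ a + ps θ' b := by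
  unfold ps
  rcases le_or_gt (b - M) a with h1 | h1
  · have e1 : max a (b - M) = a := max_eq_left h1
    have e2 : min b (a + M) = b := min_eq_left (by omega)
    rw [e1, e2]
  · have e1 : max a (b - M) = b - M := max_eq_right h1.le
    have e2 : min b (a + M) = a + M := min_eq_right (by omega)
    rw [e1, e2]
    push_cast
    have h1' : (a : ℝ) + M ≤ b := by exact_mod_cast (by omega : a + M ≤ b)
    have hM' : (0 : ℝ) ≤ M := by exact_mod_cast hM
    have habs : |(b : ℝ) - M| + |(a : ℝ) + M| ≤ |(a : ℝ)| + |(b : ℝ)| := by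
      rcases abs_cases ((b : ℝ) - M) with ⟨p1, p2⟩ | ⟨p1, p2⟩ <;>
      rcases abs_cases ((a : ℝ) + M) with ⟨q1, q2⟩ | ⟨q1, q2⟩ <;>
      rcases abs_cases (a : ℝ) with ⟨r1, r2⟩ | ⟨r1, r2⟩ <;>
      rcases abs_cases (b : ℝ) with ⟨s1, s2⟩ | ⟨s1, s2⟩ <;>
      linarith
    have hlin : θ * ((b : ℝ) - M) + θ' * ((a : ℝ) + M) ≤ θ * a + θ' * b := by
      nlinarith [mul_nonneg (sub_nonneg.mpr h) (sub_nonneg.mpr h1')]
    linarith

/-- Splicing: the optimal flow is not better than a competitor which differs from it only on the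
edges below `i`. -/
lemma splice (N : ℕ) (w : ℕ → ℝ) (z : ℕ → ℤ) (θ : ℝ) (g X : ℕ → ℤ) (i : ℕ) (hi1 : 1 ≤ i)
    (hiN : i ≤ N) (hg : Opt N w z θ g) (hX0 : X 0 = 0) (hXi : X i = g i)
    (hinc : ∀ k, k < i → X (k + 1) - X k ≤ z k) : sm w θ 1 i g ≤ sm w θ 1 i X := by
  obtain ⟨⟨hg0, hgN, hgi⟩, hopt⟩ := hg
  have hF : Fz N z (fun k => if k < i then X k else g k) := by
    refine ⟨?_, ?_, ?_⟩
    · have : (0 : ℕ) < i := hi1
      simp only [this, if_true]
      exact hX0
    · intro k hk
      have : ¬ k < i := by omega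
      simp only [this, if_false]
      exact hgN k hk
    · intro k hk
      by_cases h1 : k + 1 < i
      · have h2 : k < i := by omega
        simp only [h1, h2, if_true]
        exact hinc k h2
      · by_cases h2 : k < i
        · have h3 : k + 1 = i := by omega
          simp only [h1, h2, if_true, if_false]
          have := hinc k h2
          rw [h3] at this ⊢
          rw [← hXi]
          exact this
        · simp only [h1, h2, if_false]
          exact hgi k hk
  have h := hopt _ hF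
  unfold sm at h ⊢
  have s1 : ∀ F : ℕ → ℝ, ∑ k ∈ Ico 1 (N + 1), F k = ∑ k ∈ Ico 1 i, F k + ∑ k ∈ Ico i (N + 1), F k :=
    fun F => (Finset.sum_Ico_consecutive F hi1 (by omega)).symm
  rw [s1, s1] at h
  have e1 : ∑ k ∈ Ico 1 i, w k * ps θ ((fun k => if k < i then X k else g k) k) =
      ∑ k ∈ Ico 1 i, w k * ps θ (X k) := by
    apply Finset.sum_congr rfl
    intro k hk
    have : k < i := (Finset.mem_Ico.mp hk).2
    simp only [this, if_true]
  have e2 : ∑ k ∈ Ico i (N + 1), w k * ps θ ((fun k => if k < i then X k else g k) k) =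
      ∑ k ∈ Ico i (N + 1), w k * ps θ (g k) := by
    apply Finset.sum_congr rfl
    intro k hk
    have : ¬ k < i := not_lt.mpr (Finset.mem_Ico.mp hk).1
    simp only [this, if_false]
  rw [e1, e2] at h
  linarith

end OrAAux

open OrAAux

theorem orAP : S_OrA := by
  intro N w z z' θ θ' v v' i j f g f' g' hw hz hθ hiv hiv' hiN hf hg hf' hg' ef eg ef' eg'
  obtain ⟨hf0, hfN, hfi⟩ := hf
  obtain ⟨hg'0, hg'N, hg'i⟩ := hg'
  have hi1 : 1 ≤ i := by
    rcases Nat.eq_zero_or_pos i with h | h
    · exfalso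
      have h1 : g 0 = 0 := hg.1.1
      rw [h] at ef eg
      omega
    · exact h
  have hX : sm w θ 1 i g ≤ sm w θ 1 i (fun k => max (f k) (g' k - MM z z' i k)) := by
    apply splice N w (dec z v) θ g _ i hi1 hiN hg
    · have := MM_nonneg z z' i 0 hz
      simp only [hf0, hg'0]
      omega
    · simp only [MM_self, ef, eg', eg]
      omega
    · intro k hk
      have h1 := hfi k (by omega)
      have h2 := hg'i k (by omega)
      rw [dec_ne z' v' k (by omega)] at h2
      rw [dec_ne z v k (by omega)]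
      have h3 := MM_succ z z' i k hk
      omega
  have hY : sm w θ' 1 i f' ≤ sm w θ' 1 i (fun k => min (g' k) (f k + MM z z' i k)) := by
    apply splice N w z' θ' f' _ i hi1 hiN hf'
    · have := MM_nonneg z z' i 0 hz
      simp only [hf0, hg'0]
      omega
    · simp only [MM_self, ef, eg', ef']
      omega
    · intro k hk
      have h1 := hfi k (by omega)
      have h2 := hg'i k (by omega)
      rw [dec_ne z' v' k (by omega)] at h2
      have h3 := MM_succ z z' i k hk
      omega
  have hP : sm w θ 1 i (fun k => max (f k) (g' k - MM z z' i k)) +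
      sm w θ' 1 i (fun k => min (g' k) (f k + MM z z' i k)) ≤ sm w θ 1 i f + sm w θ' 1 i g' := by
    unfold sm
    rw [← Finset.sum_add_distrib, ← Finset.sum_add_distrib]
    apply Finset.sum_le_sum
    intro k _
    have h1 := pt θ θ' hθ (f k) (g' k) (MM z z' i k) (MM_nonneg z z' i k hz)
    have h2 := mul_le_mul_of_nonneg_left h1 (hw k)
    rw [mul_add, mul_add] at h2
    exact h2
  unfold cl
  linarith

end Pool.Agent.MP_a4c1f4_lc.LM
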