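import Pool.Agent.Lib.MP_a4c1f4_lc.LM.Spec

set_option autoImplicit false
set_option linter.all false

/-!
Order lemma, case B.
-/

namespace Pool.Agent.MP_a4c1f4_lc.LM

open Finset

namespace OrBAux

/-- The accumulated difference of the bounds from the node `i` on. -/
def M (y z' : ℕ → ℤ) (i k : ℕ) : ℤ := ∑ l ∈ Ico i k, (y l - z' l)

theorem M_nonneg (y z' : ℕ → ℤ) (h : ∀ k, z' k ≤ y k) (i k : ℕ) : 0 ≤ M y z' i k :=
  Finset.sum_nonneg (fun l _ => by have := h l; omega)

theorem M_self (y z' : ℕ → ℤ) (i : ℕ) : M y z' i i = 0 := by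
  unfold M
  simp

theorem M_succ (y z' : ℕ → ℤ) (i k : ℕ) (h : i ≤ k) :
    M y z' i (k + 1) = M y z' i k + (y k - z' k) := by
  unfold M
  rw [Finset.sum_Ico_succ_top h]

theorem sm_split (w : ℕ → ℝ) (θ : ℝ) (N i : ℕ) (F : ℕ → ℤ) (h1 : 1 ≤ i) (h2 : i ≤ N) :
    sm w θ 1 (N + 1) F = sm w θ 1 i F + w i * ps θ (F i) + sm w θ (i + 1) (N + 1) F := by
  unfold sm
  rw [← Finset.sum_Ico_consecutive (fun k => w k * ps θ (F k)) (show 1 ≤ i + 1 by omega)
    (show i + 1 ≤ N + 1 by omega), Finset.sum_Ico_succ_top h1]

theorem sm_congr (w : ℕ → ℝ) (θ : ℝ) (a b : ℕ) (F G : ℕ → ℤ)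
    (h : ∀ k, a ≤ k → k < b → F k = G k) : sm w θ a b F = sm w θ a b G := by
  unfold sm
  refine Finset.sum_congr rfl (fun k hk => ?_)
  rw [Finset.mem_Ico] at hk
  rw [h k hk.1 hk.2]

theorem ps_pair (θ θ' : ℝ) (hθ : θ' ≤ θ) (a b m : ℤ) (hm : 0 ≤ m) :
    ps θ' (max a (b - m)) + ps θ (min b (a + m)) ≤ ps θ' a + ps θ b := by
  rcases le_or_gt (b - m) a with h | h
  · rw [max_eq_left h, min_eq_left (show b ≤ a + m by omega)]
  · rw [max_eq_right h.le, min_eq_right (show a + m ≤ b by omega)]
    have habs : |b - m| + |a + m| ≤ |a| + |b| := by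
      rcases abs_cases (b - m) with h1 | h1 <;> rcases abs_cases (a + m) with h2 | h2 <;>
        rcases abs_cases a with h3 | h3 <;> rcases abs_cases b with h4 | h4 <;> omega
    have habs' : |((b - m : ℤ) : ℝ)| + |((a + m : ℤ) : ℝ)| ≤ |(a : ℝ)| + |(b : ℝ)| := by
      exact_mod_cast habs
    have hlin : θ' * ((b - m : ℤ) : ℝ) + θ * ((a + m : ℤ) : ℝ) ≤ θ' * (a : ℝ) + θ * (b : ℝ) := by
      have h5 : (0 : ℝ) < ((b - m - a : ℤ) : ℝ) := by
        have : 0 < b - m - a := by omega
        exact_mod_cast this
      push_cast at h5 ⊢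
      nlinarith [mul_nonneg (sub_nonneg.mpr hθ) h5.le]
    unfold ps
    linarith

end OrBAux

open OrBAux in
theorem orBP : S_OrB := by
  intro N w z z' θ θ' v v' i j f g f' g' hw hz hθ hiv hiv' hiN hf hg hf' hg' hfi hgi hfi' hgi'
  have hi : 1 ≤ i := by
    rcases Nat.eq_zero_or_pos i with h0 | h0
    · exfalso
      subst h0
      have h1 := hf.1
      have h2 := hg.1.1
      omega
    · exact h0
  set y : ℕ → ℤ := dec z v with hy
  have hy' : ∀ k, y k = z k - if k = v then 1 else 0 := fun k => rfl
  have hd' : ∀ k, dec z' v' k ≤ z' k := by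
    intro k
    simp only [dec]
    split_ifs <;> omega
  have hM0 := M_nonneg y z' hz i
  have hMs := M_self y z' i
  have hM1 := M_succ y z' i
  -- the flow `X`
  have hX : Fz N z' (fun k => if k < i then g' k else if k = i then j + 1 else
      max (f' k) (g k - M y z' i k)) := by
    refine ⟨?_, ?_, ?_⟩
    · simp only []
      rw [if_pos (show 0 < i by omega)]
      exact hg'.1
    · intro k hk
      simp only []
      rw [if_neg (by omega), if_neg (by omega)]
      have h1 := hf'.1.2.1 k hk
      have h2 := hg.1.2.1 k hk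
      have h3 := hM0 k
      rw [h1, h2]
      omega
    · intro k hk
      simp only []
      have a1 := hg'.2.2 k hk
      have a2 := hd' k
      have a3 := hf'.1.2.2 k hk
      have a4 := hg.1.2.2 k hk
      rcases lt_trichotomy k i with h | h | h
      · rw [if_pos h]
        rcases Nat.lt_or_ge (k + 1) i with h' | h'
        · rw [if_pos h']
          omega
        · have h'' : k + 1 = i := by omega
          rw [if_neg (by omega), if_pos h'', ← hgi', ← h'']
          omega
      · subst h
        rw [if_neg (by omega), if_neg (by omega), if_neg (by omega), if_pos rfl]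
        have h5 := hM1 k le_rfl
        omega
      · rw [if_neg (by omega), if_neg (by omega), if_neg (by omega), if_neg (by omega)]
        have h5 := hM1 k h.le
        omega
  have hY : Fz N y (fun k => if k < i then f k else if k = i then j else
      min (g k) (f' k + M y z' i k)) := by
    refine ⟨?_, ?_, ?_⟩
    · simp only []
      rw [if_pos (show 0 < i by omega)]
      exact hf.1
    · intro k hk
      simp only []
      rw [if_neg (by omega), if_neg (by omega)]
      have h1 := hf'.1.2.1 k hk
      have h2 := hg.1.2.1 k hk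
      have h3 := hM0 k
      rw [h1, h2]
      omega
    · intro k hk
      simp only []
      have a1 := hf.2.2 k hk
      have a3 := hf'.1.2.2 k hk
      have a4 := hg.1.2.2 k hk
      rcases lt_trichotomy k i with h | h | h
      · have a5 : y k = z k := by
          rw [hy' k, if_neg (show k ≠ v by omega)]
          omega
        rw [if_pos h]
        rcases Nat.lt_or_ge (k + 1) i with h' | h'
        · rw [if_pos h']
          omega
        · have h'' : k + 1 = i := by omega
          rw [if_neg (by omega), if_pos h'', ← hfi, ← h'']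
          omega
      · subst h
        rw [if_neg (by omega), if_neg (by omega), if_neg (by omega), if_pos rfl]
        have h5 := hM1 k le_rfl
        omega
      · rw [if_neg (by omega), if_neg (by omega), if_neg (by omega), if_neg (by omega)]
        have h5 := hM1 k h.le
        omega
  have oX := hf'.2 _ hX
  have oY := hg.2 _ hY
  rw [sm_split w θ' N i _ hi hiN, sm_split w θ' N i _ hi hiN] at oX
  rw [sm_split w θ N i _ hi hiN, sm_split w θ N i _ hi hiN] at oY
  rw [sm_congr w θ' 1 i (fun k => if k < i then g' k else if k = i then j + 1 else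
      max (f' k) (g k - M y z' i k)) g' (fun k _ hk => if_pos hk)] at oX
  rw [sm_congr w θ 1 i (fun k => if k < i then f k else if k = i then j else
      min (g k) (f' k + M y z' i k)) f (fun k _ hk => if_pos hk)] at oY
  rw [sm_congr w θ' (i + 1) (N + 1) (fun k => if k < i then g' k else if k = i then j + 1 else
      max (f' k) (g k - M y z' i k)) (fun k => max (f' k) (g k - M y z' i k))
      (fun k hk _ => by rw [if_neg (by omega), if_neg (by omega)])] at oX
  rw [sm_congr w θ (i + 1) (N + 1) (fun k => if k < i then f k else if k = i then j else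
      min (g k) (f' k + M y z' i k)) (fun k => min (g k) (f' k + M y z' i k))
      (fun k hk _ => by rw [if_neg (by omega), if_neg (by omega)])] at oY
  simp only [lt_self_iff_false, if_false, if_true] at oX oY
  rw [hfi'] at oX
  rw [hgi] at oY
  have hsum : sm w θ' (i + 1) (N + 1) (fun k => max (f' k) (g k - M y z' i k)) +
      sm w θ (i + 1) (N + 1) (fun k => min (g k) (f' k + M y z' i k)) ≤
      sm w θ' (i + 1) (N + 1) f' + sm w θ (i + 1) (N + 1) g := by
    unfold sm
    rw [← Finset.sum_add_distrib, ← Finset.sum_add_distrib]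
    refine Finset.sum_le_sum (fun k _ => ?_)
    rw [← mul_add, ← mul_add]
    exact mul_le_mul_of_nonneg_left (ps_pair θ θ' hθ (f' k) (g k) (M y z' i k) (hM0 k)) (hw k)
  have hedge : 0 ≤ w i * (ps θ' j - ps θ' (j + 1) - ps θ j + ps θ (j + 1)) := by
    refine mul_nonneg (hw i) ?_
    unfold ps
    push_cast
    linarith
  unfold cl
  nlinarith [oX, oY, hsum, hedge]

end Pool.Agent.MP_a4c1f4_lc.LM
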