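import Pool.Agent.Lib.MP_a4c1f4_lc.LM.Spec

set_option autoImplicit false

/-!
Project LM, module Ors: an ordered sum.
-/

namespace Pool.Agent.MP_a4c1f4_lc.LM

open Finset

open Classical in
theorem orsP : S_Ors := by
  intro n m P lo hi B p hp hB h1 h2
  have key : ∀ k, k ≤ n → ∀ B' : ℝ, 0 ≤ B' →
      (∀ t r, t < k → r < m → P t r → hi t r ≤ B') →
      ∑ t ∈ range k, ∑ r ∈ range m,
        (if P t r then Real.log (hi t r + p) - Real.log (lo t r + p) else 0) ≤
          Real.log (B' + p) - Real.log p := by
    intro k
    induction k with
    | zero =>
      intro _ B' hB' _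
      have := Real.log_le_log hp (show p ≤ B' + p by linarith)
      simp only [range_zero, sum_empty]
      linarith
    | succ k ih =>
      intro hk B' hB' hb
      rw [sum_range_succ]
      have inner : ∀ l, l ≤ m → ∀ B'' : ℝ, 0 ≤ B'' →
          (∀ t r, t < k → r < m → P t r → hi t r ≤ B'') →
          (∀ r, r < l → P k r → hi k r ≤ B'') →
          ∑ t ∈ range k, ∑ r ∈ range m,
            (if P t r then Real.log (hi t r + p) - Real.log (lo t r + p) else 0) +
          ∑ r ∈ range l, (if P k r then Real.log (hi k r + p) - Real.log (lo k r + p) else 0) ≤
            Real.log (B'' + p) - Real.log p := by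
        intro l
        induction l with
        | zero =>
          intro _ B'' hB'' hb1 _
          simp only [range_zero, sum_empty, add_zero]
          exact ih (by omega) B'' hB'' hb1
        | succ l ihl =>
          intro hl B'' hB'' hb1 hb2
          rw [sum_range_succ]
          by_cases hP : P k l
          · obtain ⟨h3, h4, h5⟩ := h1 k l (by omega) (by omega) hP
            have h6 := ihl (by omega) (lo k l) h3
              (fun t r ht hr hPt => h2 t r k l (by omega) hr (by omega) (by omega) hPt hP
                (Or.inl ht))
              (fun r hr hPr => h2 k r k l (by omega) (by omega) (by omega) (by omega) hPr hP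
                (Or.inr ⟨rfl, hr⟩))
            have h7 : hi k l ≤ B'' := hb2 l (by omega) hP
            have h8 : Real.log (hi k l + p) ≤ Real.log (B'' + p) :=
              Real.log_le_log (by linarith) (by linarith)
            rw [if_pos hP]
            linarith
          · have h6 := ihl (by omega) B'' hB'' hb1 (fun r hr hPr => hb2 r (by omega) hPr)
            rw [if_neg hP]
            linarith
      exact inner m le_rfl B' hB' (fun t r ht hr hPt => hb t r (by omega) hr hPt)
        (fun r hr hPr => hb k r (by omega) hr hPr)
  have h9 := key n le_rfl B hB (fun t r ht hr hPt => (h1 t r ht hr hPt).2.2)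
  rw [Real.log_div (by linarith) (by linarith)]
  exact h9

end Pool.Agent.MP_a4c1f4_lc.LM
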