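import Pool.Agent.Lib.MP_a4c1f4_lc.LM.Spec

set_option autoImplicit false
set_option linter.all false

/-!
Online matching on the line: one step on one piece, to the left (statement `S_PcL` of the Spec).
-/

namespace Pool.Agent.MP_a4c1f4_lc.LM

open Finset

namespace PcLAux

theorem res (h : ℕ → ℝ) (s v i : ℕ) :
    ∑ k ∈ Ico 1 i, (if s < k ∧ k ≤ v then h k else 0) =
      ∑ k ∈ Ico (s + 1) (min i (v + 1)), h k := by
  rw [← Finset.sum_filter]
  apply Finset.sum_congr _ (fun _ _ => rfl)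
  ext k
  simp only [mem_filter, mem_Ico]
  omega

theorem pth_eq (v s : ℕ) (hs : s ≤ v) (f : ℕ → ℤ) (k : ℕ) :
    pth v s f k = f k + (if s < k ∧ k ≤ v then 1 else 0) := by
  unfold pth
  have h' : ¬ (v < k ∧ k ≤ s) := by omega
  simp only [h', if_false, sub_zero]

theorem dfe (w : ℕ → ℝ) (θ : ℝ) (s v : ℕ) (hs : s ≤ v) (f : ℕ → ℤ) (k : ℕ) :
    w k * ps θ (pth v s f k) - w k * ps θ (f k) =
      if s < k ∧ k ≤ v then w k * (|(f k : ℝ) + 1| - |(f k : ℝ)| + θ) else 0 := by
  rw [pth_eq v s hs f k]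
  unfold ps
  by_cases h : s < k ∧ k ≤ v
  · rw [if_pos h, if_pos h]
    push_cast
    ring
  · rw [if_neg h, if_neg h]
    simp

theorem dsm (w : ℕ → ℝ) (θ : ℝ) (s v : ℕ) (hs : s ≤ v) (f : ℕ → ℤ) (i : ℕ) :
    sm w θ 1 i (pth v s f) - sm w θ 1 i f =
      ∑ k ∈ Ico (s + 1) (min i (v + 1)), w k * (|(f k : ℝ) + 1| - |(f k : ℝ)| + θ) := by
  unfold sm
  rw [← Finset.sum_sub_distrib, ← res]
  exact Finset.sum_congr rfl (fun k _ => dfe w θ s v hs f k)

theorem fz_dec (N : ℕ) (z : ℕ → ℤ) (v : ℕ) (g : ℕ → ℤ) (h : Fz N (dec z v) g) : Fz N z g := by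
  refine ⟨h.1, h.2.1, fun k hk => le_trans (h.2.2 k hk) ?_⟩
  unfold dec
  split_ifs <;> omega

theorem int_aff (A l c R a b : ℝ) :
    IntervalIntegrable (fun θ => R * (A + l * θ + c)) MeasureTheory.volume a b ∧
    ∫ θ in a..b, R * (A + l * θ + c) = R * ((b - a) * (A + l * ((a + b) / 2) + c)) := by
  have hi : IntervalIntegrable (fun θ : ℝ => R * (A + l * θ + c)) MeasureTheory.volume a b :=
    (by fun_prop : Continuous (fun θ : ℝ => R * (A + l * θ + c))).intervalIntegrable a b
  refine ⟨hi, ?_⟩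
  have hd : ∀ x ∈ Set.uIcc a b, HasDerivAt (fun θ : ℝ => R * ((A + c) * θ + l * (θ ^ 2 / 2)))
      (R * (A + l * x + c)) x := by
    intro x _
    have h1 : HasDerivAt (fun θ : ℝ => θ ^ 2 / 2) x x := by
      have := ((hasDerivAt_id x).pow 2).div_const 2
      simpa using this
    have h2 : HasDerivAt (fun θ : ℝ => (A + c) * θ) (A + c) x := by
      simpa using (hasDerivAt_id x).const_mul (A + c)
    have h3 := ((h2.add (h1.const_mul l)).const_mul R)
    have e : R * (A + l * x + c) = R * (A + c + l * x) := by ring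
    rw [e]
    exact h3
  rw [intervalIntegral.integral_eq_sub_of_hasDerivAt hd hi]
  ring

end PcLAux

open PcLAux in
theorem pcLP (h1 : S_Nn) (h2 : S_Pth) (h3 : S_Int) : S_PcL := by
  intro N w z v s f g p R a b hw hwp hp hR hv hs ha hab hb hf hg hgp
  subst hgp
  obtain ⟨W, hW⟩ : ∃ W : ℕ → ℝ, W = fun k => w (s + 1 + k) := ⟨_, rfl⟩
  obtain ⟨d, hd⟩ : ∃ d : ℕ → ℝ, d = fun k => |(f (s + 1 + k) : ℝ) + 1| - |(f (s + 1 + k) : ℝ)| :=
    ⟨_, rfl⟩
  obtain ⟨M, hM⟩ : ∃ M : ℕ, M = v - s := ⟨_, rfl⟩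
  obtain ⟨A, hA⟩ : ∃ A : ℕ → ℝ, A = fun i => ∑ k ∈ range i, W k * d k := ⟨_, rfl⟩
  obtain ⟨L, hL⟩ : ∃ L : ℕ → ℝ, L = fun i => ∑ k ∈ range i, W k := ⟨_, rfl⟩
  have hW0 : ∀ k, 0 ≤ W k := fun k => by rw [hW]; exact hw _
  have hWp : ∀ k, W k ≤ p := fun k => by rw [hW]; exact hwp _
  have hL0 : ∀ i, 0 ≤ L i := fun i => by
    rw [hL]; exact Finset.sum_nonneg (fun k _ => hW0 k)
  have hd1 : ∀ k, |d k| ≤ 1 := by
    intro k
    rw [hd]
    have := abs_abs_sub_abs_le_abs_sub ((f (s + 1 + k) : ℝ) + 1) (f (s + 1 + k) : ℝ)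
    simpa using this
  have hAL : ∀ i θ, ∑ k ∈ range i, W k * (d k + θ) = A i + L i * θ := by
    intro i θ
    rw [hA, hL]
    simp only [mul_add, sum_add_distrib, sum_mul]
  have hc : ∀ i, i ≤ M → ∀ θ, cl w (s + 1 + i) f (pth v s f) θ = A i + L i * θ := by
    intro i hi θ
    unfold cl
    rw [dsm w θ s v hs f, ← hAL i θ]
    have e : min (s + 1 + i) (v + 1) = s + 1 + i := by omega
    rw [e, Finset.sum_Ico_eq_sum_range]
    have e2 : s + 1 + i - (s + 1) = i := by omega
    rw [e2, hW, hd]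
  have hU : ∀ θ, sm w θ 1 (N + 1) (pth v s f) - sm w θ 1 (N + 1) f = A M + L M * θ := by
    intro θ
    rw [dsm w θ s v hs f, ← hAL M θ]
    have e : min (N + 1) (v + 1) = v + 1 := by omega
    rw [e, Finset.sum_Ico_eq_sum_range]
    have e2 : v + 1 - (s + 1) = M := by omega
    rw [e2, hW, hd]
  have hcn : ∀ i, i ≤ M → ∀ θ, a ≤ θ → θ ≤ b → 0 ≤ A i + L i * θ := by
    intro i hi θ h1' h2'
    rcases lt_or_eq_of_le hi with hlt | heq
    · rw [← hc i hi θ]
      refine h1.1 N w z θ v (s + 1 + i) f (pth v s f) hw (by omega) (hf θ h1' h2')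
        (hg θ h1' h2').1 ?_
      rw [pth_eq v s hs f]
      split_ifs <;> omega
    · rw [heq, ← hU θ]
      have := (hf θ h1' h2').2 (pth v s f) (fz_dec N z v _ (hg θ h1' h2').1)
      linarith
  have hlog : 0 < Real.log R := Real.log_pos (by linarith)
  -- the pointwise inequality
  have hpt : ∀ θ ∈ Set.Icc a b, L M ≤ R * (A M + L M * θ + p) +
      25 / Real.log R * ∑ i ∈ range M, W i * (L i / (A i + L i * θ + p)) := by
    intro θ hθ
    obtain ⟨hθ1, hθ2⟩ := hθ
    have hsum0 : 0 ≤ ∑ i ∈ range M, W i * (L i / (A i + L i * θ + p)) := by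
      apply Finset.sum_nonneg
      intro i hi
      have hi' : i ≤ M := (Finset.mem_range.mp hi).le
      exact mul_nonneg (hW0 i) (div_nonneg (hL0 i) (by linarith [hcn i hi' θ hθ1 hθ2]))
    have hU0 := hcn M le_rfl θ hθ1 hθ2
    by_cases hcase : L M ≤ R * (A M + L M * θ + p)
    · have : 0 ≤ 25 / Real.log R * ∑ i ∈ range M, W i * (L i / (A i + L i * θ + p)) :=
        mul_nonneg (by positivity) hsum0
      linarith
    · have key := h2 M W (fun k => d k + θ) p R hp hR
        (fun k _ => ⟨hW0 k, hWp k, by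
          have h5 := hd1 k
          rw [abs_le] at h5 ⊢
          constructor <;> linarith [h5.1, h5.2]⟩)
        (fun i hi => by rw [hAL i θ]; exact hcn i hi θ hθ1 hθ2)
        (by
          have e : ∑ k ∈ range M, W k = L M := by rw [hL]
          rw [hAL M θ, e]; linarith [not_le.mp hcase])
      have e : ∑ k ∈ range M, W k = L M := by rw [hL]
      have e3 : ∑ i ∈ range M, W i * (∑ k ∈ range i, W k) /
          (∑ k ∈ range i, W k * (d k + θ) + p) =
          ∑ i ∈ range M, W i * (L i / (A i + L i * θ + p)) := by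
        apply Finset.sum_congr rfl
        intro i _
        have e' : ∑ k ∈ range i, W k = L i := by rw [hL]
        rw [hAL i θ, e', mul_div_assoc]
      rw [e, e3] at key
      have h6 : L M ≤ 25 / Real.log R * ∑ i ∈ range M, W i * (L i / (A i + L i * θ + p)) := by
        rw [div_mul_eq_mul_div, le_div_iff₀ hlog]
        linarith
      have h7 : 0 ≤ R * (A M + L M * θ + p) := mul_nonneg (by linarith) (by linarith)
      linarith
  -- integrate
  have hint : ∀ i, i ≤ M →
      IntervalIntegrable (fun θ => W i * (L i / (A i + L i * θ + p))) MeasureTheory.volume a b ∧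
      ∫ θ in a..b, W i * (L i / (A i + L i * θ + p)) =
        W i * (Real.log (A i + L i * b + p) - Real.log (A i + L i * a + p)) := by
    intro i hi
    obtain ⟨q1, q2⟩ := h3 (A i) (L i) p a b hp (hL0 i) hab (hcn i hi a le_rfl hab)
    refine ⟨q1.const_mul (W i), ?_⟩
    rw [intervalIntegral.integral_const_mul, q2]
  have hintS : IntervalIntegrable
      (fun θ => ∑ i ∈ range M, W i * (L i / (A i + L i * θ + p))) MeasureTheory.volume a b := by
    have := IntervalIntegrable.sum (μ := MeasureTheory.volume) (a := a) (b := b) (range M)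
      (f := fun i θ => W i * (L i / (A i + L i * θ + p)))
      (fun i hi => (hint i (Finset.mem_range.mp hi).le).1)
    simpa [Finset.sum_fn] using this
  obtain ⟨ha1, ha2⟩ := int_aff (A M) (L M) p R a b
  have hmono := intervalIntegral.integral_mono_on hab
    (intervalIntegrable_const (c := L M)) (ha1.add (hintS.const_mul (25 / Real.log R))) hpt
  rw [intervalIntegral.integral_const] at hmono
  have hG : ∫ θ in a..b, ((fun θ => R * (A M + L M * θ + p)) θ +
      (fun θ => 25 / Real.log R * ∑ i ∈ range M, W i * (L i / (A i + L i * θ + p))) θ) =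
      R * ((b - a) * (A M + L M * ((a + b) / 2) + p)) + 25 / Real.log R *
        ∑ i ∈ range M, W i * (Real.log (A i + L i * b + p) - Real.log (A i + L i * a + p)) := by
    rw [intervalIntegral.integral_add ha1 (hintS.const_mul (25 / Real.log R)), ha2,
      intervalIntegral.integral_const_mul,
      intervalIntegral.integral_finset_sum
        (fun i hi => (hint i (Finset.mem_range.mp hi).le).1)]
    congr 2
    apply Finset.sum_congr rfl
    intro i hi
    exact (hint i (Finset.mem_range.mp hi).le).2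
  have hG' : (b - a) • L M ≤ R * ((b - a) * (A M + L M * ((a + b) / 2) + p)) + 25 / Real.log R *
        ∑ i ∈ range M, W i * (Real.log (A i + L i * b + p) - Real.log (A i + L i * a + p)) := by
    rw [← hG]; exact hmono
  -- the sums over the edges
  have hIcc : (Icc 1 N : Finset ℕ) = Ico 1 (N + 1) := by
    ext k; simp only [mem_Icc, mem_Ico]; omega
  have e : min (N + 1) (v + 1) = v + 1 := by omega
  have e2 : v + 1 - (s + 1) = M := by omega
  have hl : ∑ k ∈ Icc 1 N, w k * |((pth v s f k : ℤ) : ℝ) - (f k : ℝ)| = L M := by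
    have : ∀ k ∈ Icc 1 N, w k * |((pth v s f k : ℤ) : ℝ) - (f k : ℝ)| =
        if s < k ∧ k ≤ v then w k else 0 := by
      intro k _
      rw [pth_eq v s hs f k]
      by_cases h : s < k ∧ k ≤ v
      · rw [if_pos h, if_pos h]; push_cast; simp
      · rw [if_neg h, if_neg h]; simp
    rw [Finset.sum_congr rfl this, hIcc, res, e, Finset.sum_Ico_eq_sum_range, e2, hL, hW]
  have hr : ∑ i ∈ Icc 1 N, w i * wl w p i v f (pth v s f) a b =
      ∑ i ∈ range M, W i * (Real.log (A i + L i * b + p) - Real.log (A i + L i * a + p)) := by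
    have : ∀ i ∈ Icc 1 N, w i * wl w p i v f (pth v s f) a b =
        if s < i ∧ i ≤ v then w i * (Real.log (cl w i f (pth v s f) b + p) -
          Real.log (cl w i f (pth v s f) a + p)) else 0 := by
      intro i _
      unfold wl
      have hpe := pth_eq v s hs f i
      by_cases h : s < i ∧ i ≤ v
      · rw [if_pos h] at hpe ⊢
        rw [if_pos ⟨h.2, hpe⟩]
      · rw [if_neg h] at hpe ⊢
        rw [if_neg (by rw [hpe]; omega), mul_zero]
    rw [Finset.sum_congr rfl this, hIcc, res, e, Finset.sum_Ico_eq_sum_range, e2]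
    apply Finset.sum_congr rfl
    intro i hi
    have hi' : i ≤ M := (Finset.mem_range.mp hi).le
    rw [hc i hi' b, hc i hi' a, hW]
  rw [hl, hr, hU]
  rw [smul_eq_mul] at hG'
  exact hG'

end Pool.Agent.MP_a4c1f4_lc.LM
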