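import Pool.Agent.Lib.MP_a4c1f4_lc.LM.Spec

set_option autoImplicit false
set_option linter.all false

/-!
One step on one piece, to the right: by reflection.
-/

namespace Pool.Agent.MP_a4c1f4_lc.LM

open Finset

namespace PcRAux

theorem reidx (N : ℕ) (F : ℕ → ℝ) :
    ∑ k ∈ Icc 1 N, F (N + 1 - k) = ∑ k ∈ Icc 1 N, F k := by
  refine Finset.sum_nbij' (fun k => N + 1 - k) (fun k => N + 1 - k) ?_ ?_ ?_ ?_ ?_
  · intro a ha
    rw [Finset.mem_Icc] at ha ⊢
    omega
  · intro a ha
    rw [Finset.mem_Icc] at ha ⊢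
    omega
  · intro a ha
    rw [Finset.mem_Icc] at ha
    show N + 1 - (N + 1 - a) = a
    omega
  · intro a ha
    rw [Finset.mem_Icc] at ha
    show N + 1 - (N + 1 - a) = a
    omega
  · intro a ha
    rfl

theorem decr (N : ℕ) (z : ℕ → ℤ) (v : ℕ) (hv : v ≤ N) :
    ∀ k, k ≤ N → dec (fun k => z (N - k)) (N - v) k = dec z v (N - k) := by
  intro k hk
  unfold dec
  by_cases h : k = N - v
  · have h' : N - k = v := by omega
    simp only [h, h', if_true]
    have h2 : N - (N - v) = v := by omega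
    simp only [h2, if_true]
  · have h' : ¬ (N - k = v) := by omega
    simp only [h, h', if_false]

theorem pthr (N v s : ℕ) (f : ℕ → ℤ) (hv : v ≤ N) (hvs : v ≤ s) (hs : s ≤ N) :
    (fun k => -(pth v s f) (N + 1 - k)) = pth (N - v) (N - s) (fun k => -f (N + 1 - k)) := by
  funext k
  simp only [pth]
  split_ifs <;> omega

end PcRAux

open PcRAux in
theorem pcRP (h1 : S_PcL) (h2 : S_RfO) (h3 : S_RfW) : S_PcR := by
  intro N w z v s f g p R a b hw hwp hp hR hv hvs hs ha hab hb hf hg hgp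
  have key := h1 N (fun k => w (N + 1 - k)) (fun k => z (N - k)) (N - v) (N - s)
    (fun k => -f (N + 1 - k)) (fun k => -g (N + 1 - k)) p R (-b) (-a)
    (fun k => hw _) (fun k => hwp _) hp hR (by omega) (by omega) (by linarith) (by linarith)
    (by linarith)
    (fun θ hθ1 hθ2 => by
      have h := (h2 N w z (fun k => z (N - k)) (-θ) f (fun k _ => rfl)).2.2
        (hf (-θ) (by linarith) (by linarith))
      rwa [neg_neg] at h)
    (fun θ hθ1 hθ2 => by
      have h := (h2 N w (dec z v) (dec (fun k => z (N - k)) (N - v)) (-θ) g (decr N z v hv)).2.2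
        (hg (-θ) (by linarith) (by linarith))
      rwa [neg_neg] at h)
    (by rw [hgp]; exact pthr N v s f hv hvs hs)
  have e1 : (-a) - (-b) = b - a := by ring
  have e2 : ((-b) + (-a)) / 2 = -((a + b) / 2) := by ring
  have e3 := (h2 N w z (fun k => z (N - k)) ((a + b) / 2) f (fun k _ => rfl)).2.1
  have e4 := (h2 N w z (fun k => z (N - k)) ((a + b) / 2) g (fun k _ => rfl)).2.1
  have e5 : ∑ k ∈ Icc 1 N, (fun k => w (N + 1 - k)) k *
      |(((fun k => -g (N + 1 - k)) k : ℤ) : ℝ) - (((fun k => -f (N + 1 - k)) k : ℤ) : ℝ)| =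
      ∑ k ∈ Icc 1 N, w k * |(g k : ℝ) - (f k : ℝ)| := by
    rw [← reidx N (fun k => w k * |(g k : ℝ) - (f k : ℝ)|)]
    refine Finset.sum_congr rfl ?_
    intro k hk
    show w (N + 1 - k) * |((-g (N + 1 - k) : ℤ) : ℝ) - ((-f (N + 1 - k) : ℤ) : ℝ)| =
      w (N + 1 - k) * |((g (N + 1 - k) : ℤ) : ℝ) - ((f (N + 1 - k) : ℤ) : ℝ)|
    congr 1
    push_cast
    rw [← abs_neg]
    congr 1
    ring
  have e6 : ∑ i ∈ Icc 1 N, (fun k => w (N + 1 - k)) i *
      wl (fun k => w (N + 1 - k)) p i (N - v) (fun k => -f (N + 1 - k)) (fun k => -g (N + 1 - k))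
        (-b) (-a) = ∑ i ∈ Icc 1 N, w i * wr N w p i v f g a b := by
    rw [← reidx N (fun i => w i * wr N w p i v f g a b)]
    refine Finset.sum_congr rfl ?_
    intro i hi
    rw [Finset.mem_Icc] at hi
    show w (N + 1 - i) * _ = w (N + 1 - i) * wr N w p (N + 1 - i) v f g a b
    rw [h3 N w p (N + 1 - i) v f g a b (by omega) (by omega) hv]
    have e : N + 1 - (N + 1 - i) = i := by omega
    rw [e]
  rw [e1, e2, e3, e4, e5, e6] at key
  exact key

end Pool.Agent.MP_a4c1f4_lc.LM
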