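import Pool.Agent.Lib.MP_a4c1f4_lc.LM.SpecL

set_option autoImplicit false
set_option linter.all false

/-!
Online matching on the line: the list of used sites is constant on finitely many pieces of tilts.
-/

namespace Pool.Agent.MP_a4c1f4_lc.LM

open Finset MeasureTheory

namespace PcsAux

open Classical in
/-- The pick as a function of the predicate. -/
noncomputable def pk {m : ℕ} (hm : 0 < m) (p : Fin m → Prop) : Fin m :=
  if h : (univ.filter (fun j => p j)).Nonempty then
    (univ.filter (fun j => p j)).min' h else ⟨0, hm⟩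

theorem pick_eq {m : ℕ} (hm : 0 < m) (s : Fin m → ℝ) (cap : Fin m → ℕ) (θ : ℝ)
    (u : List (Fin m)) (l : List ℝ) (x : ℝ) :
    pick hm s cap θ u l x = pk hm (best s cap θ u l x) := rfl

theorem run_length {m : ℕ} (hm : 0 < m) (s : Fin m → ℝ) (cap : Fin m → ℕ) (θ : ℝ) :
    ∀ l : List ℝ, (run hm s cap θ l).length = l.length
  | [] => rfl
  | x :: l => by simp only [run, List.length_cons, run_length hm s cap θ l]

/-- The integral of the signed discrepancy. -/
noncomputable def bt {m : ℕ} (s : Fin m → ℝ) (u : List (Fin m)) (l : List ℝ) : ℝ :=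
  ∫ y, dv s u l y

/-- The integral of the absolute discrepancy. -/
noncomputable def al {m : ℕ} (s : Fin m → ℝ) (u : List (Fin m)) (l : List ℝ) : ℝ :=
  ∫ y, |dv s u l y|

theorem Ph_eq {m : ℕ} (s : Fin m → ℝ) (θ : ℝ) (u : List (Fin m)) (l : List ℝ) :
    Ph s θ u l = al s u l + θ * bt s u l := rfl

/-- The comparison of two affine functions can only change at one point. -/
theorem cmp (a b a' b' θ θ' : ℝ) (h : θ ≤ θ')
    (hy : (a' - a) / (b - b') < θ ∨ θ' < (a' - a) / (b - b')) :
    (a + θ * b ≤ a' + θ * b') ↔ (a + θ' * b ≤ a' + θ' * b') := by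
  rcases lt_trichotomy (b - b') 0 with hb | hb | hb
  · rw [div_lt_iff_of_neg hb, lt_div_iff_of_neg hb] at hy
    rcases hy with hy | hy
    · constructor <;> intro _ <;> nlinarith
    · constructor
      · intro _; nlinarith
      · intro _; nlinarith
  · have : b = b' := by linarith
    subst this
    constructor <;> intro _ <;> linarith
  · rw [div_lt_iff₀ hb, lt_div_iff₀ hb] at hy
    rcases hy with hy | hy
    · constructor
      · intro _; nlinarith
      · intro _; nlinarith
    · constructor <;> intro _ <;> nlinarith

/-- The point where the sites `i`, `j` change their order. -/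
noncomputable def pt {m : ℕ} (s : Fin m → ℝ) (l : List ℝ) (x : ℝ) (u : List (Fin m)) (i j : Fin m) :
    ℝ :=
  (al s (i :: u) (x :: l) - al s (j :: u) (x :: l)) /
    (bt s (j :: u) (x :: l) - bt s (i :: u) (x :: l))

open Classical in
/-- The finite set of exceptional tilts. -/
noncomputable def XX {m : ℕ} (s : Fin m → ℝ) : List ℝ → Finset ℝ
  | [] => ∅
  | x :: l => XX s l ∪ (List.finite_length_eq (Fin m) l.length).toFinset.biUnion
      (fun u => univ.biUnion (fun i => univ.image (fun j => pt s l x u i j)))

end PcsAux

open PcsAux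

theorem pcsP : T_Pcs := by
  intro m hm s cap l
  refine ⟨XX s l, ?_⟩
  intro θ θ' h
  induction l with
  | nil => intro _; rfl
  | cons x l ih =>
    intro hX
    have h1 : run hm s cap θ l = run hm s cap θ' l := ih (fun y hy => hX y (by
      simp only [XX, Finset.mem_union]
      exact Or.inl hy))
    have h2 : ∀ i j : Fin m, pt s l x (run hm s cap θ' l) i j < θ ∨
        θ' < pt s l x (run hm s cap θ' l) i j := by
      intro i j
      refine hX _ ?_
      simp only [XX, Finset.mem_union]
      refine Or.inr ?_
      refine Finset.mem_biUnion.2 ⟨run hm s cap θ' l, ?_, ?_⟩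
      · rw [Set.Finite.mem_toFinset]
        exact run_length hm s cap θ' l
      · refine Finset.mem_biUnion.2 ⟨i, Finset.mem_univ _, ?_⟩
        exact Finset.mem_image.2 ⟨j, Finset.mem_univ _, rfl⟩
    have h3 : pick hm s cap θ (run hm s cap θ' l) l x = pick hm s cap θ' (run hm s cap θ' l) l x := by
      rw [pick_eq, pick_eq]
      refine congrArg (pk hm) ?_
      funext j
      refine propext ?_
      unfold best
      refine and_congr Iff.rfl ?_
      refine forall_congr' fun i => ?_
      refine imp_congr Iff.rfl ?_
      rw [Ph_eq, Ph_eq, Ph_eq, Ph_eq]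
      exact cmp _ _ _ _ _ _ h (h2 i j)
    show pick hm s cap θ (run hm s cap θ l) l x :: run hm s cap θ l =
      pick hm s cap θ' (run hm s cap θ' l) l x :: run hm s cap θ' l
    rw [h1, h3]

end Pool.Agent.MP_a4c1f4_lc.LM
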