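import Pool.Agent.Lib.MP_a4c1f4_lc.LM.Spec

/-!
Online matching on the line, module Pm (helper78): serving from a node with slack is feasible, and
the bounds after one more request.
-/

set_option autoImplicit false

namespace Pool.Agent.MP_a4c1f4_lc.LM

open Finset

theorem pmP : S_Pm := by
  intro N z v s f hv hs hf hsl
  obtain ⟨h0, h1, h2⟩ := hf
  refine ⟨?_, ?_, ?_⟩
  · simp only [pth]
    split_ifs <;> omega
  · intro k hk
    have := h1 k hk
    simp only [pth]
    split_ifs <;> omega
  · intro k hk
    have h3 := h2 k hk
    by_cases hks : k = s
    · subst hks
      simp only [pth, dec]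
      split_ifs <;> omega
    · simp only [pth, dec]
      split_ifs <;> omega

theorem ztP : S_Zt := by
  constructor
  · intro c v t
    funext k
    simp only [zt, dec]
    rw [range_add_one, filter_insert]
    by_cases h : v t = k
    · rw [if_pos h, if_pos h.symm, card_insert_of_notMem (by simp)]
      push_cast
      ring
    · rw [if_neg h, if_neg (fun h' => h h'.symm)]
      ring
  · intro c v t t' k htt
    simp only [zt]
    have h := card_le_card (filter_subset_filter (fun a => v a = k) (range_subset_range.2 htt))
    omega

end Pool.Agent.MP_a4c1f4_lc.LM
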