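import Pool.Agent.Lib.MP_a4c1f4_lc.LM.Spec

set_option autoImplicit false

namespace Pool.Agent.MP_a4c1f4_lc.LM

open Finset

/-- One path, pure inequality. -/
theorem pthP : S_Pth := by
  intro M W D p R hp hR hW hc hU
  set U : ℝ := ∑ k ∈ range M, W k * D k with hUdef
  set a : ℝ := ∑ k ∈ range M, W k with hadef
  have hU0 : 0 ≤ U := hc M le_rfl
  set α : ℝ := U + p with hα
  have hαp : p ≤ α := by linarith
  have hα0 : 0 < α := by linarith
  have ha4 : 4 * α ≤ a := by nlinarith
  have ha0 : 0 < a := by linarith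
  -- `y i`, the total length from `i` on
  let y : ℕ → ℝ := fun i => a - ∑ k ∈ range i, W k
  have hy0 : y 0 = a := by simp [y]
  have hyM : y M = 0 := by simp [y, hadef]
  have hys : ∀ i, y i = y (i + 1) + W i := by
    intro i
    simp only [y, sum_range_succ]
    ring
  -- `c i ≤ U + (4/3) y i`
  have hci : ∀ i, i ≤ M → ∑ k ∈ range i, W k * D k ≤ U + 4 / 3 * y i ∧ 0 ≤ y i := by
    intro i hi
    have h1 : ∑ k ∈ range M, W k * D k =
        ∑ k ∈ range i, W k * D k + ∑ k ∈ Ico i M, W k * D k := by
      rw [sum_range_add_sum_Ico _ hi]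
    have h2 : ∑ k ∈ range M, W k = ∑ k ∈ range i, W k + ∑ k ∈ Ico i M, W k := by
      rw [sum_range_add_sum_Ico _ hi]
    have h3 : -(4 / 3 * ∑ k ∈ Ico i M, W k) ≤ ∑ k ∈ Ico i M, W k * D k := by
      rw [mul_sum, ← sum_neg_distrib]
      apply sum_le_sum
      intro k hk
      obtain ⟨hw0, -, hd⟩ := hW k (mem_Ico.1 hk).2
      have := (abs_le.1 hd).1
      nlinarith
    have h4 : 0 ≤ ∑ k ∈ Ico i M, W k :=
      sum_nonneg fun k hk => (hW k (mem_Ico.1 hk).2).1
    have h5 : y i = ∑ k ∈ Ico i M, W k := by
      simp only [y]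
      rw [hadef, h2]
      ring
    constructor
    · rw [h5, hUdef, h1]
      linarith
    · rw [h5]
      exact h4
  let G : ℝ → ℝ := fun t => Real.log (α + 4 / 3 * min t (a / 2))
  have hclaim : ∀ i, i < M → a * (9 / 112) * (G (y i) - G (y (i + 1))) ≤
      W i * (∑ k ∈ range i, W k) / (∑ k ∈ range i, W k * D k + p) := by
    intro i hi
    obtain ⟨hw0, hwp, -⟩ := hW i hi
    obtain ⟨h1, h2⟩ := hci i hi.le
    obtain ⟨-, h3⟩ := hci (i + 1) hi
    have hc0 : 0 ≤ ∑ k ∈ range i, W k * D k := hc i hi.le
    have hcp : 0 < ∑ k ∈ range i, W k * D k + p := by linarith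
    have hl0 : 0 ≤ ∑ k ∈ range i, W k :=
      sum_nonneg fun k hk => (hW k ((mem_range.1 hk).trans hi)).1
    by_cases hcase : a / 2 ≤ y (i + 1)
    · have h4 : a / 2 ≤ y i := by
        rw [hys i]
        linarith
      have h5 : G (y i) - G (y (i + 1)) = 0 := by
        simp only [G, min_eq_right hcase, min_eq_right h4, sub_self]
      rw [h5, mul_zero]
      positivity
    · push Not at hcase
      have hl : a / 4 ≤ ∑ k ∈ range i, W k := by
        have h4 : ∑ k ∈ range i, W k = a - y (i + 1) - W i := by
          have h5 := hys i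
          simp only [y] at h5 ⊢
          linarith
        rw [h4]
        linarith
      have hpos : 0 < α + 4 / 3 * y (i + 1) := by linarith
      have hpos' : 0 < α + 4 / 3 * y i := by linarith
      have h6 : G (y i) - G (y (i + 1)) ≤
          Real.log (α + 4 / 3 * y i) - Real.log (α + 4 / 3 * y (i + 1)) := by
        simp only [G]
        rw [min_eq_left hcase.le]
        have h7 : Real.log (α + 4 / 3 * min (y i) (a / 2)) ≤ Real.log (α + 4 / 3 * y i) := by
          apply Real.log_le_log
          · have : 0 ≤ min (y i) (a / 2) := le_min h2 (by linarith)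
            linarith
          · have := min_le_left (y i) (a / 2)
            linarith
        linarith
      have h8 : Real.log (α + 4 / 3 * y i) - Real.log (α + 4 / 3 * y (i + 1)) ≤
          4 / 3 * W i / (α + 4 / 3 * y (i + 1)) := by
        rw [← Real.log_div hpos'.ne' hpos.ne']
        have h9 := Real.log_le_sub_one_of_pos (div_pos hpos' hpos)
        have h10 : (α + 4 / 3 * y i) / (α + 4 / 3 * y (i + 1)) - 1 =
            4 / 3 * W i / (α + 4 / 3 * y (i + 1)) := by
          rw [hys i]
          field_simp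
          ring
        linarith
      have h11 : 4 / 3 * W i / (α + 4 / 3 * y (i + 1)) ≤
          28 / 9 * W i / (∑ k ∈ range i, W k * D k + p) := by
        rw [div_le_div_iff₀ hpos hcp]
        have h12 : ∑ k ∈ range i, W k * D k + p ≤ 7 / 3 * (α + 4 / 3 * y (i + 1)) := by
          have h13 := hys i
          linarith
        nlinarith
      have h14 : G (y i) - G (y (i + 1)) ≤ 28 / 9 * W i / (∑ k ∈ range i, W k * D k + p) :=
        h6.trans (h8.trans h11)
      calc a * (9 / 112) * (G (y i) - G (y (i + 1)))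
          ≤ a * (9 / 112) * (28 / 9 * W i / (∑ k ∈ range i, W k * D k + p)) :=
            mul_le_mul_of_nonneg_left h14 (by positivity)
        _ = W i * (a / 4) / (∑ k ∈ range i, W k * D k + p) := by ring
        _ ≤ W i * (∑ k ∈ range i, W k) / (∑ k ∈ range i, W k * D k + p) := by
            apply div_le_div_of_nonneg_right _ hcp.le
            exact mul_le_mul_of_nonneg_left hl hw0
  have hsum : a * (9 / 112) * (G (y 0) - G (y M)) ≤
      ∑ i ∈ range M, W i * (∑ k ∈ range i, W k) / (∑ k ∈ range i, W k * D k + p) := by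
    rw [← sum_range_sub' (fun i => G (y i)) M, mul_sum]
    exact sum_le_sum fun i hi => hclaim i (mem_range.1 hi)
  refine le_trans ?_ hsum
  have hG : G (y 0) - G (y M) = Real.log (1 + 2 / 3 * a / α) := by
    simp only [G]
    rw [hy0, hyM, min_eq_right (by linarith), min_eq_left (by linarith), mul_zero, add_zero,
      ← Real.log_div (by positivity) hα0.ne']
    congr 1
    field_simp
    ring
  have hRa : R ≤ a / α := by
    rw [le_div_iff₀ hα0]
    exact hU
  have h1 : Real.log R ≤ 2 * Real.log (1 + 2 / 3 * a / α) := by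
    have h2 : Real.log R ≤ Real.log ((1 + 2 / 3 * a / α) ^ 2) := by
      apply Real.log_le_log (by linarith)
      have h3 : 2 / 3 * a / α = 2 / 3 * (a / α) := by ring
      rw [h3]
      nlinarith
    rwa [Real.log_pow] at h2
  have h2 : 0 ≤ Real.log R := Real.log_nonneg (by linarith)
  rw [hG]
  nlinarith [mul_nonneg ha0.le h2]

end Pool.Agent.MP_a4c1f4_lc.LM
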