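import Pool.Agent.Lib.MP_a4c1f4_lc.LM.SpecL

set_option autoImplicit false

namespace Pool.Agent.MP_a4c1f4_lc.LM

open Finset

namespace RdAux

theorem mono_left (x : ℕ → ℝ) (q : ℕ) (h : ∀ r, r < q → x r < x (r + 1)) :
    ∀ r, r ≤ q → x 0 ≤ x r := by
  intro r
  induction r with
  | zero => intro _; exact le_refl _
  | succ r ih => intro hr; exact (ih (by omega)).trans (h r (by omega)).le

theorem mono_right (x : ℕ → ℝ) (q : ℕ) (h : ∀ r, r < q → x r < x (r + 1)) :
    ∀ d r, r + d = q → x r ≤ x q := by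
  intro d
  induction d with
  | zero => intro r hr; rw [show r = q by omega]
  | succ d ih => intro r hr; exact (h r (by omega)).le.trans (ih (r + 1) (by omega))

theorem getD_eq (l : List ℝ) (k : ℕ) (hk : k < l.length) : l.getD k 0 = l[k] := by
  rw [List.getD_eq_getElem?_getD, List.getElem?_eq_getElem hk]; rfl

theorem ft_eq {m : ℕ} (h2 : T_Cap) (hm : 0 < m) (s : Fin m → ℝ) (cap : Fin m → ℕ)
    (σ : Fin m → ℕ) (nd : ℝ → ℕ) (l : List ℝ) (x : ℕ → ℝ) (t r : ℕ) (θ : ℝ)
    (hrun : run hm s cap ((x r + x (r + 1)) / 2) l = run hm s cap θ l) :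
    ft hm s cap σ nd l x t r =
      fl σ nd (run hm s cap θ (l.drop (l.length - t))) (l.drop (l.length - t)) := by
  have h3 := (h2 m hm s cap θ l).2.2.1 (l.length - t)
  unfold ft fu
  rw [hrun, h3]

end RdAux

open RdAux in
theorem rdP (h1 : T_Fl) (h2 : T_Cap) (h3 : T_Gr) (h4 : T_Zv) (h5 : T_Cl) : T_Rd := by
  intro m hm s cap l N p σ nd q x hC hlen hx0 hxq hx hrun
  have hmid : ∀ r, r < q → x r < (x r + x (r + 1)) / 2 ∧ (x r + x (r + 1)) / 2 < x (r + 1) := by
    intro r hr
    have := hx r hr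
    constructor <;> linarith
  refine ⟨?_, ?_, hx0, hxq, fun r hr => (hx r hr).le, ?_, ?_, ?_⟩
  · intro k
    unfold wd
    exact sub_nonneg.2 (hC.mono.monotone (Nat.sub_le k 1))
  · intro t ht
    unfold vt
    rw [getD_eq l _ (by omega)]
    exact (hC.req _ (List.getElem_mem _)).2
  · intro t r ht hr
    apply h5 N (wd p) _ _ (x r) (x (r + 1)) (hx r hr)
    intro θ ha hb
    rw [ft_eq h2 hm s cap σ nd l x t r θ
      (hrun r hr _ θ (hmid r hr).1 (hmid r hr).2 ha hb), h4 (cn cap σ) nd l t ht]
    apply h3 m hm s cap l N p σ nd θ (l.drop (l.length - t)) hC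
    · have e1 := mono_left x q hx r (by omega)
      have e2 := mono_right x q hx (q - (r + 1)) (r + 1) (by omega)
      rw [hx0] at e1
      rw [hxq] at e2
      rw [abs_le]
      constructor <;> linarith
    · intro y hy
      exact List.mem_of_mem_drop hy
    · refine le_trans ?_ hlen
      rw [List.length_drop]
      exact Nat.sub_le _ _
  · intro t r ht hr
    set θ : ℝ := (x r + x (r + 1)) / 2 with hθ
    have hk : l.length - (t + 1) < l.length := by omega
    have hd : l.drop (l.length - (t + 1)) = l[l.length - (t + 1)] :: l.drop (l.length - t) := by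
      rw [List.drop_eq_getElem_cons hk, show l.length - (t + 1) + 1 = l.length - t by omega]
    refine ⟨σ (pick hm s cap θ (run hm s cap θ (l.drop (l.length - t))) (l.drop (l.length - t))
      l[l.length - (t + 1)]), (hC.site _).2, ?_⟩
    rw [ft_eq h2 hm s cap σ nd l x (t + 1) r θ rfl, ft_eq h2 hm s cap σ nd l x t r θ rfl, hd, run,
      h1.2.1 m σ nd]
    have hv : vt nd l t = nd l[l.length - (t + 1)] := by
      unfold vt
      rw [getD_eq l _ (by omega)]
      have he : l.length - 1 - t = l.length - (t + 1) := by omega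
      simp only [he]
    rw [hv]
  · intro r k hr
    rw [ft_eq h2 hm s cap σ nd l x 0 r _ rfl, Nat.sub_zero, List.drop_length, run]
    exact h1.1 m σ nd k

end Pool.Agent.MP_a4c1f4_lc.LM
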