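import Pool.Agent.Lib.MP_a4c1f4_lc.LM.Spec

set_option autoImplicit false
set_option linter.all false

/-!
Reflection of one optimal flow.
-/

namespace Pool.Agent.MP_a4c1f4_lc.LM

open Finset

namespace RfOAux

theorem psneg (θ : ℝ) (j : ℤ) : ps (-θ) (-j) = ps θ j := by
  unfold ps
  push_cast
  rw [abs_neg]
  ring

theorem fz (N : ℕ) (z z1 : ℕ → ℤ) (f : ℕ → ℤ) (hz : ∀ k, k ≤ N → z1 k = z (N - k))
    (h : Fz N z f) : Fz N z1 (fun k => -f (N + 1 - k)) := by
  obtain ⟨h0, h1, h2⟩ := h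
  refine ⟨?_, ?_, ?_⟩
  · show -f (N + 1 - 0) = 0
    rw [h1 (N + 1 - 0) (by omega)]
    rfl
  · intro k hk
    show -f (N + 1 - k) = 0
    have e : N + 1 - k = 0 := by omega
    rw [e, h0]
    rfl
  · intro k hk
    show -f (N + 1 - (k + 1)) - -f (N + 1 - k) ≤ z1 k
    have e1 : N + 1 - (k + 1) = N - k := by omega
    have e2 : N + 1 - k = (N - k) + 1 := by omega
    rw [e1, e2, hz k hk]
    have := h2 (N - k) (by omega)
    linarith

theorem sme (N : ℕ) (w : ℕ → ℝ) (θ : ℝ) (f : ℕ → ℤ) :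
    sm (fun k => w (N + 1 - k)) (-θ) 1 (N + 1) (fun k => -f (N + 1 - k)) =
      sm w θ 1 (N + 1) f := by
  unfold sm
  refine Finset.sum_nbij' (fun k => N + 1 - k) (fun k => N + 1 - k) ?_ ?_ ?_ ?_ ?_
  · intro a ha
    rw [Finset.mem_Ico] at ha ⊢
    omega
  · intro a ha
    rw [Finset.mem_Ico] at ha ⊢
    omega
  · intro a ha
    rw [Finset.mem_Ico] at ha
    show N + 1 - (N + 1 - a) = a
    omega
  · intro a ha
    rw [Finset.mem_Ico] at ha
    show N + 1 - (N + 1 - a) = a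
    omega
  · intro a ha
    show w (N + 1 - a) * ps (-θ) (-f (N + 1 - a)) = w (N + 1 - a) * ps θ (f (N + 1 - a))
    rw [psneg]

end RfOAux

open RfOAux in
theorem rfOP : S_RfO := by
  intro N w z z1 θ f hz
  refine ⟨fun h => fz N z z1 f hz h, sme N w θ f, ?_⟩
  intro h
  refine ⟨fz N z z1 f hz h.1, ?_⟩
  intro g hg
  rw [sme]
  have hz' : ∀ k, k ≤ N → z k = z1 (N - k) := by
    intro k hk
    rw [hz (N - k) (by omega)]
    congr 1
    omega
  have hg' := fz N z1 z g hz' hg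
  have hle := h.2 _ hg'
  have he := sme N w θ (fun k => -g (N + 1 - k))
  have he2 : sm (fun k => w (N + 1 - k)) (-θ) 1 (N + 1)
      (fun k => -(fun k => -g (N + 1 - k)) (N + 1 - k)) =
      sm (fun k => w (N + 1 - k)) (-θ) 1 (N + 1) g := by
    unfold sm
    refine Finset.sum_congr rfl ?_
    intro k hk
    rw [Finset.mem_Ico] at hk
    show w (N + 1 - k) * ps (-θ) (- -g (N + 1 - (N + 1 - k))) = w (N + 1 - k) * ps (-θ) (g k)
    have e : N + 1 - (N + 1 - k) = k := by omega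
    rw [e, neg_neg]
  rw [← he2, he]
  exact hle

end Pool.Agent.MP_a4c1f4_lc.LM
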