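import Pool.Agent.Lib.MP_a4c1f4_lc.LM.Spec

set_option autoImplicit false

namespace Pool.Agent.MP_a4c1f4_lc.LM

open Finset

namespace RfWAux

theorem ps_neg (θ : ℝ) (j : ℤ) : ps (-θ) (-j) = ps θ j := by
  unfold ps
  push_cast
  rw [abs_neg]
  ring

theorem sm_refl (N : ℕ) (w : ℕ → ℝ) (θ : ℝ) (i : ℕ) (hi : i ≤ N) (h : ℕ → ℤ) :
    sm (fun k => w (N + 1 - k)) (-θ) 1 (N + 1 - i) (fun k => -h (N + 1 - k)) = sm w θ (i + 1) (N + 1) h := by
  unfold sm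
  have h1 := Finset.sum_Ico_reflect (fun j => w j * ps θ (h j)) 1 (m := N + 1 - i) (n := N + 1) (by omega)
  have h2 : N + 1 + 1 - (N + 1 - i) = i + 1 := by omega
  have h3 : N + 1 + 1 - 1 = N + 1 := by omega
  rw [h2, h3] at h1
  rw [← h1]
  exact Finset.sum_congr rfl fun k _ => by rw [ps_neg]

theorem cl_refl (N : ℕ) (w : ℕ → ℝ) (θ : ℝ) (i : ℕ) (hi : i ≤ N) (f g : ℕ → ℤ) :
    cl (fun k => w (N + 1 - k)) (N + 1 - i) (fun k => -f (N + 1 - k)) (fun k => -g (N + 1 - k)) (-θ) =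
      cr N w i f g θ := by
  unfold cl cr
  rw [sm_refl N w θ i hi g, sm_refl N w θ i hi f]

end RfWAux

open RfWAux

theorem rfWP : S_RfW := by
  intro N w p i v f g a b h1 hi hv
  unfold wr wl
  have e1 : N + 1 - (N + 1 - i) = i := by omega
  have hiff : (v < i ∧ g i = f i - 1) ↔
      (N + 1 - i ≤ N - v ∧ (fun k => -g (N + 1 - k)) (N + 1 - i) = (fun k => -f (N + 1 - k)) (N + 1 - i) + 1) := by
    simp only [e1]
    omega
  rw [cl_refl N w a i hi f g, cl_refl N w b i hi f g]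
  by_cases hc : v < i ∧ g i = f i - 1
  · rw [if_pos hc, if_pos (hiff.1 hc)]
  · rw [if_neg hc, if_neg (fun h => hc (hiff.2 h))]

end Pool.Agent.MP_a4c1f4_lc.LM
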