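import Pool.Agent.Lib.MP_a4c1f4_lc.LM.Spec

/-!
Online matching on the line: reflection of the whole run.
-/

set_option autoImplicit false

namespace Pool.Agent.MP_a4c1f4_lc.LM

open Finset

namespace RflAux

theorem zt_rfl (N n : ℕ) (c : ℕ → ℤ) (v : ℕ → ℕ) (t : ℕ) (ht : t ≤ n)
    (hv : ∀ a, a < n → v a ≤ N) (k : ℕ) (hk : k ≤ N) :
    zt (fun k => c (N - k)) (fun t => N - v t) t k = zt c v t (N - k) := by
  unfold zt
  have h : (range t).filter (fun a => N - v a = k) = (range t).filter (fun a => v a = N - k) := by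
    apply Finset.filter_congr
    intro a ha
    have h1 : a < t := Finset.mem_range.mp ha
    have h2 := hv a (lt_of_lt_of_le h1 ht)
    omega
  rw [h]

theorem pth_rfl (N v s : ℕ) (f : ℕ → ℤ) (hv : v ≤ N) (hs : s ≤ N) :
    (fun k => -pth v s f (N + 1 - k)) = pth (N - v) (N - s) (fun k => -f (N + 1 - k)) := by
  funext k
  simp only [pth]
  have h1 : (s < N + 1 - k ∧ N + 1 - k ≤ v) ↔ (N - v < k ∧ k ≤ N - s) := by omega
  have h2 : (v < N + 1 - k ∧ N + 1 - k ≤ s) ↔ (N - s < k ∧ k ≤ N - v) := by omega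
  rw [if_congr h1 rfl rfl, if_congr h2 rfl rfl]
  ring

end RflAux

theorem rflP (h : S_RfO) : S_Rfl := by
  intro N n m w c v x f hR
  refine ⟨fun k => hR.w_nonneg _, fun t _ => Nat.sub_le _ _, ?_, ?_, ?_, ?_, ?_, ?_⟩
  · rw [Nat.sub_zero, hR.x_last]
  · rw [Nat.sub_self, hR.x_zero, neg_neg]
  · intro r hr
    have h1 := hR.x_mono (m - (r + 1)) (by omega)
    have h2 : m - (r + 1) + 1 = m - r := by omega
    rw [h2] at h1
    exact neg_le_neg h1
  · intro t r ht hr θ h1 h2
    change -x (m - r) ≤ θ at h1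
    change θ ≤ -x (m - (r + 1)) at h2
    have h3 : m - 1 - r = m - (r + 1) := by omega
    have h4 : m - (r + 1) + 1 = m - r := by omega
    have h5 := hR.opt t (m - 1 - r) ht (by omega) (-θ) (by rw [h3]; linarith)
      (by rw [h3, h4]; linarith)
    have h6 := (h N w (zt c v t) (zt (fun k => c (N - k)) (fun t => N - v t) t) (-θ)
      (f t (m - 1 - r)) (fun k hk => RflAux.zt_rfl N n c v t ht hR.v_le k hk)).2.2 h5
    rw [neg_neg] at h6
    exact h6
  · intro t r ht hr
    obtain ⟨s, hs, h1⟩ := hR.step t (m - 1 - r) ht (by omega)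
    refine ⟨N - s, Nat.sub_le _ _, ?_⟩
    change (fun k => -f (t + 1) (m - 1 - r) (N + 1 - k)) =
      pth (N - v t) (N - s) (fun k => -f t (m - 1 - r) (N + 1 - k))
    rw [h1]
    exact RflAux.pth_rfl N (v t) s (f t (m - 1 - r)) (hR.v_le t ht) hs
  · intro r k hr
    rw [hR.zero (m - 1 - r) (N + 1 - k) (by omega), neg_zero]

end Pool.Agent.MP_a4c1f4_lc.LM
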