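import Pool.Agent.Lib.MP_a4c1f4_lc.LM.Spec

set_option autoImplicit false

/-!
Online matching on the line, module Rn: the maximal interval around an edge on which an optimal
flow and a feasible flow differ by at least `u`.
-/

namespace Pool.Agent.MP_a4c1f4_lc.LM

open Finset

namespace RnAux

open Classical in
/-- Maximal interval on which `P` holds. -/
theorem maxInt (N i : ℕ) (P : ℕ → Prop) (h0 : ¬ P 0) (hi : P i) (hN : ∀ k, N < k → ¬ P k) :
    ∃ a b, 1 ≤ a ∧ a ≤ i ∧ i ≤ b ∧ b ≤ N ∧ (∀ k, a ≤ k → k ≤ b → P k) ∧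
      (∀ k, k + 1 = a → ¬ P k) ∧ ¬ P (b + 1) := by
  have hiN : i ≤ N := by
    by_contra h
    exact hN i (by omega) hi
  have hex : ∃ k, i ≤ k ∧ ¬ P k := ⟨N + 1, by omega, hN _ (by omega)⟩
  obtain ⟨hq1, hq2⟩ := Nat.find_spec hex
  have hqmin : ∀ k, k < Nat.find hex → i ≤ k → P k := by
    intro k hk hik
    have := Nat.find_min hex hk
    by_contra hP
    exact this ⟨hik, hP⟩
  have hqN : Nat.find hex ≤ N + 1 := Nat.find_min' hex ⟨by omega, hN _ (by omega)⟩
  have hqi : i < Nat.find hex := by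
    rcases Nat.lt_or_ge i (Nat.find hex) with h | h
    · exact h
    · have : Nat.find hex = i := le_antisymm h hq1
      rw [this] at hq2
      exact absurd hi hq2
  set q := Nat.find hex with hq
  have hr1 : Nat.findGreatest (fun k => ¬ P k) i ≤ i := Nat.findGreatest_le i
  have hr2 : ¬ P (Nat.findGreatest (fun k => ¬ P k) i) :=
    Nat.findGreatest_spec (P := fun k => ¬ P k) (Nat.zero_le i) h0
  have hrmax : ∀ k, Nat.findGreatest (fun k => ¬ P k) i < k → k ≤ i → P k := by
    intro k hk hki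
    have := Nat.findGreatest_is_greatest (P := fun k => ¬ P k) hk hki
    simpa using this
  set r := Nat.findGreatest (fun k => ¬ P k) i with hr
  have hri : r < i := by
    rcases Nat.lt_or_ge r i with h | h
    · exact h
    · have : r = i := le_antisymm hr1 h
      rw [this] at hr2
      exact absurd hi hr2
  refine ⟨r + 1, q - 1, by omega, by omega, by omega, by omega, ?_, ?_, ?_⟩
  · intro k hk1 hk2
    rcases Nat.lt_or_ge i k with h | h
    · exact hqmin k (by omega) (by omega)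
    · exact hrmax k (by omega) h
  · intro k hk
    have : k = r := by omega
    rw [this]
    exact hr2
  · have : q - 1 + 1 = q := by omega
    rw [this]
    exact hq2

/-- Comparison with the flow shifted by `e` on `[a, b]`. -/
theorem core (N : ℕ) (w : ℕ → ℝ) (θ : ℝ) (f S : ℕ → ℤ) (u e : ℤ) (a b : ℕ)
    (hw : ∀ k, 0 ≤ w k) (ha : 1 ≤ a) (hb : b ≤ N)
    (hopt : sm w θ 1 (N + 1) f ≤
      sm w θ 1 (N + 1) (fun k => if a ≤ k ∧ k ≤ b then f k + e else f k))
    (hpt : ∀ k, a ≤ k → k ≤ b →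
      ps θ (f k + e) - ps θ (f k) ≤ -(2 / 3) + 2 * (if u ≤ |S k| then (1 : ℝ) else 0)) :
    ∑ k ∈ Icc a b, w k ≤ 3 * ∑ k ∈ (Icc a b).filter (fun k => u ≤ |S k|), w k := by
  have h1 : 0 ≤ ∑ k ∈ Ico 1 (N + 1),
      w k * (ps θ (if a ≤ k ∧ k ≤ b then f k + e else f k) - ps θ (f k)) := by
    unfold sm at hopt
    simp only [mul_sub, Finset.sum_sub_distrib]
    linarith
  have h2 : ∑ k ∈ Ico 1 (N + 1),
      w k * (ps θ (if a ≤ k ∧ k ≤ b then f k + e else f k) - ps θ (f k)) =
      ∑ k ∈ Icc a b, w k * (ps θ (f k + e) - ps θ (f k)) := by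
    have hsub : Icc a b ⊆ Ico 1 (N + 1) := by
      intro k hk
      rw [Finset.mem_Icc] at hk
      rw [Finset.mem_Ico]
      omega
    rw [← Finset.sum_subset hsub]
    · refine Finset.sum_congr rfl fun k hk => ?_
      rw [Finset.mem_Icc] at hk
      rw [if_pos hk]
    · intro k _ hk
      rw [Finset.mem_Icc] at hk
      rw [if_neg hk, sub_self, mul_zero]
  have h3 : ∑ k ∈ Icc a b, w k * (ps θ (f k + e) - ps θ (f k)) ≤
      ∑ k ∈ Icc a b, w k * (-(2 / 3) + 2 * (if u ≤ |S k| then (1 : ℝ) else 0)) := by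
    refine Finset.sum_le_sum fun k hk => ?_
    rw [Finset.mem_Icc] at hk
    exact mul_le_mul_of_nonneg_left (hpt k hk.1 hk.2) (hw k)
  have h4 : ∑ k ∈ Icc a b, w k * (-(2 / 3) + 2 * (if u ≤ |S k| then (1 : ℝ) else 0)) =
      -(2 / 3) * ∑ k ∈ Icc a b, w k +
        2 * ∑ k ∈ (Icc a b).filter (fun k => u ≤ |S k|), w k := by
    rw [Finset.sum_filter, Finset.mul_sum, Finset.mul_sum, ← Finset.sum_add_distrib]
    refine Finset.sum_congr rfl fun k _ => ?_
    split_ifs <;> ring
  rw [h2] at h1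
  have h5 := h1.trans h3
  rw [h4] at h5
  linarith

/-- The tilted absolute value one step down. -/
theorem ps_down (θ : ℝ) (hθ : |θ| ≤ 1 / 3) (j : ℤ) (c : ℝ) (hc : 0 ≤ c) (hj : j ≤ 0 → 1 ≤ c) :
    ps θ (j + (-1)) - ps θ j ≤ -(2 / 3) + 2 * c := by
  have h := abs_le.1 hθ
  unfold ps
  rcases le_or_gt j 0 with hj0 | hj0
  · have h1 : ((j : ℤ) : ℝ) ≤ 0 := by exact_mod_cast hj0
    have hc1 := hj hj0
    push_cast
    rw [abs_of_nonpos (by linarith), abs_of_nonpos h1]
    linarith [h.1, h.2]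
  · have h1 : (1 : ℝ) ≤ ((j : ℤ) : ℝ) := by exact_mod_cast hj0
    push_cast
    rw [abs_of_nonneg (by linarith), abs_of_nonneg (by linarith)]
    linarith [h.1, h.2]

/-- The tilted absolute value one step up. -/
theorem ps_up (θ : ℝ) (hθ : |θ| ≤ 1 / 3) (j : ℤ) (c : ℝ) (hc : 0 ≤ c) (hj : 0 ≤ j → 1 ≤ c) :
    ps θ (j + 1) - ps θ j ≤ -(2 / 3) + 2 * c := by
  have h := abs_le.1 hθ
  unfold ps
  rcases le_or_gt 0 j with hj0 | hj0
  · have h1 : (0 : ℝ) ≤ ((j : ℤ) : ℝ) := by exact_mod_cast hj0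
    have hc1 := hj hj0
    push_cast
    rw [abs_of_nonneg (by linarith), abs_of_nonneg h1]
    linarith [h.1, h.2]
  · have h1 : ((j : ℤ) : ℝ) ≤ -1 := by
      have : j ≤ -1 := by omega
      exact_mod_cast this
    push_cast
    rw [abs_of_nonpos (by linarith), abs_of_nonpos (by linarith)]
    linarith [h.1, h.2]

end RnAux

theorem runP : S_Run := by
  intro N w z z' θ f S i u hw hθ hz hopt hS hu hi
  obtain ⟨⟨hf0, hfN, hfz⟩, hmin⟩ := hopt
  obtain ⟨hS0, hSN, hSz⟩ := hS
  rcases le_abs.1 hi with hi1 | hi2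
  · obtain ⟨a, b, ha, hai, hib, hbN, hP, hPa, hPb⟩ :=
      RnAux.maxInt N i (fun k => u ≤ f k - S k) (by rw [hf0, hS0]; omega) hi1
        (fun k hk => by rw [hfN k hk, hSN k hk]; omega)
    refine ⟨a, b, ha, hai, hib, hbN, ?_⟩
    refine RnAux.core N w θ f S u (-1) a b hw ha hbN (hmin _ ⟨?_, ?_, ?_⟩) ?_
    · have : ¬ (a ≤ 0 ∧ 0 ≤ b) := by omega
      simp only [if_neg this, hf0]
    · intro k hk
      have : ¬ (a ≤ k ∧ k ≤ b) := by omega
      simp only [if_neg this, hfN k hk]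
    · intro k hk
      have e1 := hfz k hk
      have e2 := hSz k hk
      have e3 := hz k
      by_cases hkb : k = b
      · subst hkb
        have e4 := hP k (by omega) le_rfl
        have c1 : ¬ (a ≤ k + 1 ∧ k + 1 ≤ k) := by omega
        have c2 : a ≤ k ∧ k ≤ k := by omega
        simp only [if_neg c1, if_pos c2]
        omega
      · dsimp only
        split_ifs <;> omega
    · intro k hk1 hk2
      have e4 := hP k hk1 hk2
      refine RnAux.ps_down θ hθ (f k) _ (by split_ifs <;> norm_num) fun hfk => ?_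
      have : u ≤ |S k| := le_abs.2 (Or.inr (by omega))
      rw [if_pos this]
  · obtain ⟨a, b, ha, hai, hib, hbN, hP, hPa, hPb⟩ :=
      RnAux.maxInt N i (fun k => u ≤ S k - f k) (by rw [hf0, hS0]; omega) (by omega)
        (fun k hk => by rw [hfN k hk, hSN k hk]; omega)
    refine ⟨a, b, ha, hai, hib, hbN, ?_⟩
    refine RnAux.core N w θ f S u 1 a b hw ha hbN (hmin _ ⟨?_, ?_, ?_⟩) ?_
    · have : ¬ (a ≤ 0 ∧ 0 ≤ b) := by omega
      simp only [if_neg this, hf0]
    · intro k hk
      have : ¬ (a ≤ k ∧ k ≤ b) := by omega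
      simp only [if_neg this, hfN k hk]
    · intro k hk
      have e1 := hfz k hk
      have e2 := hSz k hk
      have e3 := hz k
      by_cases hka : k + 1 = a
      · have e4 := hP (k + 1) (by omega) (by omega)
        have e5 := hPa k hka
        have c1 : a ≤ k + 1 ∧ k + 1 ≤ b := by omega
        have c2 : ¬ (a ≤ k ∧ k ≤ b) := by omega
        simp only [if_pos c1, if_neg c2]
        omega
      · dsimp only
        split_ifs <;> omega
    · intro k hk1 hk2
      have e4 := hP k hk1 hk2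
      refine RnAux.ps_up θ hθ (f k) _ (by split_ifs <;> norm_num) fun hfk => ?_
      have : u ≤ |S k| := le_abs.2 (Or.inl (by omega))
      rw [if_pos this]

end Pool.Agent.MP_a4c1f4_lc.LM
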