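import Pool.Agent.Lib.MP_a4c1f4_lc.LM.Spec

set_option autoImplicit false

namespace Pool.Agent.MP_a4c1f4_lc.LM

open Finset

namespace StpAux

/-- Exchange of `f` and `g` on a set of edges. -/
private theorem swap {N : ℕ} {w : ℕ → ℝ} {z : ℕ → ℤ} {θ : ℝ} {f g : ℕ → ℤ} (G : ℕ → ℤ)
    (hG : ∀ k, G k = f k ∨ G k = g k) (hf : Opt N w z θ f) (hC : Fz N z (fun k => f k + g k - G k)) :
    sm w θ 1 (N + 1) G ≤ sm w θ 1 (N + 1) g := by
  have h1 := hf.2 _ hC
  have h2 : sm w θ 1 (N + 1) G + sm w θ 1 (N + 1) (fun k => f k + g k - G k) =
      sm w θ 1 (N + 1) f + sm w θ 1 (N + 1) g := by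
    unfold sm
    rw [← Finset.sum_add_distrib, ← Finset.sum_add_distrib]
    refine Finset.sum_congr rfl fun k _ => ?_
    rcases hG k with h | h
    · have h3 : f k + g k - G k = g k := by rw [h]; ring
      simp only [h3]
      rw [h]
    · have h3 : f k + g k - G k = f k := by rw [h]; ring
      simp only [h3]
      rw [h]
      ring
  linarith

end StpAux

/-- The step lemma. -/
theorem stpP (h : S_Op) : S_Stp := by
  classical
  intro N w z θ v f g hw hv hf hg
  obtain ⟨g', hg', hle, h1, h2⟩ := h N w z θ v f g hw hv hf hg
  obtain ⟨hf0, hfN, hfz⟩ := hf.1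
  obtain ⟨hg0, hgN, hgz⟩ := hg'
  have hgz' : ∀ k, k ≤ N → g' (k + 1) - g' k ≤ z k := by
    intro k hk
    have h3 := hgz k hk
    simp only [dec] at h3
    split_ifs at h3 <;> omega
  have hgv : g' (v + 1) - g' v ≤ z v - 1 := by
    have h3 := hgz v hv
    simp only [dec] at h3
    simpa using h3
  have hex : ∃ k, v ≤ k ∧ g' (k + 1) = f (k + 1) :=
    ⟨N, hv, by rw [hgN _ (Nat.lt_succ_self N), hfN _ (Nat.lt_succ_self N)]⟩
  obtain ⟨s', hs'⟩ : ∃ s', s' = Nat.find hex := ⟨_, rfl⟩
  have hs1 : v ≤ s' ∧ g' (s' + 1) = f (s' + 1) := by
    rw [hs']
    exact Nat.find_spec hex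
  have hs2 : ∀ k, v ≤ k → k < s' → g' (k + 1) ≠ f (k + 1) := by
    intro k hk hks h3
    rw [hs'] at hks
    exact Nat.find_min hex hks ⟨hk, h3⟩
  have hs3 : s' ≤ N := by
    rw [hs']
    exact Nat.find_min' hex ⟨hv, by rw [hgN _ (Nat.lt_succ_self N), hfN _ (Nat.lt_succ_self N)]⟩
  rcases hs1.1.lt_or_eq with hlt | heq
  · -- the site on the right
    have hD : ∀ k, v < k → k ≤ s' → g' k = f k - 1 := by
      intro k hk hks
      obtain ⟨j, rfl⟩ : ∃ j, k = j + 1 := ⟨k - 1, by omega⟩
      have h3 := hs2 j (by omega) (by omega)
      have h4 := h2 (j + 1) hk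
      omega
    refine ⟨s', hs3, ?_, ?_⟩
    · have h3 := hgz' s' hs3
      have h4 := hD s' hlt le_rfl
      omega
    · refine (StpAux.swap (pth v s' f) ?_ hf ?_).trans hle
      · intro k
        simp only [pth]
        by_cases h3 : v < k ∧ k ≤ s'
        · right
          have h4 := hD k h3.1 h3.2
          rw [if_neg (by omega), if_pos h3]
          omega
        · left
          rw [if_neg (by omega), if_neg h3]
          omega
      · refine ⟨?_, ?_, ?_⟩
        · simp only [pth]
          rw [if_neg (by omega), if_neg (by omega)]
          omega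
        · intro k hk
          have h4 := hfN k hk
          have h5 := hgN k hk
          simp only [pth]
          rw [if_neg (by omega), if_neg (by omega)]
          omega
        · intro k hk
          have h4 := hfz k hk
          have h5 := hgz' k hk
          simp only [pth]
          rw [if_neg (by omega), if_neg (by omega : ¬ (s' < k ∧ k ≤ v))]
          rcases lt_trichotomy k v with h6 | h6 | h6
          · rw [if_neg (by omega), if_neg (by omega)]
            omega
          · subst h6
            rw [if_pos (by omega), if_neg (by omega)]
            have h7 := hD (k + 1) (by omega) (by omega)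
            have h8 := h1 k le_rfl
            omega
          · rcases lt_trichotomy k s' with h9 | h9 | h9
            · rw [if_pos (by omega), if_pos (by omega)]
              have h7 := hD (k + 1) (by omega) (by omega)
              have h8 := hD k h6 h9.le
              omega
            · subst h9
              rw [if_neg (by omega), if_pos (by omega)]
              have h8 := hD k h6 le_rfl
              have h10 := hs1.2
              omega
            · rw [if_neg (by omega), if_neg (by omega)]
              omega
  · -- the site on the left
    have hv1 : g' (v + 1) = f (v + 1) := by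
      rw [heq]
      exact hs1.2
    have hex2 : ∃ d, d ≤ v ∧ g' (v - d) = f (v - d) := ⟨v, le_rfl, by rw [Nat.sub_self, hg0, hf0]⟩
    obtain ⟨d, hd⟩ : ∃ d, d = Nat.find hex2 := ⟨_, rfl⟩
    have hd1 : d ≤ v ∧ g' (v - d) = f (v - d) := by
      rw [hd]
      exact Nat.find_spec hex2
    have hd2 : ∀ k, v - d < k → k ≤ v → g' k = f k + 1 := by
      intro k hk hkv
      have h3 : v - k < d := by omega
      rw [hd] at h3
      have h4 := Nat.find_min hex2 h3
      have h5 : v - (v - k) = k := by omega
      rw [h5] at h4
      have h6 := h1 k hkv
      have h7 : g' k ≠ f k := fun h8 => h4 ⟨by omega, h8⟩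
      omega
    obtain ⟨s, hs⟩ : ∃ s, s = v - d := ⟨_, rfl⟩
    rw [← hs] at hd1 hd2
    have hsv : s ≤ v := by omega
    have hse := hd1.2
    refine ⟨s, by omega, ?_, ?_⟩
    · rcases hsv.lt_or_eq with h3 | h3
      · have h4 := hgz' s (by omega)
        have h5 := hd2 (s + 1) (by omega) (by omega)
        omega
      · rw [h3] at hse ⊢
        omega
    · refine (StpAux.swap (pth v s f) ?_ hf ?_).trans hle
      · intro k
        simp only [pth]
        by_cases h3 : s < k ∧ k ≤ v
        · right
          have h4 := hd2 k h3.1 h3.2
          rw [if_pos h3, if_neg (by omega)]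
          omega
        · left
          rw [if_neg h3, if_neg (by omega)]
          omega
      · refine ⟨?_, ?_, ?_⟩
        · simp only [pth]
          rw [if_neg (by omega), if_neg (by omega)]
          omega
        · intro k hk
          have h4 := hfN k hk
          have h5 := hgN k hk
          simp only [pth]
          rw [if_neg (by omega), if_neg (by omega)]
          omega
        · intro k hk
          have h4 := hfz k hk
          have h5 := hgz' k hk
          simp only [pth]
          rw [if_neg (by omega : ¬ (v < k + 1 ∧ k + 1 ≤ s)), if_neg (by omega : ¬ (v < k ∧ k ≤ s))]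
          rcases lt_trichotomy k s with h6 | h6 | h6
          · rw [if_neg (by omega), if_neg (by omega)]
            omega
          · subst h6
            rcases hsv.lt_or_eq with h7 | h7
            · rw [if_pos (by omega), if_neg (by omega)]
              have h8 := hd2 (k + 1) (by omega) (by omega)
              omega
            · rw [if_neg (by omega), if_neg (by omega)]
              omega
          · rcases lt_trichotomy k v with h9 | h9 | h9
            · rw [if_pos (by omega), if_pos (by omega)]
              have h7 := hd2 (k + 1) (by omega) (by omega)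
              have h8 := hd2 k h6 h9.le
              omega
            · subst h9
              rw [if_neg (by omega), if_pos (by omega)]
              have h8 := hd2 k h6 le_rfl
              omega
            · rw [if_neg (by omega), if_neg (by omega)]
              omega

end Pool.Agent.MP_a4c1f4_lc.LM
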