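import Pool.Agent.Lib.MP_a4c1f4_lc.LM.Spec

set_option autoImplicit false

/-! Online matching on the line: the sum of all left crossings. -/

namespace Pool.Agent.MP_a4c1f4_lc.LM

open Finset

theorem totP (h1 : S_Edg) (h2 : S_Fst) : S_Tot := by
  intro N n m w c v x f S B p O hrun hp hB hS hO hcost
  have hw := hrun.w_nonneg
  have hL : 0 ≤ Real.log ((B + p) / p) := by
    refine Real.log_nonneg ?_
    rw [le_div_iff₀ hp]
    linarith
  have h3 := h2 N n m w c v x f S hrun hS
  calc ∑ i ∈ Icc 1 N, w i * ∑ t ∈ range n, ∑ r ∈ range m,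
        wl w p i (v t) (f t r) (f (t + 1) r) (x r) (x (r + 1))
      ≤ ∑ i ∈ Icc 1 N, 2 * Real.log ((B + p) / p) * (w i * (mx n m f i : ℝ)) := by
        refine sum_le_sum fun i hi => ?_
        rw [mem_Icc] at hi
        have h4 := h1 N n m w c v x f B p i hrun hp hi.1 hi.2 hcost
        calc w i * ∑ t ∈ range n, ∑ r ∈ range m,
              wl w p i (v t) (f t r) (f (t + 1) r) (x r) (x (r + 1))
            ≤ w i * (2 * (mx n m f i : ℝ) * Real.log ((B + p) / p)) :=
              mul_le_mul_of_nonneg_left h4 (hw i)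
          _ = 2 * Real.log ((B + p) / p) * (w i * (mx n m f i : ℝ)) := by ring
    _ = 2 * Real.log ((B + p) / p) * ∑ i ∈ Icc 1 N, w i * (mx n m f i : ℝ) := by rw [mul_sum]
    _ ≤ 2 * Real.log ((B + p) / p) * (13 * ∑ i ∈ Icc 1 N, w i * |(S i : ℝ)|) :=
        mul_le_mul_of_nonneg_left h3 (by positivity)
    _ ≤ 2 * Real.log ((B + p) / p) * (13 * O) :=
        mul_le_mul_of_nonneg_left (by linarith) (by positivity)
    _ = 26 * Real.log ((B + p) / p) * O := by ring

end Pool.Agent.MP_a4c1f4_lc.LM
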