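import Pool.Agent.Lib.MP_a4c1f4_lc.LM.Spec

set_option autoImplicit false
set_option linter.all false

/-!
Online matching on the line: all right crossings, by reflection.
-/

namespace Pool.Agent.MP_a4c1f4_lc.LM

open Finset

namespace TotRAux

/-- Reindexing of a sum over the edges. -/
theorem refl_sum (N : ℕ) (F G : ℕ → ℝ) (h : ∀ i, 1 ≤ i → i ≤ N → F i = G (N + 1 - i)) :
    ∑ i ∈ Icc 1 N, F i = ∑ i ∈ Icc 1 N, G i := by
  refine Finset.sum_nbij' (fun i => N + 1 - i) (fun i => N + 1 - i) ?_ ?_ ?_ ?_ ?_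
  · intro i hi
    simp only [Finset.mem_Icc] at hi ⊢
    omega
  · intro i hi
    simp only [Finset.mem_Icc] at hi ⊢
    omega
  · intro i hi
    simp only [Finset.mem_Icc] at hi
    omega
  · intro i hi
    simp only [Finset.mem_Icc] at hi
    omega
  · intro i hi
    simp only [Finset.mem_Icc] at hi
    exact h i hi.1 hi.2

/-- The bounds of the reflected data. -/
theorem zt_refl (N n : ℕ) (c : ℕ → ℤ) (v : ℕ → ℕ) (hv : ∀ t, t < n → v t ≤ N) (k : ℕ)
    (hk : k ≤ N) : zt (fun k => c (N - k)) (fun t => N - v t) n k = zt c v n (N - k) := by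
  unfold zt
  have h : (range n).filter (fun a => N - v a = k) = (range n).filter (fun a => v a = N - k) := by
    refine Finset.filter_congr fun a ha => ?_
    have := hv a (Finset.mem_range.1 ha)
    omega
  rw [h]

end TotRAux

theorem totRP (h1 : S_Tot) (h2 : S_RfO) (h3 : S_Rfl) (h4 : S_RfW) : S_TotR := by
  intro N n m w c v x f S B p O hrun hp hB hS hO hsm
  have hrun' := h3 N n m w c v x f hrun
  have hF := (h2 N w (zt c v n) (zt (fun k => c (N - k)) (fun t => N - v t) n) 0 S
    (fun k hk => TotRAux.zt_refl N n c v hrun.v_le k hk)).1 hS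
  have hO' : ∑ k ∈ Icc 1 N, (fun k => w (N + 1 - k)) k *
      |(((fun k => -S (N + 1 - k)) k : ℤ) : ℝ)| ≤ O := by
    refine le_trans (le_of_eq ?_) hO
    refine TotRAux.refl_sum N _ _ fun i hi1 hi2 => ?_
    simp only [Int.cast_neg, abs_neg]
  have hsm' : ∀ t r, t ≤ n → r < m → ∀ θ, (fun r => -x (m - r)) r ≤ θ →
      θ ≤ (fun r => -x (m - r)) (r + 1) →
      sm (fun k => w (N + 1 - k)) θ 1 (N + 1)
        ((fun t r k => -f t (m - 1 - r) (N + 1 - k)) t r) ≤ B := by
    intro t r ht hr θ e1 e2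
    dsimp only at e1 e2 ⊢
    have hr0 : m - 1 - r < m := by omega
    have e3 : m - 1 - r + 1 = m - r := by omega
    have e4 : m - (r + 1) = m - 1 - r := by omega
    have h5 := (h2 N w (zt c v t) (fun k => zt c v t (N - k)) (-θ) (f t (m - 1 - r))
      (fun k _ => rfl)).2.1
    rw [neg_neg] at h5
    rw [h5]
    refine hsm t (m - 1 - r) ht hr0 (-θ) ?_ ?_
    · rw [e4] at e2
      linarith
    · rw [e3]
      linarith
  have key := h1 N n m (fun k => w (N + 1 - k)) (fun k => c (N - k)) (fun t => N - v t)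
    (fun r => -x (m - r)) (fun t r k => -f t (m - 1 - r) (N + 1 - k)) (fun k => -S (N + 1 - k))
    B p O hrun' hp hB hF hO' hsm'
  refine le_trans (le_of_eq ?_) key
  refine TotRAux.refl_sum N _ _ fun i hi1 hi2 => ?_
  have e0 : N + 1 - (N + 1 - i) = i := by omega
  rw [e0]
  congr 1
  refine Finset.sum_congr rfl fun t ht => ?_
  have hvt := hrun.v_le t (Finset.mem_range.1 ht)
  rw [← Finset.sum_range_reflect]
  refine Finset.sum_congr rfl fun r hr => ?_
  have hr' := Finset.mem_range.1 hr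
  rw [h4 N w p i (v t) _ _ _ _ hi1 hi2 hvt]
  have e3 : m - 1 - r + 1 = m - r := by omega
  have e4 : m - (r + 1) = m - 1 - r := by omega
  rw [e3, e4]

end Pool.Agent.MP_a4c1f4_lc.LM
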