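import Pool.Agent.Lib.MP_a4c1f4_lc.LM.Spec

set_option autoImplicit false

/-!
# MP_a4c1f4_lc, project LM, module Wn: the weights of the crossings are nonnegative
-/

namespace Pool.Agent.MP_a4c1f4_lc.LM

open Finset

namespace WnAux

theorem left (h1 : S_OrA) (h2 : S_Nn) (N : ℕ) (w : ℕ → ℝ) (z : ℕ → ℤ) (v i : ℕ) (f g : ℕ → ℤ)
    (p a b : ℝ) (hw : ∀ k, 0 ≤ w k) (hp : 0 < p) (hiN : i ≤ N) (hab : a ≤ b)
    (hf : ∀ θ, a ≤ θ → θ ≤ b → Opt N w z θ f) (hg : ∀ θ, a ≤ θ → θ ≤ b → Opt N w (dec z v) θ g) :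
    0 ≤ wl w p i v f g a b := by
  unfold wl
  split_ifs with h
  · obtain ⟨hiv, hgi⟩ := h
    have hfa := hf a le_rfl hab
    have hga := hg a le_rfl hab
    have hfb := hf b hab le_rfl
    have hle : cl w i f g a ≤ cl w i f g b :=
      h1 N w z z a b v v i (f i) f g f g hw (fun _ => le_rfl) hab hiv hiv hiN hfa.1 hga hfb hga.1
        rfl hgi rfl hgi
    have h0 : 0 ≤ cl w i f g a := h2.1 N w z a v i f g hw hiN hfa hga.1 (by omega)
    have h3 : Real.log (cl w i f g a + p) ≤ Real.log (cl w i f g b + p) :=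
      Real.log_le_log (by linarith) (by linarith)
    linarith
  · exact le_rfl

end WnAux

theorem wnP (h1 : S_OrA) (h2 : S_Nn) (h3 : S_RfO) (h4 : S_RfW) : S_Wn := by
  intro N w z v i f g p a b hw hp hv hi1 hiN hab hf hg
  refine ⟨WnAux.left h1 h2 N w z v i f g p a b hw hp hiN hab hf hg, ?_⟩
  rw [h4 N w p i v f g a b hi1 hiN hv]
  refine WnAux.left h1 h2 N (fun k => w (N + 1 - k)) (fun k => z (N - k)) (N - v) (N + 1 - i)
    (fun k => -f (N + 1 - k)) (fun k => -g (N + 1 - k)) p (-b) (-a) (fun k => hw _) hp (by omega)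
    (by linarith) (fun θ ha hb => ?_) (fun θ ha hb => ?_)
  · have h5 := (h3 N w z (fun k => z (N - k)) (-θ) f (fun _ _ => rfl)).2.2
      (hf (-θ) (by linarith) (by linarith))
    rwa [neg_neg] at h5
  · have h5 := (h3 N w (dec z v) (dec (fun k => z (N - k)) (N - v)) (-θ) g (fun k hk => by
      simp only [dec]
      split_ifs <;> omega)).2.2 (hg (-θ) (by linarith) (by linarith))
    rwa [neg_neg] at h5

end Pool.Agent.MP_a4c1f4_lc.LM
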