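import Pool.Agent.Lib.MP_a4c1f4_lc.LM.SpecL

set_option autoImplicit false
set_option linter.all false

/-!
Online matching on the line: the bounds in the order of time.
-/

namespace Pool.Agent.MP_a4c1f4_lc.LM

open Finset

theorem zvP (h1 : S_Zt) (h2 : T_Fl) : T_Zv := by
  intro c nd l t
  induction t with
  | zero =>
    intro _
    funext k
    simp [zt, zl]
  | succ t ih =>
    intro ht
    have hlt : l.length - (t + 1) < l.length := by omega
    have hd : l.drop (l.length - (t + 1)) =
        l[l.length - (t + 1)] :: l.drop (l.length - (t + 1) + 1) :=
      List.drop_eq_getElem_cons hlt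
    have he : l.length - (t + 1) + 1 = l.length - t := by omega
    rw [h1.1, ih (by omega), hd, h2.2.2.1, he]
    have hv : vt nd l t = nd l[l.length - (t + 1)] := by
      have he2 : l.length - 1 - t = l.length - (t + 1) := by omega
      simp only [vt, he2]
      rw [List.getD_eq_getElem _ _ hlt]
    rw [hv]

end Pool.Agent.MP_a4c1f4_lc.LM
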