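import Pool.Agent.Lib.MP_a4c1f4_lc.LM.Br
import Pool.Agent.Lib.MP_a4c1f4_lc.LM.Cap
import Pool.Agent.Lib.MP_a4c1f4_lc.LM.Cl
import Pool.Agent.Lib.MP_a4c1f4_lc.LM.Cov
import Pool.Agent.Lib.MP_a4c1f4_lc.LM.Cst
import Pool.Agent.Lib.MP_a4c1f4_lc.LM.Dst
import Pool.Agent.Lib.MP_a4c1f4_lc.LM.Edg
import Pool.Agent.Lib.MP_a4c1f4_lc.LM.En
import Pool.Agent.Lib.MP_a4c1f4_lc.LM.Fl
import Pool.Agent.Lib.MP_a4c1f4_lc.LM.Fst
import Pool.Agent.Lib.MP_a4c1f4_lc.LM.Gr
import Pool.Agent.Lib.MP_a4c1f4_lc.LM.IntL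
import Pool.Agent.Lib.MP_a4c1f4_lc.LM.Lab
import Pool.Agent.Lib.MP_a4c1f4_lc.LM.Mn
import Pool.Agent.Lib.MP_a4c1f4_lc.LM.Msb
import Pool.Agent.Lib.MP_a4c1f4_lc.LM.Msh
import Pool.Agent.Lib.MP_a4c1f4_lc.LM.Nn
import Pool.Agent.Lib.MP_a4c1f4_lc.LM.Num
import Pool.Agent.Lib.MP_a4c1f4_lc.LM.Op
import Pool.Agent.Lib.MP_a4c1f4_lc.LM.OptL
import Pool.Agent.Lib.MP_a4c1f4_lc.LM.OrA
import Pool.Agent.Lib.MP_a4c1f4_lc.LM.OrB
import Pool.Agent.Lib.MP_a4c1f4_lc.LM.Ors
import Pool.Agent.Lib.MP_a4c1f4_lc.LM.PI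
import Pool.Agent.Lib.MP_a4c1f4_lc.LM.PcL
import Pool.Agent.Lib.MP_a4c1f4_lc.LM.PcR
import Pool.Agent.Lib.MP_a4c1f4_lc.LM.Pcs
import Pool.Agent.Lib.MP_a4c1f4_lc.LM.Pm
import Pool.Agent.Lib.MP_a4c1f4_lc.LM.Pth
import Pool.Agent.Lib.MP_a4c1f4_lc.LM.Rd
import Pool.Agent.Lib.MP_a4c1f4_lc.LM.RfO
import Pool.Agent.Lib.MP_a4c1f4_lc.LM.RfW
import Pool.Agent.Lib.MP_a4c1f4_lc.LM.Rfl
import Pool.Agent.Lib.MP_a4c1f4_lc.LM.Rn
import Pool.Agent.Lib.MP_a4c1f4_lc.LM.Stp
import Pool.Agent.Lib.MP_a4c1f4_lc.LM.Top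
import Pool.Agent.Lib.MP_a4c1f4_lc.LM.Tot
import Pool.Agent.Lib.MP_a4c1f4_lc.LM.TotR
import Pool.Agent.Lib.MP_a4c1f4_lc.LM.Wn
import Pool.Agent.Lib.MP_a4c1f4_lc.LM.Zv

set_option linter.all false

/-!
Randomized online transportation on the real line (in particular online matching on the line, all
capacities equal to one): a randomized online algorithm with the competitive ratio
`O(log n / log log n)` for `n` requests.
-/

namespace Pool.Agent.Results.MP_a4c1f4_lc.Line

open Pool.Agent.MP_a4c1f4_lc.LM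
open Pool.Agent.MP_a4c1f4_lc.Dbl.L (assigned cost Respects)

/-- Online transportation for `m ≥ 1` sites on the real line with arbitrary capacities. There is a
randomized online algorithm (a probability space of deterministic online rules which respect the
capacities on all lists of at most `∑ j, cap j` requests), which does not know the number of the
requests, such that on every list of `n ≥ 3` requests (anywhere on the line) its expected cost is at
most `8000 log n / log log n` times the cost of every assignment of these requests which respects the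
capacities. -/
theorem result (m : ℕ) (hm : 0 < m) (s : Fin m → ℝ) (cap : Fin m → ℕ) :
    ∃ (Ω : Type) (_ : MeasurableSpace Ω) (μ : MeasureTheory.Measure Ω)
      (_ : MeasureTheory.IsProbabilityMeasure μ) (A : Ω → ℝ → List ℝ → Fin m),
      (∀ x l, Measurable (fun ω => A ω x l)) ∧
      (∀ ω l, l.length ≤ ∑ j, cap j → Respects cap (assigned (A ω) l)) ∧
      ∀ (l : List ℝ) (τ : List (Fin m)), 3 ≤ l.length → τ.length = l.length → Respects cap τ →
        ∫ ω, cost s l (assigned (A ω) l) ∂μ ≤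
          8000 * (Real.log l.length / Real.log (Real.log l.length)) * cost s l τ := by
  have hStp := stpP opP
  have hFst := fstP runP covP ztP
  have hLab := labP orAP orBP nnP orsP ztP
  have hTot := totP (edgP hLab) hFst
  have hTotR := totRP hTot rfOP (rflP rfOP) rfWP
  have hPcL := pcLP nnP pthP intP
  have hPcR := pcRP hPcL rfOP rfWP
  have hMain := mainP hPcL hPcR hTot hTotR numP ztP (wnP orAP nnP rfOP rfWP)
  have hGr := grP hStp pmP flP brP capP
  have hZv := zvP ztP flP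
  have hRd := rdP flP capP hGr hZv clP
  exact topP mshP flP capP (optP flP dstP) (cstP flP dstP) pcsP enP piP msbP hZv hRd hMain
    m hm s cap

end Pool.Agent.Results.MP_a4c1f4_lc.Line
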