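import Pool.Agent.Lib.MP_a4c1f4_lc.LM.SpecL

set_option autoImplicit false

/-!
Online matching on the line: the integral of a function which is constant on open pieces, and the
total mass of the uniform probability on the tilts.
-/

namespace Pool.Agent.MP_a4c1f4_lc.LM

open Finset MeasureTheory

namespace PIAux

theorem mass : IsProbabilityMeasure tilt := by
  refine ⟨?_⟩
  unfold tilt
  rw [Measure.smul_apply, Measure.restrict_apply_univ, Real.volume_Icc, smul_eq_mul]
  have h1 : (1 / 3 : ℝ) - -(1 / 3) = 2 / 3 := by norm_num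
  have h2 : (3 / 2 : ENNReal) = ENNReal.ofReal (3 / 2) := by
    rw [ENNReal.ofReal_div_of_pos (by norm_num)]
    norm_num
  rw [h1, h2, ← ENNReal.ofReal_mul (by norm_num)]
  norm_num

theorem le_of_steps (q : ℕ) (x : ℕ → ℝ) (hx : ∀ r, r < q → x r < x (r + 1)) : x 0 ≤ x q := by
  induction q with
  | zero => exact le_refl _
  | succ q ih =>
    exact (ih fun r hr => hx r (Nat.lt_succ_of_lt hr)).trans (hx q (Nat.lt_succ_self q)).le

theorem piece (a b v : ℝ) (F : ℝ → ℝ) (hab : a < b) (hF : ∀ θ, a < θ → θ < b → F θ = v) :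
    IntervalIntegrable F volume a b ∧ ∫ θ in a..b, F θ = (b - a) * v := by
  have h1 : Set.EqOn (fun _ : ℝ => v) F (Set.Ioo a b) := fun θ hθ => (hF θ hθ.1 hθ.2).symm
  refine ⟨?_, ?_⟩
  · refine (intervalIntegrable_const (c := v)).congr_uIoo ?_
    rw [Set.uIoo_of_le hab.le]
    exact h1
  · rw [← intervalIntegral.integral_congr_Ioo_of_le hab.le h1, intervalIntegral.integral_const,
      smul_eq_mul]

end PIAux

theorem piP : T_PI := by
  refine ⟨PIAux.mass, ?_⟩
  intro q x F V h0 hq hx hF
  have hle := PIAux.le_of_steps q x hx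
  have h1 : ∫ θ, F θ ∂tilt = 3 / 2 * ∫ θ in (x 0)..(x q), F θ := by
    unfold tilt
    rw [integral_smul_measure, intervalIntegral.integral_of_le hle, ← integral_Icc_eq_integral_Ioc,
      h0, hq, smul_eq_mul]
    norm_num
  rw [h1, ← intervalIntegral.sum_integral_adjacent_intervals (fun r hr =>
    (PIAux.piece (x r) (x (r + 1)) (V r) F (hx r hr) (hF r hr)).1)]
  refine congrArg (fun z => 3 / 2 * z) (Finset.sum_congr rfl fun r hr => ?_)
  have hr' := Finset.mem_range.mp hr
  exact (PIAux.piece (x r) (x (r + 1)) (V r) F (hx r hr') (hF r hr')).2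

end Pool.Agent.MP_a4c1f4_lc.LM
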